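import Mathlib

/-! Product Bernoulli measure on `ι → Bool` and resampling of one coordinate. -/

open MeasureTheory Set Filter Topology
open scoped ENNReal

namespace Pool.Agent.H17.IIC

/-- Bernoulli measure on `Bool` with mass `p` at `true` and `1 - p` at `false`. -/
noncomputable def bern (p : unitInterval) : Measure Bool :=
  ENNReal.ofReal (p : ℝ) • Measure.dirac true + ENNReal.ofReal (1 - (p : ℝ)) • Measure.dirac false

instance (p : unitInterval) : IsProbabilityMeasure (bern p) := by
  constructor
  simp only [bern, Measure.coe_add, Measure.coe_smul, Pi.add_apply, Pi.smul_apply, measure_univ,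
    smul_eq_mul, mul_one]
  rw [← ENNReal.ofReal_add p.2.1 (by linarith [p.2.2])]
  simp

/-- the product measure on `ι → Bool` -/
noncomputable def prodBern (ι : Type*) (p : unitInterval) : Measure (ι → Bool) :=
  Measure.infinitePi (fun _ : ι => bern p)

instance (ι : Type*) (p : unitInterval) : IsProbabilityMeasure (prodBern ι p) := by
  unfold prodBern; infer_instance

variable {ι : Type*} [DecidableEq ι] (p : unitInterval)

lemma lintegral_bern (f : Bool → ℝ≥0∞) :
    ∫⁻ b, f b ∂(bern p) = ENNReal.ofReal (p : ℝ) * f true + ENNReal.ofReal (1 - (p : ℝ)) * f false := by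
  unfold bern
  rw [lintegral_add_measure, lintegral_smul_measure, lintegral_smul_measure,
    lintegral_dirac, lintegral_dirac]
  simp

lemma measurable_update' (e : ι) :
    Measurable (fun x : Bool × (ι → Bool) => Function.update x.2 e x.1) := by
  rw [measurable_pi_iff]
  intro i
  by_cases h : i = e
  · subst h
    simpa using measurable_fst
  · simp only [Function.update_of_ne h]
    exact (measurable_pi_apply i).comp measurable_snd

lemma measurable_upd (e : ι) (b : Bool) :
    Measurable (fun x : (ι → Bool) => Function.update x e b) := by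
  have := (measurable_update' (ι := ι) e).comp (measurable_prodMk_left (x := b))
  exact this

lemma map_update (e : ι) :
    ((bern p).prod (prodBern ι p)).map (fun x : Bool × (ι → Bool) => Function.update x.2 e x.1)
      = prodBern ι p := by
  conv_rhs => rw [prodBern]
  apply Measure.eq_infinitePi
  intro s t ht
  rw [Measure.map_apply (measurable_update' e) (MeasurableSet.pi s.countable_toSet (fun i _ => ht i))]
  by_cases he : e ∈ s
  · have : (fun x : Bool × (ι → Bool) => Function.update x.2 e x.1) ⁻¹' (Set.pi s t)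
        = t e ×ˢ (Set.pi (s.erase e) t) := by
      ext ⟨b, x⟩
      simp only [mem_preimage, Set.mem_pi, Finset.mem_coe, mem_prod, Finset.mem_erase]
      constructor
      · intro h
        refine ⟨by simpa using h e he, fun i hi => ?_⟩
        have := h i hi.2
        rwa [Function.update_of_ne hi.1] at this
      · rintro ⟨h1, h2⟩ i hi
        by_cases hie : i = e
        · subst hie; simpa using h1
        · rw [Function.update_of_ne hie]
          exact h2 i ⟨hie, hi⟩
    rw [this, Measure.prod_prod, prodBern,
      Measure.infinitePi_pi (μ := fun _ : ι => bern p) (fun i _ => ht i),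
      Finset.mul_prod_erase s (fun i => bern p (t i)) he]
  · have : (fun x : Bool × (ι → Bool) => Function.update x.2 e x.1) ⁻¹' (Set.pi s t)
        = Set.univ ×ˢ (Set.pi s t) := by
      ext ⟨b, x⟩
      simp only [mem_preimage, Set.mem_pi, Finset.mem_coe, mem_prod, mem_univ, true_and]
      have hne : ∀ i ∈ s, i ≠ e := fun i hi h => he (h ▸ hi)
      constructor
      · intro h i hi
        have := h i hi
        rwa [Function.update_of_ne (hne i hi)] at this
      · intro h i hi
        rw [Function.update_of_ne (hne i hi)]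
        exact h i hi
    rw [this, Measure.prod_prod, prodBern,
      Measure.infinitePi_pi (μ := fun _ : ι => bern p) (fun i _ => ht i), measure_univ, one_mul]

/-- resampling one coordinate -/
lemma resample (e : ι) {f : (ι → Bool) → ℝ≥0∞} (hf : Measurable f) :
    ∫⁻ ω, f ω ∂(prodBern ι p)
      = ENNReal.ofReal (p : ℝ) * ∫⁻ ω, f (Function.update ω e true) ∂(prodBern ι p)
        + ENNReal.ofReal (1 - (p : ℝ)) * ∫⁻ ω, f (Function.update ω e false) ∂(prodBern ι p) := by
  conv_lhs => rw [← map_update p e]
  rw [lintegral_map hf (measurable_update' e),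
    lintegral_prod (fun x : Bool × (ι → Bool) => f (Function.update x.2 e x.1))
      (hf.comp (measurable_update' e)).aemeasurable, lintegral_bern]

/-- the averaging operator at the coordinate `e` -/
noncomputable def avg (e : ι) (f : (ι → Bool) → ℝ≥0∞) : (ι → Bool) → ℝ≥0∞ := fun ω =>
  ENNReal.ofReal (p : ℝ) * f (Function.update ω e true)
    + ENNReal.ofReal (1 - (p : ℝ)) * f (Function.update ω e false)

/-- the (two-sided) influence of the coordinate `e` -/
noncomputable def infl (e : ι) (f : (ι → Bool) → ℝ≥0∞) : (ι → Bool) → ℝ≥0∞ := fun ω =>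
  (f (Function.update ω e true) - f (Function.update ω e false))
    + (f (Function.update ω e false) - f (Function.update ω e true))

lemma measurable_avg (e : ι) {f : (ι → Bool) → ℝ≥0∞} (hf : Measurable f) :
    Measurable (avg p e f) := by
  unfold avg
  have h1 := hf.comp (measurable_upd e true)
  have h2 := hf.comp (measurable_upd e false)
  exact (h1.const_mul _).add (h2.const_mul _)

lemma measurable_infl (e : ι) {f : (ι → Bool) → ℝ≥0∞} (hf : Measurable f) :
    Measurable (infl e f) := by
  unfold infl
  have h1 := hf.comp (measurable_upd e true)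
  have h2 := hf.comp (measurable_upd e false)
  exact (h1.sub h2).add (h2.sub h1)

lemma lintegral_avg (e : ι) {f : (ι → Bool) → ℝ≥0∞} (hf : Measurable f) :
    ∫⁻ ω, avg p e f ω ∂(prodBern ι p) = ∫⁻ ω, f ω ∂(prodBern ι p) := by
  rw [resample p e hf]
  unfold avg
  have h1 : Measurable (fun ω => f (Function.update ω e true)) := hf.comp (measurable_upd e true)
  have h2 : Measurable (fun ω => f (Function.update ω e false)) := hf.comp (measurable_upd e false)
  rw [lintegral_add_left (h1.const_mul _), lintegral_const_mul _ h1, lintegral_const_mul _ h2]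

lemma pq_one : ENNReal.ofReal (p : ℝ) + ENNReal.ofReal (1 - (p : ℝ)) = 1 := by
  rw [← ENNReal.ofReal_add p.2.1 (by linarith [p.2.2])]
  simp

lemma two_point (a b H1 H0 f1 f0 : ℝ≥0∞) (hab : a + b = 1) (h1 : f1 ≤ 1) (h0 : f0 ≤ 1) :
    a * (H1 * f1) + b * (H0 * f0)
      ≤ (a * H1 + b * H0) * (a * f1 + b * f0) + ((H1 - H0) + (H0 - H1)) := by
  have e1 : H1 ≤ (a * H1 + b * H0) + b * (H1 - H0) := by
    calc H1 = (a + b) * H1 := by rw [hab, one_mul]
      _ = a * H1 + b * H1 := by ring
      _ ≤ a * H1 + b * (H0 + (H1 - H0)) := by gcongr; exact le_add_tsub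
      _ = _ := by ring
  have e0 : H0 ≤ (a * H1 + b * H0) + a * (H0 - H1) := by
    calc H0 = (a + b) * H0 := by rw [hab, one_mul]
      _ = a * H0 + b * H0 := by ring
      _ ≤ a * (H1 + (H0 - H1)) + b * H0 := by gcongr; exact le_add_tsub
      _ = _ := by ring
  have ha : a ≤ 1 := by rw [← hab]; exact le_self_add
  have hb : b ≤ 1 := by rw [← hab]; exact le_add_self
  calc a * (H1 * f1) + b * (H0 * f0)
      ≤ a * (((a * H1 + b * H0) + b * (H1 - H0)) * f1)
        + b * (((a * H1 + b * H0) + a * (H0 - H1)) * f0) := by gcongr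
    _ = (a * H1 + b * H0) * (a * f1 + b * f0)
        + (a * b * f1 * (H1 - H0) + b * a * f0 * (H0 - H1)) := by ring
    _ ≤ (a * H1 + b * H0) * (a * f1 + b * f0)
        + (1 * 1 * 1 * (H1 - H0) + 1 * 1 * 1 * (H0 - H1)) := by gcongr
    _ = _ := by ring

lemma infl_avg_le (e e' : ι) (h : e' ≠ e) (f : (ι → Bool) → ℝ≥0∞) (ω : ι → Bool) :
    infl e' (avg p e f) ω ≤ avg p e (infl e' f) ω := by
  unfold infl avg
  simp only [Function.update_comm h]
  set a := ENNReal.ofReal (p : ℝ)
  set b := ENNReal.ofReal (1 - (p : ℝ))
  set A := f (Function.update (Function.update ω e true) e' true)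
  set B := f (Function.update (Function.update ω e false) e' true)
  set C := f (Function.update (Function.update ω e true) e' false)
  set D := f (Function.update (Function.update ω e false) e' false)
  have ha : a ≠ ⊤ := ENNReal.ofReal_ne_top
  have hb : b ≠ ⊤ := ENNReal.ofReal_ne_top
  have e1 : a * A + b * B - (a * C + b * D) ≤ a * (A - C) + b * (B - D) := by
    rw [ENNReal.mul_sub (fun _ _ => ha), ENNReal.mul_sub (fun _ _ => hb)]
    exact add_tsub_add_le_tsub_add_tsub
  have e2 : a * C + b * D - (a * A + b * B) ≤ a * (C - A) + b * (D - B) := by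
    rw [ENNReal.mul_sub (fun _ _ => ha), ENNReal.mul_sub (fun _ _ => hb)]
    exact add_tsub_add_le_tsub_add_tsub
  calc _ ≤ (a * (A - C) + b * (B - D)) + (a * (C - A) + b * (D - B)) := add_le_add e1 e2
    _ = _ := by ring

/-- A function with small influences on the finite set `F` is almost uncorrelated with functions
of the coordinates in `F`. -/
theorem cov_bound (F : Finset ι) : ∀ (H φ : (ι → Bool) → ℝ≥0∞), Measurable H → Measurable φ →
    DependsOn φ (F : Set ι) → (∀ ω, φ ω ≤ 1) →
    ∫⁻ ω, H ω * φ ω ∂(prodBern ι p) ≤ (∫⁻ ω, H ω ∂(prodBern ι p)) * (∫⁻ ω, φ ω ∂(prodBern ι p))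
      + ∑ e ∈ F, ∫⁻ ω, infl e H ω ∂(prodBern ι p) := by
  induction F using Finset.induction_on with
  | empty =>
    intro H φ hH hφ hdep _
    obtain ⟨c, hc⟩ : ∃ c, ∀ ω, φ ω = c := by
      refine ⟨φ (fun _ => false), fun ω => hdep ?_⟩
      intro i hi
      simp at hi
    simp only [hc, Finset.sum_empty, add_zero, lintegral_const, measure_univ, mul_one]
    rw [lintegral_mul_const _ hH]
  | insert e F he ih =>
    intro H φ hH hφ hdep h1
    have hHφ : Measurable (fun ω => H ω * φ ω) := hH.mul hφ
    have hH1 := hH.comp (measurable_upd e true)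
    have hH2 := hH.comp (measurable_upd e false)
    have hφ1 := hφ.comp (measurable_upd e true)
    have hφ2 := hφ.comp (measurable_upd e false)
    have hdep' : DependsOn (avg p e φ) (F : Set ι) := by
      intro ω ω' hω
      unfold avg
      have : ∀ b, φ (Function.update ω e b) = φ (Function.update ω' e b) := by
        intro b
        apply hdep
        intro i hi
        by_cases hie : i = e
        · subst hie; simp
        · rw [Function.update_of_ne hie, Function.update_of_ne hie]
          apply hω
          simp only [Finset.coe_insert, Set.mem_insert_iff, hie, false_or] at hi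
          exact hi
      rw [this, this]
    have h1' : ∀ ω, avg p e φ ω ≤ 1 := by
      intro ω
      unfold avg
      calc _ ≤ ENNReal.ofReal (p : ℝ) * 1 + ENNReal.ofReal (1 - (p : ℝ)) * 1 := by
            gcongr <;> exact h1 _
        _ = 1 := by rw [mul_one, mul_one, pq_one]
    have key := ih (avg p e H) (avg p e φ) (measurable_avg p e hH) (measurable_avg p e hφ) hdep' h1'
    rw [lintegral_avg p e hH, lintegral_avg p e hφ] at key
    have step : ∫⁻ ω, H ω * φ ω ∂(prodBern ι p)
        ≤ ∫⁻ ω, avg p e H ω * avg p e φ ω ∂(prodBern ι p) + ∫⁻ ω, infl e H ω ∂(prodBern ι p) := by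
      have hm : Measurable (fun ω => avg p e H ω * avg p e φ ω) :=
        (measurable_avg p e hH).mul (measurable_avg p e hφ)
      rw [← lintegral_avg p e hHφ, ← lintegral_add_left hm]
      apply lintegral_mono
      intro ω
      exact two_point _ _ _ _ _ _ (pq_one p) (h1 _) (h1 _)
    have hsum : ∑ e' ∈ F, ∫⁻ ω, infl e' (avg p e H) ω ∂(prodBern ι p)
        ≤ ∑ e' ∈ F, ∫⁻ ω, infl e' H ω ∂(prodBern ι p) := by
      apply Finset.sum_le_sum
      intro e' he'
      rw [← lintegral_avg p e (measurable_infl e' hH)]
      apply lintegral_mono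
      intro ω
      exact infl_avg_le p e e' (fun h => he (h ▸ he')) H ω
    rw [Finset.sum_insert he]
    calc _ ≤ _ := step
      _ ≤ ((∫⁻ ω, H ω ∂(prodBern ι p)) * (∫⁻ ω, φ ω ∂(prodBern ι p))
          + ∑ e' ∈ F, ∫⁻ ω, infl e' (avg p e H) ω ∂(prodBern ι p))
          + ∫⁻ ω, infl e H ω ∂(prodBern ι p) := by gcongr
      _ ≤ ((∫⁻ ω, H ω ∂(prodBern ι p)) * (∫⁻ ω, φ ω ∂(prodBern ι p))
          + ∑ e' ∈ F, ∫⁻ ω, infl e' H ω ∂(prodBern ι p))
          + ∫⁻ ω, infl e H ω ∂(prodBern ι p) := by gcongr
      _ = _ := by ring

end Pool.Agent.H17.IIC
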