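import Mathlib
import Pool.Agent.H17.IIC.Resample

/-! Open clusters of a bond configuration. -/

open MeasureTheory Set Filter Topology
open scoped ENNReal

namespace Pool.Agent.H17.IIC

/-- The graph of open edges of the configuration `ω`: an edge `e` of `G` is open if
`ω e = true`. (Coordinates of `ω` at unordered pairs which are not edges of `G` are ignored.) -/
def openG {V : Type*} (G : SimpleGraph V) (ω : Sym2 V → Bool) : SimpleGraph V where
  Adj x y := G.Adj x y ∧ ω s(x, y) = true
  symm := ⟨fun x y h => ⟨h.1.symm, by rw [Sym2.eq_swap]; exact h.2⟩⟩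
  loopless := ⟨fun x h => G.loopless.irrefl x h.1⟩

/-- The open cluster of the vertex `x`. -/
def cluster {V : Type*} (G : SimpleGraph V) (ω : Sym2 V → Bool) (x : V) : Set V :=
  {y | (openG G ω).Reachable x y}

variable {V : Type*} {G : SimpleGraph V} {ω ω' : Sym2 V → Bool} {x y z : V}

lemma self_mem_cluster : x ∈ cluster G ω x := SimpleGraph.Reachable.refl x

lemma mem_cluster_comm : y ∈ cluster G ω x ↔ x ∈ cluster G ω y :=
  ⟨fun h => SimpleGraph.Reachable.symm h, fun h => SimpleGraph.Reachable.symm h⟩

lemma cluster_eq_of_mem (h : y ∈ cluster G ω x) : cluster G ω y = cluster G ω x := by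
  ext z
  exact ⟨fun hz => SimpleGraph.Reachable.trans h hz,
    fun hz => SimpleGraph.Reachable.trans (SimpleGraph.Reachable.symm h) hz⟩

lemma cluster_step (h : y ∈ cluster G ω x) (hyz : G.Adj y z) (ho : ω s(y, z) = true) :
    z ∈ cluster G ω x := by
  refine SimpleGraph.Reachable.trans h (SimpleGraph.Adj.reachable ?_)
  exact ⟨hyz, ho⟩

lemma cluster_induction {P : V → Prop} (hx : P x)
    (step : ∀ a ∈ cluster G ω x, P a → ∀ b, G.Adj a b → ω s(a, b) = true → P b) :
    ∀ y ∈ cluster G ω x, P y := by
  intro y hy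
  have hy' : Relation.ReflTransGen (openG G ω).Adj x y :=
    (SimpleGraph.reachable_iff_reflTransGen x y).1 hy
  have : y ∈ cluster G ω x ∧ P y := by
    clear hy
    induction hy' with
    | refl => exact ⟨self_mem_cluster, hx⟩
    | tail _ hbc ih =>
      exact ⟨cluster_step ih.1 hbc.1 hbc.2, step _ ih.1 ih.2 _ hbc.1 hbc.2⟩
  exact this.2

lemma cluster_subset_of_edges
    (h : ∀ a ∈ cluster G ω x, ∀ b, G.Adj a b → ω s(a, b) = true → ω' s(a, b) = true) :
    cluster G ω x ⊆ cluster G ω' x := by
  intro y hy
  exact cluster_induction (P := fun y => y ∈ cluster G ω' x) self_mem_cluster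
    (fun a ha hPa b hab hob => cluster_step hPa hab (h a ha b hab hob)) y hy

lemma cluster_mono (h : ∀ e, ω e = true → ω' e = true) : cluster G ω x ⊆ cluster G ω' x :=
  cluster_subset_of_edges (fun _ _ _ _ ho => h _ ho)

section touch
variable (G)
/-- the edges touching the set `K` -/
def touch (K : Set V) : Set (Sym2 V) := {e | ∃ a ∈ K, ∃ b, G.Adj a b ∧ e = s(a, b)}

lemma touch_finite (hfin : ∀ x, (G.neighborSet x).Finite) {K : Set V} (hK : K.Finite) :
    (touch G K).Finite := by
  have : touch G K ⊆ ⋃ a ∈ K, (fun b => s(a, b)) '' (G.neighborSet a) := by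
    rintro e ⟨a, ha, b, hab, rfl⟩
    simp only [mem_iUnion, mem_image]
    exact ⟨a, ha, b, hab, rfl⟩
  exact (hK.biUnion (fun a _ => (hfin a).image _)).subset this

variable {G}

lemma mem_touch_left {K : Set V} (hx : x ∈ K) (h : G.Adj x y) : s(x, y) ∈ touch G K :=
  ⟨x, hx, y, h, rfl⟩

lemma mem_touch_right {K : Set V} (hy : y ∈ K) (h : G.Adj x y) : s(x, y) ∈ touch G K :=
  ⟨y, hy, x, h.symm, Sym2.eq_swap⟩

lemma of_mem_touch {K : Set V} (h : s(x, y) ∈ touch G K) : x ∈ K ∨ y ∈ K := by
  obtain ⟨a, ha, b, _, he⟩ := h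
  rw [Sym2.eq_iff] at he
  rcases he with ⟨rfl, rfl⟩ | ⟨rfl, rfl⟩
  · exact Or.inl ha
  · exact Or.inr ha

/-- the cluster only depends on the edges touching it -/
lemma cluster_congr (h : ∀ e ∈ touch G (cluster G ω x), ω e = ω' e) :
    cluster G ω' x = cluster G ω x := by
  apply Set.Subset.antisymm
  · intro y hy
    exact cluster_induction (P := fun y => y ∈ cluster G ω x) self_mem_cluster
      (fun a _ hPa b hab hob => cluster_step hPa hab (by
        rw [h _ (mem_touch_left hPa hab)]; exact hob)) y hy
  · exact cluster_subset_of_edges (fun a ha b hab ho => by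
      rw [← h _ (mem_touch_left ha hab)]; exact ho)

/-- the configuration in which all edges touching `K` are closed -/
noncomputable def kill (G : SimpleGraph V) (K : Set V) (ω : Sym2 V → Bool) : Sym2 V → Bool :=
  open Classical in fun e => if e ∈ touch G K then false else ω e

lemma kill_le {K : Set V} : ∀ e, kill G K ω e = true → ω e = true := by
  intro e he
  unfold kill at he
  split_ifs at he
  exact he

lemma cluster_kill {K : Set V} (hK : cluster G ω x = K) (hy : y ∉ K) :
    cluster G ω y ⊆ cluster G (kill G K ω) y := by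
  have hnot : ∀ a ∈ cluster G ω y, a ∉ K := by
    intro a ha haK
    apply hy
    rw [← hK] at haK ⊢
    exact SimpleGraph.Reachable.trans haK (SimpleGraph.Reachable.symm ha)
  apply cluster_subset_of_edges
  intro a ha b hab ho
  have hb : b ∈ cluster G ω y := cluster_step ha hab ho
  unfold kill
  rw [if_neg]
  · exact ho
  · intro hmem
    rcases of_mem_touch hmem with h | h
    · exact hnot a ha h
    · exact hnot b hb h

end touch

/-! ### Measurability -/

section meas
variable [Countable V]

lemma measurableSet_mem_cluster (x y : V) : MeasurableSet {ω : Sym2 V → Bool | y ∈ cluster G ω x} := by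
  let R : ℕ → V → Set (Sym2 V → Bool) := fun n => Nat.rec (motive := fun _ => V → Set (Sym2 V → Bool))
    (fun y => {_ω | x = y}) (fun _ S y => {ω | ∃ z, ω ∈ S z ∧ (z = y ∨ (G.Adj z y ∧ ω s(z, y) = true))}) n
  have hR0 : ∀ y, R 0 y = {_ω | x = y} := fun _ => rfl
  have hRs : ∀ n y, R (n+1) y = {ω | ∃ z, ω ∈ R n z ∧ (z = y ∨ (G.Adj z y ∧ ω s(z, y) = true))} :=
    fun _ _ => rfl
  have hmeas : ∀ n y, MeasurableSet (R n y) := by
    intro n
    induction n with
    | zero => intro y; rw [hR0]; exact MeasurableSet.const _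
    | succ n ih =>
      intro y
      rw [hRs]
      have : {ω : Sym2 V → Bool | ∃ z, ω ∈ R n z ∧ (z = y ∨ (G.Adj z y ∧ ω s(z, y) = true))}
          = ⋃ z, (R n z ∩ ({_ω | z = y} ∪ ({_ω | G.Adj z y} ∩ {ω | ω s(z, y) = true}))) := by
        ext ω
        simp only [Set.mem_ofPred_eq, mem_iUnion, mem_inter_iff, mem_union]
      rw [this]
      refine MeasurableSet.iUnion (fun z => (ih z).inter ((MeasurableSet.const _).union
        ((MeasurableSet.const _).inter ?_)))
      exact measurableSet_eq_fun (measurable_pi_apply _) measurable_const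
  have key : {ω : Sym2 V → Bool | y ∈ cluster G ω x} = ⋃ n, R n y := by
    ext ω
    simp only [Set.mem_ofPred_eq, mem_iUnion]
    constructor
    · intro hy
      refine cluster_induction (P := fun y => ∃ n, ω ∈ R n y) ⟨0, ?_⟩ ?_ y hy
      · rw [hR0]; rfl
      · rintro a _ ⟨n, hn⟩ b hab ho
        refine ⟨n+1, ?_⟩
        rw [hRs]
        exact ⟨a, hn, Or.inr ⟨hab, ho⟩⟩
    · rintro ⟨n, hn⟩
      induction n generalizing y with
      | zero =>
        rw [hR0] at hn
        have : x = y := hn
        subst this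
        exact self_mem_cluster
      | succ n ih =>
        rw [hRs] at hn
        obtain ⟨z, hz, h | ⟨h1, h2⟩⟩ := hn
        · subst h; exact ih _ hz
        · exact cluster_step (ih _ hz) h1 h2
  rw [key]
  exact MeasurableSet.iUnion (fun n => hmeas n y)

lemma measurableSet_cluster_eq (x : V) (K : Set V) :
    MeasurableSet {ω : Sym2 V → Bool | cluster G ω x = K} := by
  have : {ω : Sym2 V → Bool | cluster G ω x = K} = ⋂ y, {ω | y ∈ cluster G ω x ↔ y ∈ K} := by
    ext ω
    simp only [Set.mem_ofPred_eq, mem_iInter]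
    constructor
    · intro h y; rw [h]
    · intro h; ext y; exact h y
  rw [this]
  refine MeasurableSet.iInter (fun y => ?_)
  by_cases hy : y ∈ K
  · simp only [hy, iff_true]; exact measurableSet_mem_cluster x y
  · simp only [hy, iff_false]; exact (measurableSet_mem_cluster x y).compl

end meas

/-- the cluster as a finset (`∅` if infinite) -/
noncomputable def cl (G : SimpleGraph V) (ω : Sym2 V → Bool) (x : V) : Finset V :=
  open Classical in if h : (cluster G ω x).Finite then h.toFinset else ∅

lemma cl_eq_of_finite (h : (cluster G ω x).Finite) : (cl G ω x : Set V) = cluster G ω x := by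
  unfold cl
  rw [dif_pos h]
  simp

lemma mem_cl_of_finite (h : (cluster G ω x).Finite) : y ∈ cl G ω x ↔ y ∈ cluster G ω x := by
  rw [← Finset.mem_coe, cl_eq_of_finite h]

lemma cl_eq_empty (h : ¬ (cluster G ω x).Finite) : cl G ω x = ∅ := by
  unfold cl; rw [dif_neg h]

lemma mem_cl_iff : y ∈ cl G ω x ↔ (cluster G ω x).Finite ∧ y ∈ cluster G ω x := by
  by_cases h : (cluster G ω x).Finite
  · simp [mem_cl_of_finite h, h]
  · simp [cl_eq_empty h, h]

lemma cl_congr (h : cluster G ω x = cluster G ω' y) : cl G ω x = cl G ω' y := by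
  by_cases hf : (cluster G ω x).Finite
  · apply Finset.coe_injective
    rw [cl_eq_of_finite hf, cl_eq_of_finite (by rwa [← h]), h]
  · rw [cl_eq_empty hf, cl_eq_empty (by rwa [← h])]

lemma cl_eq_iff {K : Finset V} (hK : K.Nonempty) : cl G ω x = K ↔ cluster G ω x = K := by
  constructor
  · intro h
    have : (cluster G ω x).Finite := by
      by_contra hn
      rw [cl_eq_empty hn] at h
      exact hK.ne_empty h.symm
    rw [← cl_eq_of_finite this, h]
  · intro h
    have hf : (cluster G ω x).Finite := by rw [h]; exact K.finite_toSet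
    apply Finset.coe_injective
    rw [cl_eq_of_finite hf, h]

instance : MeasurableSpace (Finset V) := ⊤
instance : MeasurableSingletonClass (Finset V) := ⟨fun _ => trivial⟩

lemma measurable_cl [Countable V] (x : V) : Measurable (fun ω : Sym2 V → Bool => cl G ω x) := by
  have hne : ∀ K : Finset V, K.Nonempty →
      MeasurableSet ((fun ω : Sym2 V → Bool => cl G ω x) ⁻¹' {K}) := by
    intro K hK
    have : (fun ω : Sym2 V → Bool => cl G ω x) ⁻¹' {K} = {ω | cluster G ω x = K} := by
      ext ω
      simp only [mem_preimage, mem_singleton_iff, Set.mem_ofPred_eq]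
      exact cl_eq_iff hK
    rw [this]
    exact measurableSet_cluster_eq x _
  apply measurable_to_countable'
  intro K
  rcases K.eq_empty_or_nonempty with rfl | hK
  · have : (fun ω : Sym2 V → Bool => cl G ω x) ⁻¹' {∅}
        = (⋃ K ∈ {K : Finset V | K.Nonempty}, (fun ω : Sym2 V → Bool => cl G ω x) ⁻¹' {K})ᶜ := by
      ext ω
      simp only [mem_preimage, mem_singleton_iff, mem_compl_iff, mem_iUnion, Set.mem_ofPred_eq,
        exists_prop, exists_eq_right', Finset.not_nonempty_iff_eq_empty]
    rw [this]
    exact (MeasurableSet.biUnion (to_countable _) (fun K hK => hne K hK)).compl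
  · exact hne K hK

/-- the event that the cluster of `x` has more than `M` vertices -/
def Big (G : SimpleGraph V) (M : ℕ) (ω : Sym2 V → Bool) (x : V) : Prop :=
  (M : ℕ∞) < (cluster G ω x).encard

lemma not_big_iff {M : ℕ} : ¬ Big G M ω x ↔ (cluster G ω x).Finite ∧ (cl G ω x).card ≤ M := by
  unfold Big
  rw [not_lt]
  constructor
  · intro h
    have hf : (cluster G ω x).Finite := Set.finite_of_encard_le_coe h
    refine ⟨hf, ?_⟩
    rw [← cl_eq_of_finite hf, Set.encard_coe_eq_coe_finsetCard] at h
    exact_mod_cast h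
  · rintro ⟨hf, h⟩
    rw [← cl_eq_of_finite hf, Set.encard_coe_eq_coe_finsetCard]
    exact_mod_cast h

lemma big_iff_of_finite {M : ℕ} (hf : (cluster G ω x).Finite) :
    Big G M ω x ↔ M < (cl G ω x).card := by
  have := not_big_iff (G := G) (ω := ω) (x := x) (M := M)
  constructor
  · intro h
    by_contra hc
    exact (this.2 ⟨hf, not_lt.1 hc⟩) h
  · intro h
    by_contra hc
    exact absurd (this.1 hc).2 (not_le.2 h)

lemma Big.mono {M : ℕ} (h : Big G M ω x) (hs : cluster G ω x ⊆ cluster G ω' y) : Big G M ω' y :=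
  lt_of_lt_of_le h (Set.encard_le_encard hs)

lemma measurableSet_big [Countable V] (M : ℕ) (x : V) :
    MeasurableSet {ω : Sym2 V → Bool | Big G M ω x} := by
  have : {ω : Sym2 V → Bool | Big G M ω x}
      = (⋃ K ∈ {K : Finset V | K.card ≤ M}, {ω | cluster G ω x = K})ᶜ := by
    ext ω
    simp only [Set.mem_ofPred_eq, mem_compl_iff, mem_iUnion, exists_prop, not_exists, not_and]
    constructor
    · intro h K hK hcl
      rw [Big, hcl, Set.encard_coe_eq_coe_finsetCard] at h
      exact absurd (by exact_mod_cast h : M < K.card) (not_lt.2 hK)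
    · intro h
      by_contra hc
      obtain ⟨hf, hcard⟩ := not_big_iff.1 hc
      exact h _ hcard (cl_eq_of_finite hf).symm
  rw [this]
  exact (MeasurableSet.biUnion (to_countable _) (fun K _ => measurableSet_cluster_eq x _)).compl

end Pool.Agent.H17.IIC
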