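import Mathlib
import Pool.Agent.H17.IIC.Cluster

/-! Flipping one edge; exploration of a cluster. -/

open MeasureTheory Set Filter Topology
open scoped ENNReal Classical

namespace Pool.Agent.H17.IIC

variable {V : Type*} {G : SimpleGraph V} {ω ω' : Sym2 V → Bool} {x y z v : V}

/-- close the edge `e` -/
noncomputable def off (ω : Sym2 V → Bool) (e : Sym2 V) : Sym2 V → Bool := Function.update ω e false
/-- open the edge `e` -/
noncomputable def on (ω : Sym2 V → Bool) (e : Sym2 V) : Sym2 V → Bool := Function.update ω e true

lemma off_self (e : Sym2 V) : off ω e e = false := by simp [off]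
lemma on_self (e : Sym2 V) : on ω e e = true := by simp [on]
lemma off_ne {e f : Sym2 V} (h : f ≠ e) : off ω e f = ω f := by simp [off, Function.update_of_ne h]
lemma on_ne {e f : Sym2 V} (h : f ≠ e) : on ω e f = ω f := by simp [on, Function.update_of_ne h]

lemma off_on (e : Sym2 V) : off (on ω e) e = off ω e := by simp [off, on]
lemma off_off (e : Sym2 V) : off (off ω e) e = off ω e := by simp [off]
lemma on_eq_self {e : Sym2 V} (h : ω e = true) : on ω e = ω := by
  unfold on; rw [← h]; exact Function.update_eq_self e ω

lemma measurable_off (e : Sym2 V) : Measurable (fun ω : Sym2 V → Bool => off ω e) :=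
  measurable_upd e false
lemma measurable_on (e : Sym2 V) : Measurable (fun ω : Sym2 V → Bool => on ω e) :=
  measurable_upd e true

lemma off_le (e : Sym2 V) : ∀ f, off ω e f = true → ω f = true := by
  intro f hf
  by_cases h : f = e
  · subst h; rw [off_self] at hf; exact absurd hf (by simp)
  · rwa [off_ne h] at hf

lemma le_on (e : Sym2 V) : ∀ f, ω f = true → on ω e f = true := by
  intro f hf
  by_cases h : f = e
  · subst h; exact on_self _
  · rwa [on_ne h]

lemma off_le_on (e : Sym2 V) : ∀ f, off ω e f = true → on ω e f = true := by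
  intro f hf
  exact le_on e f (off_le e f hf)

lemma cluster_on (hxy : G.Adj x y) :
    cluster G (on ω s(x, y)) x = cluster G (off ω s(x, y)) x ∪ cluster G (off ω s(x, y)) y := by
  apply Set.Subset.antisymm
  · intro z hz
    refine cluster_induction (P := fun z => z ∈ cluster G (off ω s(x, y)) x
      ∪ cluster G (off ω s(x, y)) y) (Or.inl self_mem_cluster) ?_ z hz
    intro a _ ha b hab ho
    by_cases he : s(a, b) = s(x, y)
    · rw [Sym2.eq_iff] at he
      rcases he with ⟨_, rfl⟩ | ⟨_, rfl⟩
      · exact Or.inr self_mem_cluster
      · exact Or.inl self_mem_cluster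
    · rw [on_ne he] at ho
      rcases ha with ha | ha
      · exact Or.inl (cluster_step ha hab (by rw [off_ne he]; exact ho))
      · exact Or.inr (cluster_step ha hab (by rw [off_ne he]; exact ho))
  · apply Set.union_subset
    · exact cluster_mono (off_le_on _)
    · have hy : y ∈ cluster G (on ω s(x, y)) x := cluster_step self_mem_cluster hxy (on_self _)
      rw [← cluster_eq_of_mem hy]
      exact cluster_mono (off_le_on _)

lemma cluster_on_of_not_mem (hx : v ∉ cluster G (off ω s(x, y)) x)
    (hy : v ∉ cluster G (off ω s(x, y)) y) :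
    cluster G (on ω s(x, y)) v = cluster G (off ω s(x, y)) v := by
  apply Set.Subset.antisymm
  · intro z hz
    refine cluster_induction (P := fun z => z ∈ cluster G (off ω s(x, y)) v)
      self_mem_cluster ?_ z hz
    intro a _ ha b hab ho
    by_cases he : s(a, b) = s(x, y)
    · exfalso
      rw [Sym2.eq_iff] at he
      rcases he with ⟨rfl, _⟩ | ⟨rfl, _⟩
      · exact hx (mem_cluster_comm.1 ha)
      · exact hy (mem_cluster_comm.1 ha)
    · rw [on_ne he] at ho
      exact cluster_step ha hab (by rw [off_ne he]; exact ho)
  · exact cluster_mono (off_le_on _)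

lemma cluster_on_of_mem (hxy : G.Adj x y) (h : y ∈ cluster G (off ω s(x, y)) x) (v : V) :
    cluster G (on ω s(x, y)) v = cluster G (off ω s(x, y)) v := by
  have hL : cluster G (off ω s(x, y)) y = cluster G (off ω s(x, y)) x := cluster_eq_of_mem h
  by_cases hv : v ∈ cluster G (off ω s(x, y)) x
  · have h1 : v ∈ cluster G (on ω s(x, y)) x := cluster_mono (off_le_on _) hv
    rw [cluster_eq_of_mem h1, cluster_on hxy, hL, Set.union_self, cluster_eq_of_mem hv]
  · exact cluster_on_of_not_mem hv (by rwa [hL])

/-! ### distances -/

lemma dist_lt_card (hf : (cluster G ω x).Finite) (hy : y ∈ cluster G ω x) (hz : z ∈ cluster G ω x) :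
    G.dist y z < (cl G ω x).card := by
  have hyz : (openG G ω).Reachable y z :=
    SimpleGraph.Reachable.trans (SimpleGraph.Reachable.symm hy) hz
  obtain ⟨w, hw⟩ := hyz.exists_isPath
  have hle : openG G ω ≤ G := fun a b h => h.1
  have h1 : G.dist y z ≤ (w.mapLe hle).length := SimpleGraph.dist_le _
  have h2 : (w.mapLe hle).length = w.length := by simp
  have h3 : w.support.length = w.length + 1 := SimpleGraph.Walk.length_support w
  have h4 : w.support.toFinset ⊆ cl G ω x := by
    intro a ha
    rw [List.mem_toFinset] at ha
    rw [mem_cl_of_finite hf]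
    have : (openG G ω).Reachable y a := ⟨w.takeUntil a ha⟩
    exact SimpleGraph.Reachable.trans hy this
  have h5 : w.support.toFinset.card = w.support.length :=
    List.toFinset_card_of_nodup hw.support_nodup
  have := Finset.card_le_card h4
  omega

/-- if `x` is connected to a vertex at distance at least `M` then its cluster is big -/
lemma big_of_dist {M : ℕ} (hy : y ∈ cluster G ω x) (hd : M ≤ G.dist x y) : Big G M ω x := by
  by_contra hc
  obtain ⟨hf, hcard⟩ := not_big_iff.1 hc
  have := dist_lt_card hf self_mem_cluster hy
  omega

/-! ### exploration -/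

variable [Countable V] (p : unitInterval)

/-- Bernoulli bond percolation -/
noncomputable def perc (V : Type*) (p : unitInterval) : Measure (Sym2 V → Bool) :=
  prodBern (Sym2 V) p

instance : IsProbabilityMeasure (perc V p) := by unfold perc; infer_instance

omit [Countable V] in
lemma measurable_kill (K : Set V) : Measurable (fun ω : Sym2 V → Bool => kill G K ω) := by
  rw [measurable_pi_iff]
  intro e
  unfold kill
  by_cases h : e ∈ touch G K
  · simp only [h, if_true]; exact measurable_const
  · simp only [h, if_false]; exact measurable_pi_apply _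

lemma explore (hfin : ∀ x, (G.neighborSet x).Finite) (M : ℕ) (hxy : G.Adj x y)
    {K : Set V} (hKf : K.Finite) (hx : x ∈ K) (hy : y ∉ K) :
    perc V p {ω | cluster G (off ω s(x, y)) x = K ∧ Big G M (off ω s(x, y)) y}
      ≤ perc V p {ω | cluster G (off ω s(x, y)) x = K} * perc V p {ω | Big G M ω y} := by
  set e : Sym2 V := s(x, y) with he
  have het : e ∈ touch G K := mem_touch_left hx hxy
  set A : Set (Sym2 V → Bool) := {ω | cluster G (off ω e) x = K} with hA
  set B : Set (Sym2 V → Bool) := {ω | Big G M (kill G K ω) y} with hB
  have hAm : MeasurableSet A := (measurable_off e) (measurableSet_cluster_eq x K)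
  have hBm : MeasurableSet B := (measurable_kill K) (measurableSet_big M y)
  set F : Finset (Sym2 V) := (touch_finite G hfin hKf).toFinset with hF
  have hsub : {ω | cluster G (off ω e) x = K ∧ Big G M (off ω e) y} ⊆ A ∩ B := by
    rintro ω ⟨h1, h2⟩
    refine ⟨h1, ?_⟩
    have h3 := cluster_kill h1 hy
    have h4 : kill G K (off ω e) = kill G K ω := by
      funext f
      unfold kill
      by_cases hf : f ∈ touch G K
      · simp [hf]
      · simp only [hf, if_false]
        exact off_ne (fun h => hf (h ▸ het))
    rw [h4] at h3
    exact h2.mono h3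
  have hcov := cov_bound p F (B.indicator 1) (A.indicator 1)
    (measurable_one.indicator hBm) (measurable_one.indicator hAm) ?_ ?_
  · have h1 : ∫⁻ ω, (B.indicator (1 : (Sym2 V → Bool) → ℝ≥0∞)) ω * (A.indicator 1) ω ∂(prodBern (Sym2 V) p)
        = perc V p (A ∩ B) := by
      rw [← lintegral_indicator_one (hAm.inter hBm)]
      apply lintegral_congr
      intro ω
      simp only [Set.indicator_apply, Set.mem_inter_iff, Pi.one_apply]
      by_cases ha : ω ∈ A <;> by_cases hb : ω ∈ B <;> simp [ha, hb]
    have h2 : ∑ f ∈ F, ∫⁻ ω, infl f (B.indicator (1 : (Sym2 V → Bool) → ℝ≥0∞)) ω ∂(prodBern (Sym2 V) p) = 0 := by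
      apply Finset.sum_eq_zero
      intro f hf
      have hft : f ∈ touch G K := by simpa [hF] using hf
      have : ∀ ω, infl f (B.indicator (1 : (Sym2 V → Bool) → ℝ≥0∞)) ω = 0 := by
        intro ω
        have hk : ∀ b, kill G K (Function.update ω f b) = kill G K ω := by
          intro b
          funext g
          unfold kill
          by_cases hg : g ∈ touch G K
          · simp [hg]
          · simp only [hg, if_false]
            exact Function.update_of_ne (fun h => hg (by rw [h]; exact hft)) _ _
        have hmem : ∀ b, Function.update ω f b ∈ B ↔ ω ∈ B := by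
          intro b
          simp only [hB, Set.mem_ofPred_eq, hk]
        unfold infl
        simp only [Set.indicator_apply, hmem]
        simp
      simp [this]
    rw [h1, h2, add_zero, lintegral_indicator_one hBm, lintegral_indicator_one hAm] at hcov
    calc _ ≤ perc V p (A ∩ B) := measure_mono hsub
      _ ≤ _ := hcov
      _ = perc V p A * perc V p B := mul_comm _ _
      _ ≤ _ := by
        gcongr
        intro ω hω
        exact Big.mono (show Big G M (kill G K ω) y from hω) (cluster_mono kill_le)
  · intro ω ω' hω
    have hag : ∀ f ∈ touch G K, off ω e f = off ω' e f := by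
      intro f hf
      by_cases hfe : f = e
      · subst hfe; rw [off_self, off_self]
      · rw [off_ne hfe, off_ne hfe]
        exact hω f (by simpa [hF] using hf)
    have : ω ∈ A ↔ ω' ∈ A := by
      constructor
      · intro h
        have h' : cluster G (off ω e) x = K := h
        show cluster G (off ω' e) x = K
        rw [cluster_congr (ω := off ω e), h']
        rw [h']; exact hag
      · intro h
        have h' : cluster G (off ω' e) x = K := h
        show cluster G (off ω e) x = K
        rw [cluster_congr (ω := off ω' e), h']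
        rw [h']; exact fun f hf => (hag f hf).symm
    simp only [Set.indicator_apply, this, Pi.one_apply]
  · intro ω
    simp only [Set.indicator_apply, Pi.one_apply]
    split_ifs <;> simp

lemma setLIntegral_cl (E : Set (Sym2 V → Bool)) (g : Finset V → ℝ≥0∞)
    {X : (Sym2 V → Bool) → Finset V} (hX : Measurable X) :
    ∫⁻ ω in E, g (X ω) ∂(perc V p) = ∑' K, g K * perc V p ({ω | X ω = K} ∩ E) := by
  have hg : Measurable g := fun _ _ => trivial
  rw [← lintegral_map hg hX, lintegral_countable']
  congr 1
  funext K
  rw [Measure.map_apply hX (measurableSet_singleton K),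
    Measure.restrict_apply (hX (measurableSet_singleton K))]
  rfl

lemma lintegral_cl (g : Finset V → ℝ≥0∞) {X : (Sym2 V → Bool) → Finset V} (hX : Measurable X) :
    ∫⁻ ω, g (X ω) ∂(perc V p) = ∑' K, g K * perc V p {ω | X ω = K} := by
  have := setLIntegral_cl p Set.univ g hX
  simpa using this

lemma explore_lintegral (hfin : ∀ x, (G.neighborSet x).Finite) (M : ℕ) (hxy : G.Adj x y)
    (g : Finset V → ℝ≥0∞) (hg : g ∅ = 0) :
    ∫⁻ ω in {ω | y ∉ cluster G (off ω s(x, y)) x ∧ Big G M (off ω s(x, y)) y},
        g (cl G (off ω s(x, y)) x) ∂(perc V p)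
      ≤ (∫⁻ ω, g (cl G (off ω s(x, y)) x) ∂(perc V p)) * perc V p {ω | Big G M ω y} := by
  set e : Sym2 V := s(x, y) with he
  have hX : Measurable (fun ω : Sym2 V → Bool => cl G (off ω e) x) :=
    (measurable_cl x).comp (measurable_off e)
  have hE : MeasurableSet {ω : Sym2 V → Bool | y ∉ cluster G (off ω e) x ∧ Big G M (off ω e) y} :=
    ((measurable_off e) (measurableSet_mem_cluster x y)).compl.inter
      ((measurable_off e) (measurableSet_big M y))
  rw [setLIntegral_cl p _ g hX, lintegral_cl p g hX, ← ENNReal.tsum_mul_right]
  apply ENNReal.tsum_le_tsum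
  intro K
  rcases K.eq_empty_or_nonempty with rfl | hK
  · simp [hg]
  have hset : {ω : Sym2 V → Bool | cl G (off ω e) x = K} = {ω | cluster G (off ω e) x = K} := by
    ext ω
    exact cl_eq_iff hK
  rw [hset, mul_assoc]
  gcongr
  by_cases hx : x ∈ K
  · by_cases hy : y ∈ K
    · have : ({ω : Sym2 V → Bool | cluster G (off ω e) x = K}
          ∩ {ω | y ∉ cluster G (off ω e) x ∧ Big G M (off ω e) y}) = ∅ := by
        ext ω
        simp only [Set.mem_inter_iff, Set.mem_ofPred_eq, Set.mem_empty_iff_false, iff_false,
          not_and]
        intro h1 h2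
        rw [h1] at h2
        exact absurd hy h2
      rw [this]; simp
    · refine le_trans (measure_mono ?_) (explore p hfin M hxy K.finite_toSet hx hy)
      rintro ω ⟨h1, h2, h3⟩
      exact ⟨h1, h3⟩
  · have : ({ω : Sym2 V → Bool | cluster G (off ω e) x = K}
          ∩ {ω | y ∉ cluster G (off ω e) x ∧ Big G M (off ω e) y}) = ∅ := by
      ext ω
      simp only [Set.mem_inter_iff, Set.mem_ofPred_eq, Set.mem_empty_iff_false, iff_false,
        not_and]
      intro h1
      exfalso
      apply hx
      have : x ∈ cluster G (off ω e) x := self_mem_cluster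
      rw [h1] at this
      exact this
    rw [this]; simp

end Pool.Agent.H17.IIC
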