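import Mathlib
import Pool.Agent.H17.IIC.Explore

/-! Translation invariance and the mass transport principle. -/

open MeasureTheory Set Filter Topology
open scoped ENNReal Classical Pointwise

set_option linter.unusedSectionVars false

namespace Pool.Agent.H17.IIC

variable {Γ : Type*} [Group Γ]

/-- translate a bond configuration: the edge `e` is open in `shift γ ω` iff `γ e` is open in `ω` -/
def shift (γ : Γ) (ω : Sym2 Γ → Bool) : Sym2 Γ → Bool := fun e => ω (e.map (fun v => γ * v))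

lemma shift_mk (γ : Γ) (ω : Sym2 Γ → Bool) (x y : Γ) : shift γ ω s(x, y) = ω s(γ * x, γ * y) := by
  simp [shift]

lemma measurable_shift (γ : Γ) : Measurable (shift γ) := by
  rw [measurable_pi_iff]
  intro e
  exact measurable_pi_apply _

lemma sym2_map_injective (γ : Γ) : Function.Injective (Sym2.map (fun v : Γ => γ * v)) :=
  Sym2.map.injective (mul_right_injective γ)

lemma map_shift (p : unitInterval) (γ : Γ) : (perc Γ p).map (shift γ) = perc Γ p := by
  conv_rhs => rw [perc, prodBern]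
  apply Measure.eq_infinitePi
  intro s t ht
  rw [Measure.map_apply (measurable_shift γ) (MeasurableSet.pi s.countable_toSet (fun i _ => ht i))]
  have : (shift γ) ⁻¹' (Set.pi s t)
      = Set.pi (s.image (Sym2.map (fun v : Γ => γ * v)))
          (fun e => t (e.map (fun v : Γ => γ⁻¹ * v))) := by
    have hid : ∀ e : Sym2 Γ, Sym2.map (fun v : Γ => γ⁻¹ * v) (Sym2.map (fun v : Γ => γ * v) e) = e := by
      intro e
      induction e using Sym2.inductionOn with
      | hf x y => simp
    ext ω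
    constructor
    · intro h e he
      rw [Finset.mem_coe, Finset.mem_image] at he
      obtain ⟨f, hf, rfl⟩ := he
      beta_reduce
      rw [hid]
      exact h f hf
    · intro h f hf
      have := h (Sym2.map (fun v : Γ => γ * v) f) (Finset.mem_coe.2 (Finset.mem_image_of_mem _ hf))
      beta_reduce at this
      rw [hid] at this
      exact this
  rw [this, perc, prodBern, Measure.infinitePi_pi (μ := fun _ : Sym2 Γ => bern p) (fun i _ => ht _),
    Finset.prod_image (fun a _ b _ h => sym2_map_injective γ h)]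
  apply Finset.prod_congr rfl
  intro e _
  congr 2
  induction e using Sym2.inductionOn with
  | hf x y => simp

lemma lintegral_shift (p : unitInterval) (γ : Γ) {f : (Sym2 Γ → Bool) → ℝ≥0∞} (hf : Measurable f) :
    ∫⁻ ω, f (shift γ ω) ∂(perc Γ p) = ∫⁻ ω, f ω ∂(perc Γ p) := by
  conv_rhs => rw [← map_shift p γ]
  rw [lintegral_map hf (measurable_shift γ)]

/-- mass transport principle -/
lemma mass_transport (p : unitInterval) (f : (Sym2 Γ → Bool) → Γ → Γ → ℝ≥0∞)
    (hm : ∀ z y, Measurable (fun ω => f ω z y))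
    (hf : ∀ γ ω z y, f ω (γ * z) (γ * y) = f (shift γ ω) z y) (y : Γ) :
    ∑' z, ∫⁻ ω, f ω z y ∂(perc Γ p) = ∑' u, ∫⁻ ω, f ω 1 u ∂(perc Γ p) := by
  have h1 : ∀ z, ∫⁻ ω, f ω z y ∂(perc Γ p) = ∫⁻ ω, f ω 1 (z⁻¹ * y) ∂(perc Γ p) := by
    intro z
    rw [← lintegral_shift p z (hm 1 (z⁻¹ * y))]
    apply lintegral_congr
    intro ω
    have := hf z ω 1 (z⁻¹ * y)
    rw [mul_one, mul_inv_cancel_left] at this
    rw [this]
  simp only [h1]
  exact ((Equiv.inv Γ).trans (Equiv.mulRight y)).tsum_eq (fun u => ∫⁻ ω, f ω 1 u ∂(perc Γ p))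

variable {G : SimpleGraph Γ}

lemma cluster_shift (hinv : ∀ γ x y, G.Adj (γ * x) (γ * y) ↔ G.Adj x y) (γ : Γ)
    (ω : Sym2 Γ → Bool) (x y : Γ) :
    y ∈ cluster G (shift γ ω) x ↔ γ * y ∈ cluster G ω (γ * x) := by
  constructor
  · intro hy
    refine cluster_induction (P := fun y => γ * y ∈ cluster G ω (γ * x)) self_mem_cluster ?_ y hy
    intro a _ ha b hab ho
    rw [shift_mk] at ho
    exact cluster_step ha ((hinv γ a b).2 hab) ho
  · intro hy
    have := cluster_induction (G := G) (ω := ω) (x := γ * x)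
      (P := fun z => γ⁻¹ * z ∈ cluster G (shift γ ω) x) ?_ ?_ _ hy
    · simpa using this
    · simp only [inv_mul_cancel_left]; exact self_mem_cluster
    · intro a _ ha b hab ho
      refine cluster_step ha ?_ ?_
      · rw [← hinv γ]; simpa using hab
      · rw [shift_mk]; simpa using ho

lemma cluster_shift_eq (hinv : ∀ γ x y, G.Adj (γ * x) (γ * y) ↔ G.Adj x y) (γ : Γ)
    (ω : Sym2 Γ → Bool) (x : Γ) :
    cluster G ω (γ * x) = (fun v => γ * v) '' cluster G (shift γ ω) x := by
  ext z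
  rw [Set.mem_image]
  constructor
  · intro hz
    exact ⟨γ⁻¹ * z, (cluster_shift hinv γ ω x _).2 (by simpa using hz), by simp⟩
  · rintro ⟨y, hy, rfl⟩
    exact (cluster_shift hinv γ ω x y).1 hy

lemma finite_shift (hinv : ∀ γ x y, G.Adj (γ * x) (γ * y) ↔ G.Adj x y) (γ : Γ)
    (ω : Sym2 Γ → Bool) (x : Γ) :
    (cluster G ω (γ * x)).Finite ↔ (cluster G (shift γ ω) x).Finite := by
  rw [cluster_shift_eq hinv, Set.finite_image_iff (mul_right_injective γ).injOn]

lemma cl_shift (hinv : ∀ γ x y, G.Adj (γ * x) (γ * y) ↔ G.Adj x y) (γ : Γ)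
    (ω : Sym2 Γ → Bool) (x : Γ) :
    cl G ω (γ * x) = (cl G (shift γ ω) x).image (fun v => γ * v) := by
  by_cases h : (cluster G (shift γ ω) x).Finite
  · apply Finset.coe_injective
    rw [cl_eq_of_finite ((finite_shift hinv γ ω x).2 h), Finset.coe_image, cl_eq_of_finite h,
      cluster_shift_eq hinv]
  · rw [cl_eq_empty h, cl_eq_empty (fun h' => h ((finite_shift hinv γ ω x).1 h'))]
    simp

lemma big_shift (hinv : ∀ γ x y, G.Adj (γ * x) (γ * y) ↔ G.Adj x y) (M : ℕ) (γ : Γ)
    (ω : Sym2 Γ → Bool) (x : Γ) : Big G M ω (γ * x) ↔ Big G M (shift γ ω) x := by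
  unfold Big
  rw [cluster_shift_eq hinv, (mul_right_injective γ).injOn.encard_image]

lemma dist_shift (hinv : ∀ γ x y, G.Adj (γ * x) (γ * y) ↔ G.Adj x y) (hconn : G.Connected)
    (γ x y : Γ) : G.dist (γ * x) (γ * y) = G.dist x y := by
  have key : ∀ (γ x y : Γ), G.dist (γ * x) (γ * y) ≤ G.dist x y := by
    intro γ x y
    obtain ⟨w, hw⟩ := hconn.exists_walk_length_eq_dist x y
    let φ : G →g G := ⟨fun v => γ * v, fun {a b} h => (hinv γ a b).2 h⟩
    have := SimpleGraph.dist_le (w.map φ)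
    rw [SimpleGraph.Walk.length_map, hw] at this
    exact this
  apply le_antisymm (key γ x y)
  have := key γ⁻¹ (γ * x) (γ * y)
  simpa using this

/-! ### the functional `h_n` -/

/-- the vertex `z` of `K` sees another vertex of `K` at distance exactly `n` -/
def far (G : SimpleGraph Γ) (n : ℕ) (K : Finset Γ) (z : Γ) : Prop := ∃ z' ∈ K, G.dist z z' = n

/-- the number of vertices `z` of `K` from which `K` reaches the sphere of radius `n` about `z` -/
noncomputable def nfar (G : SimpleGraph Γ) (n : ℕ) (K : Finset Γ) : ℕ := (K.filter (far G n K)).card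

/-- the proportion of vertices `z` of `K` from which `K` reaches the sphere of radius `n` -/
noncomputable def hfun (G : SimpleGraph Γ) (n : ℕ) (K : Finset Γ) : ℝ≥0∞ :=
  (nfar G n K : ℝ≥0∞) / (K.card : ℝ≥0∞)

lemma hfun_empty (n : ℕ) : hfun G n ∅ = 0 := by simp [hfun, nfar]

lemma nfar_le_card (n : ℕ) (K : Finset Γ) : nfar G n K ≤ K.card := Finset.card_filter_le _ _

lemma hfun_le_one (n : ℕ) (K : Finset Γ) : hfun G n K ≤ 1 := by
  unfold hfun
  apply ENNReal.div_le_of_le_mul
  rw [one_mul]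
  exact_mod_cast nfar_le_card n K

lemma nfar_mono {n : ℕ} {K J : Finset Γ} (h : K ⊆ J) : nfar G n K ≤ nfar G n J := by
  apply Finset.card_le_card
  intro z hz
  rw [Finset.mem_filter] at hz ⊢
  obtain ⟨z', hz', hd⟩ := hz.2
  exact ⟨h hz.1, z', h hz', hd⟩

lemma far_image (hinv : ∀ γ x y, G.Adj (γ * x) (γ * y) ↔ G.Adj x y) (hconn : G.Connected)
    (n : ℕ) (K : Finset Γ) (γ z : Γ) :
    far G n (K.image (fun v => γ * v)) (γ * z) ↔ far G n K z := by
  unfold far
  constructor
  · rintro ⟨z', hz', hd⟩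
    rw [Finset.mem_image] at hz'
    obtain ⟨w, hw, rfl⟩ := hz'
    rw [dist_shift hinv hconn] at hd
    exact ⟨w, hw, hd⟩
  · rintro ⟨w, hw, hd⟩
    exact ⟨γ * w, Finset.mem_image_of_mem _ hw, by rw [dist_shift hinv hconn, hd]⟩

lemma hfun_image (hinv : ∀ γ x y, G.Adj (γ * x) (γ * y) ↔ G.Adj x y) (hconn : G.Connected)
    (n : ℕ) (K : Finset Γ) (γ : Γ) :
    hfun G n (K.image (fun v => γ * v)) = hfun G n K := by
  unfold hfun nfar
  have hinj : Function.Injective (fun v : Γ => γ * v) := mul_right_injective γ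
  rw [Finset.card_image_of_injective _ hinj]
  congr 2
  rw [Finset.filter_image, Finset.card_image_of_injective _ hinj]
  congr 1
  apply Finset.filter_congr
  intro z _
  exact far_image hinv hconn n K γ z

/-- if the finite open cluster `K` has a vertex seeing distance `n` then `n < |K|` -/
lemma lt_card_of_far {n : ℕ} {ω : Sym2 Γ → Bool} {x z : Γ} (hz : z ∈ cl G ω x)
    (h : far G n (cl G ω x) z) : n < (cl G ω x).card := by
  obtain ⟨z', hz', hd⟩ := h
  rw [mem_cl_iff] at hz hz'
  rw [← hd]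
  exact dist_lt_card hz.1 hz.2 hz'.2

/-- the mass sent in the basic mass transport -/
noncomputable def send (G : SimpleGraph Γ) (n : ℕ) (ω : Sym2 Γ → Bool) (z y : Γ) : ℝ≥0∞ :=
  if y ∈ cl G ω z ∧ far G n (cl G ω z) z then ((cl G ω z).card : ℝ≥0∞)⁻¹ else 0

variable [Countable Γ] (p : unitInterval)

omit [Countable Γ] in
lemma cl_eq_cl {ω : Sym2 Γ → Bool} {x y : Γ} (h : y ∈ cl G ω x) : cl G ω y = cl G ω x :=
  cl_congr (cluster_eq_of_mem (mem_cl_iff.1 h).2)

omit [Countable Γ] in
lemma mem_cl_comm {ω : Sym2 Γ → Bool} {x y : Γ} : y ∈ cl G ω x ↔ x ∈ cl G ω y := by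
  constructor
  · intro h
    rw [cl_eq_cl h, mem_cl_iff]
    exact ⟨(mem_cl_iff.1 h).1, self_mem_cluster⟩
  · intro h
    rw [cl_eq_cl h, mem_cl_iff]
    exact ⟨(mem_cl_iff.1 h).1, self_mem_cluster⟩

omit [Countable Γ] in
lemma sum_send (n : ℕ) (ω : Sym2 Γ → Bool) (y : Γ) :
    ∑' z, send G n ω z y = hfun G n (cl G ω y) := by
  have h1 : ∀ z, z ∉ (cl G ω y).filter (far G n (cl G ω y)) → send G n ω z y = 0 := by
    intro z hz
    unfold send
    rw [if_neg]
    rintro ⟨h1, h2⟩
    apply hz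
    rw [Finset.mem_filter]
    have h3 := mem_cl_comm.1 h1
    rw [cl_eq_cl h3] at h2
    exact ⟨h3, h2⟩
  rw [tsum_eq_sum (s := (cl G ω y).filter (far G n (cl G ω y))) (fun z hz => h1 z hz)]
  have h2 : ∀ z ∈ (cl G ω y).filter (far G n (cl G ω y)),
      send G n ω z y = ((cl G ω y).card : ℝ≥0∞)⁻¹ := by
    intro z hz
    rw [Finset.mem_filter] at hz
    unfold send
    have := mem_cl_comm.1 hz.1
    rw [cl_eq_cl hz.1] at this
    rw [cl_eq_cl hz.1, if_pos ⟨this, hz.2⟩]
  rw [Finset.sum_congr rfl h2, Finset.sum_const, nsmul_eq_mul, hfun, nfar, div_eq_mul_inv]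

lemma measurable_of_cl {ι : Type*} [Fintype ι] (x : ι → Γ) (g : (ι → Finset Γ) → ℝ≥0∞) :
    Measurable (fun ω : Sym2 Γ → Bool => g (fun i => cl G ω (x i))) := by
  have h1 : Measurable (fun ω : Sym2 Γ → Bool => (fun i => cl G ω (x i))) := by
    rw [measurable_pi_iff]
    intro i
    exact measurable_cl (x i)
  have h2 : Measurable g := measurable_of_countable g
  exact h2.comp h1

lemma measurable_cl_fun (x : Γ) (g : Finset Γ → ℝ≥0∞) :
    Measurable (fun ω : Sym2 Γ → Bool => g (cl G ω x)) :=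
  (measurable_of_countable g).comp (measurable_cl x)

lemma measurable_send (n : ℕ) (z y : Γ) : Measurable (fun ω => send G n ω z y) :=
  measurable_cl_fun z (fun K => if y ∈ K ∧ far G n K z then (K.card : ℝ≥0∞)⁻¹ else 0)

omit [Countable Γ] in
lemma send_shift (hinv : ∀ γ x y, G.Adj (γ * x) (γ * y) ↔ G.Adj x y) (hconn : G.Connected)
    (n : ℕ) (γ : Γ) (ω : Sym2 Γ → Bool) (z y : Γ) :
    send G n ω (γ * z) (γ * y) = send G n (shift γ ω) z y := by
  unfold send
  rw [cl_shift hinv]
  have hinj : Function.Injective (fun v : Γ => γ * v) := mul_right_injective γ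
  rw [Finset.card_image_of_injective _ hinj]
  have h1 : (γ * y ∈ (cl G (shift γ ω) z).image (fun v => γ * v)) ↔ y ∈ cl G (shift γ ω) z := by
    rw [Finset.mem_image]
    constructor
    · rintro ⟨a, ha, hh⟩
      have := hinj hh
      rwa [← this]
    · intro h
      exact ⟨y, h, rfl⟩
  rw [far_image hinv hconn]
  simp only [h1]

lemma measurableSet_far (n : ℕ) (x : Γ) :
    MeasurableSet {ω : Sym2 Γ → Bool | far G n (cl G ω x) x} := by
  have h : MeasurableSet {K : Finset Γ | far G n K x} := trivial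
  exact (measurable_cl (G := G) x) h

/-- the expected value of `h_n` of the cluster of a vertex -/
theorem mean_h (hinv : ∀ γ x y, G.Adj (γ * x) (γ * y) ↔ G.Adj x y) (hconn : G.Connected)
    (n : ℕ) (y : Γ) :
    ∫⁻ ω, hfun G n (cl G ω y) ∂(perc Γ p) = perc Γ p {ω | far G n (cl G ω 1) 1} := by
  have h1 : ∫⁻ ω, hfun G n (cl G ω y) ∂(perc Γ p)
      = ∑' z, ∫⁻ ω, send G n ω z y ∂(perc Γ p) := by
    rw [← lintegral_tsum (fun z => (measurable_send n z y).aemeasurable)]
    apply lintegral_congr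
    intro ω
    rw [sum_send]
  rw [h1, mass_transport p (send G n) (measurable_send n) (send_shift hinv hconn n) y,
    ← lintegral_tsum (fun z => (measurable_send n 1 z).aemeasurable)]
  have hmeas : MeasurableSet {ω : Sym2 Γ → Bool | far G n (cl G ω 1) 1} :=
    measurableSet_far n 1
  rw [← lintegral_indicator_one hmeas]
  apply lintegral_congr
  intro ω
  by_cases hfar : far G n (cl G ω 1) 1
  · rw [Set.indicator_of_mem (show ω ∈ {ω : Sym2 Γ → Bool | far G n (cl G ω 1) 1} from hfar)]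
    have hne : (cl G ω 1).card ≠ 0 := by
      obtain ⟨z', hz', _⟩ := hfar
      exact Finset.card_ne_zero.2 ⟨z', hz'⟩
    rw [tsum_eq_sum (s := cl G ω 1) (fun u hu => by simp [send, hu])]
    have : ∀ u ∈ cl G ω 1, send G n ω 1 u = ((cl G ω 1).card : ℝ≥0∞)⁻¹ := by
      intro u hu
      unfold send
      rw [if_pos ⟨hu, hfar⟩]
    rw [Finset.sum_congr rfl this, Finset.sum_const, nsmul_eq_mul, Pi.one_apply]
    exact ENNReal.mul_inv_cancel (by exact_mod_cast hne) (ENNReal.natCast_ne_top _)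
  · rw [Set.indicator_of_notMem (show ω ∉ {ω : Sym2 Γ → Bool | far G n (cl G ω 1) 1} from hfar)]
    simp [send, hfar]

end Pool.Agent.H17.IIC
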