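import Mathlib
import Pool.Agent.H17.IIC.Shift

/-! The effect on `h_n` of attaching a small bush. -/

open MeasureTheory Set Filter Topology
open scoped ENNReal Classical Pointwise

set_option linter.unusedSectionVars false

namespace Pool.Agent.H17.IIC

section ball
variable {V : Type*} {G : SimpleGraph V}

lemma ball_finite (hconn : G.Connected) (hfin : ∀ x, (G.neighborSet x).Finite) (x : V) (r : ℕ) :
    {y | G.dist x y ≤ r}.Finite := by
  induction r with
  | zero =>
    have : {y | G.dist x y ≤ 0} ⊆ {x} := by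
      intro y hy
      have h0 : G.dist x y = 0 := Nat.le_zero.1 hy
      rw [(hconn.dist_eq_zero_iff).1 h0]
      rfl
    exact (Set.finite_singleton x).subset this
  | succ r ih =>
    have : {y | G.dist x y ≤ r + 1} ⊆ {y | G.dist x y ≤ r} ∪ ⋃ z ∈ {y | G.dist x y ≤ r}, G.neighborSet z := by
      intro y hy
      by_cases h : G.dist x y ≤ r
      · exact Or.inl h
      · right
        have h1 : G.dist x y = r + 1 := le_antisymm hy (by push Not at h; omega)
        obtain ⟨w, hw⟩ := hconn.exists_walk_length_eq_dist y x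
        rw [SimpleGraph.dist_comm, h1] at hw
        cases w with
        | nil => simp at hw
        | @cons _ z _ hadj w' =>
          rw [SimpleGraph.Walk.length_cons] at hw
          have h2 : G.dist z x ≤ r := le_trans (SimpleGraph.dist_le w') (by omega)
          simp only [Set.mem_iUnion]
          exact ⟨z, by show G.dist x z ≤ r; rw [SimpleGraph.dist_comm]; exact h2, hadj.symm⟩
    refine (ih.union (ih.biUnion (fun z _ => hfin z))).subset this

end ball

variable {Γ : Type*} [Group Γ] {G : SimpleGraph Γ}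

/-- the number of vertices in a ball of radius `M` -/
noncomputable def bsize (G : SimpleGraph Γ) (M : ℕ) : ℕ := {y | G.dist 1 y ≤ M}.ncard

lemma ball_card (hinv : ∀ γ x y, G.Adj (γ * x) (γ * y) ↔ G.Adj x y) (hconn : G.Connected)
    (M : ℕ) (x : Γ) (K : Finset Γ) (hfin : ∀ x, (G.neighborSet x).Finite) :
    (K.filter (fun u => G.dist x u ≤ M)).card ≤ bsize G M := by
  unfold bsize
  have h1 : ((K.filter (fun u => G.dist x u ≤ M)).image (fun v => x⁻¹ * v) : Finset Γ).card
      = (K.filter (fun u => G.dist x u ≤ M)).card :=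
    Finset.card_image_of_injective _ (mul_right_injective x⁻¹)
  rw [← h1, ← Set.ncard_coe_finset]
  apply Set.ncard_le_ncard _ (ball_finite hconn hfin 1 M)
  intro v hv
  rw [Finset.mem_coe, Finset.mem_image] at hv
  obtain ⟨u, hu, rfl⟩ := hv
  rw [Finset.mem_filter] at hu
  show G.dist 1 (x⁻¹ * u) ≤ M
  have := dist_shift hinv hconn x 1 (x⁻¹ * u)
  rw [mul_one, mul_inv_cancel_left] at this
  rw [← this]
  exact hu.2

/-- bookkeeping predicate for the transport of small bushes -/
def okp (G : SimpleGraph Γ) (n M : ℕ) (K : Finset Γ) (z y : Γ) : Prop :=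
  G.dist z y ≤ M ∨ ((K.filter (fun z' => G.dist z z' = n)).card ≤ M ∧
    ∃ z' ∈ K, G.dist z z' = n ∧ G.dist z' y ≤ M)

/-- the mass sent from `z` to `y` -/
noncomputable def send2 (G : SimpleGraph Γ) (n M : ℕ) (ω : Sym2 Γ → Bool) (z y : Γ) : ℝ≥0∞ :=
  if y ∈ cl G ω z ∧ far G n (cl G ω z) z ∧ okp G n M (cl G ω z) z y
    then ((cl G ω z).card : ℝ≥0∞)⁻¹ else 0

lemma okp_image (hinv : ∀ γ x y, G.Adj (γ * x) (γ * y) ↔ G.Adj x y) (hconn : G.Connected)
    (n M : ℕ) (K : Finset Γ) (γ z y : Γ) :
    okp G n M (K.image (fun v => γ * v)) (γ * z) (γ * y) ↔ okp G n M K z y := by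
  have hinj : Function.Injective (fun v : Γ => γ * v) := mul_right_injective γ
  unfold okp
  have h1 : ((K.image (fun v => γ * v)).filter (fun z' => G.dist (γ * z) z' = n)).card
      = (K.filter (fun z' => G.dist z z' = n)).card := by
    rw [Finset.filter_image, Finset.card_image_of_injective _ hinj]
    congr 1
    apply Finset.filter_congr
    intro v _
    rw [dist_shift hinv hconn]
  rw [h1, dist_shift hinv hconn]
  have h2 : (∃ z' ∈ K.image (fun v => γ * v), G.dist (γ * z) z' = n ∧ G.dist z' (γ * y) ≤ M)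
      ↔ (∃ z' ∈ K, G.dist z z' = n ∧ G.dist z' y ≤ M) := by
    constructor
    · rintro ⟨z', hz', hd, hd'⟩
      rw [Finset.mem_image] at hz'
      obtain ⟨w, hw, rfl⟩ := hz'
      rw [dist_shift hinv hconn] at hd hd'
      exact ⟨w, hw, hd, hd'⟩
    · rintro ⟨w, hw, hd, hd'⟩
      exact ⟨γ * w, Finset.mem_image_of_mem _ hw, by rw [dist_shift hinv hconn, hd],
        by rw [dist_shift hinv hconn]; exact hd'⟩
  rw [h2]

lemma send2_shift (hinv : ∀ γ x y, G.Adj (γ * x) (γ * y) ↔ G.Adj x y) (hconn : G.Connected)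
    (n M : ℕ) (γ : Γ) (ω : Sym2 Γ → Bool) (z y : Γ) :
    send2 G n M ω (γ * z) (γ * y) = send2 G n M (shift γ ω) z y := by
  unfold send2
  rw [cl_shift hinv]
  have hinj : Function.Injective (fun v : Γ => γ * v) := mul_right_injective γ
  rw [Finset.card_image_of_injective _ hinj]
  have h1 : (γ * y ∈ (cl G (shift γ ω) z).image (fun v => γ * v)) ↔ y ∈ cl G (shift γ ω) z := by
    rw [Finset.mem_image]
    constructor
    · rintro ⟨a, ha, hh⟩
      have := hinj hh
      rwa [← this]
    · intro h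
      exact ⟨y, h, rfl⟩
  rw [far_image hinv hconn, okp_image hinv hconn]
  simp only [h1]

variable [Countable Γ] (p : unitInterval)

lemma measurable_send2 (n M : ℕ) (z y : Γ) : Measurable (fun ω => send2 G n M ω z y) :=
  measurable_cl_fun z (fun K => if y ∈ K ∧ far G n K z ∧ okp G n M K z y
    then (K.card : ℝ≥0∞)⁻¹ else 0)

lemma sum_send2_out (hinv : ∀ γ x y, G.Adj (γ * x) (γ * y) ↔ G.Adj x y) (hconn : G.Connected)
    (hfin : ∀ x, (G.neighborSet x).Finite) (n M : ℕ) (ω : Sym2 Γ → Bool) :
    ∑' u, send2 G n M ω 1 u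
      ≤ {ω | far G n (cl G ω 1) 1}.indicator (fun _ => (((1 + M) * bsize G M : ℕ) : ℝ≥0∞) / n) ω := by
  by_cases hfar : far G n (cl G ω 1) 1
  · rw [Set.indicator_of_mem (show ω ∈ {ω : Sym2 Γ → Bool | far G n (cl G ω 1) 1} from hfar)]
    set K := cl G ω 1 with hK
    have hKn : n < K.card := by
      have h1 : (1 : Γ) ∈ cl G ω 1 := by
        obtain ⟨z', hz', _⟩ := hfar
        rw [hK, mem_cl_iff] at hz'
        rw [mem_cl_iff]
        exact ⟨hz'.1, self_mem_cluster⟩
      exact lt_card_of_far h1 hfar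
    rw [tsum_eq_sum (s := K.filter (fun u => okp G n M K 1 u)) ?_]
    · have h2 : ∀ u ∈ K.filter (fun u => okp G n M K 1 u), send2 G n M ω 1 u ≤ (n : ℝ≥0∞)⁻¹ := by
        intro u hu
        unfold send2
        split_ifs
        · rw [ENNReal.inv_le_inv]
          exact_mod_cast hKn.le
        · exact bot_le
      have h3 : (K.filter (fun u => okp G n M K 1 u)).card ≤ (1 + M) * bsize G M := by
        have hsub : K.filter (fun u => okp G n M K 1 u)
            ⊆ K.filter (fun u => G.dist 1 u ≤ M) ∪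
              (if (K.filter (fun z' => G.dist 1 z' = n)).card ≤ M then
                (K.filter (fun z' => G.dist 1 z' = n)).biUnion
                  (fun z' => K.filter (fun u => G.dist z' u ≤ M)) else ∅) := by
          intro u hu
          rw [Finset.mem_filter] at hu
          rw [Finset.mem_union]
          rcases hu.2 with h | ⟨hc, z', hz', hd, hd'⟩
          · left; rw [Finset.mem_filter]; exact ⟨hu.1, h⟩
          · right
            rw [if_pos hc, Finset.mem_biUnion]
            exact ⟨z', Finset.mem_filter.2 ⟨hz', hd⟩, Finset.mem_filter.2 ⟨hu.1, hd'⟩⟩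
        refine le_trans (Finset.card_le_card hsub) (le_trans (Finset.card_union_le _ _) ?_)
        have e1 := ball_card hinv hconn M 1 K hfin
        have e2 : (if (K.filter (fun z' => G.dist 1 z' = n)).card ≤ M then
                (K.filter (fun z' => G.dist 1 z' = n)).biUnion
                  (fun z' => K.filter (fun u => G.dist z' u ≤ M)) else ∅ : Finset Γ).card
              ≤ M * bsize G M := by
          split_ifs with hc
          · refine le_trans (Finset.card_biUnion_le_card_mul _ _ (bsize G M)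
              (fun z' _ => ball_card hinv hconn M z' K hfin)) ?_
            exact Nat.mul_le_mul_right _ hc
          · simp
        calc _ ≤ bsize G M + M * bsize G M := add_le_add e1 e2
          _ = _ := by ring
      calc ∑ u ∈ K.filter (fun u => okp G n M K 1 u), send2 G n M ω 1 u
          ≤ ∑ u ∈ K.filter (fun u => okp G n M K 1 u), (n : ℝ≥0∞)⁻¹ := Finset.sum_le_sum h2
        _ = ((K.filter (fun u => okp G n M K 1 u)).card : ℝ≥0∞) * (n : ℝ≥0∞)⁻¹ := by
            rw [Finset.sum_const, nsmul_eq_mul]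
        _ ≤ (((1 + M) * bsize G M : ℕ) : ℝ≥0∞) * (n : ℝ≥0∞)⁻¹ := by
            gcongr
        _ = _ := by rw [div_eq_mul_inv]
    · intro u hu
      unfold send2
      rw [if_neg]
      rintro ⟨a1, _, a3⟩
      exact hu (Finset.mem_filter.2 ⟨a1, a3⟩)
  · rw [Set.indicator_of_notMem (show ω ∉ {ω : Sym2 Γ → Bool | far G n (cl G ω 1) 1} from hfar)]
    simp [send2, hfar]

/-- the total expected mass received at `y` -/
theorem mean_send2 (hinv : ∀ γ x y, G.Adj (γ * x) (γ * y) ↔ G.Adj x y) (hconn : G.Connected)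
    (hfin : ∀ x, (G.neighborSet x).Finite) (n M : ℕ) (y : Γ) :
    ∫⁻ ω, (∑' z, send2 G n M ω z y) ∂(perc Γ p)
      ≤ (((1 + M) * bsize G M : ℕ) : ℝ≥0∞) / n * perc Γ p {ω | far G n (cl G ω 1) 1} := by
  rw [lintegral_tsum (fun z => (measurable_send2 n M z y).aemeasurable),
    mass_transport p (send2 G n M) (measurable_send2 n M) (send2_shift hinv hconn n M) y,
    ← lintegral_tsum (fun z => (measurable_send2 n M 1 z).aemeasurable)]
  refine le_trans (lintegral_mono (fun ω => sum_send2_out hinv hconn hfin n M ω)) ?_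
  rw [lintegral_indicator_const (measurableSet_far n 1)]

/-- deterministic estimate for attaching a small bush `L` at the vertex `x` of `K` -/
lemma attach_small {ω : Sym2 Γ → Bool} {x y : Γ} {n M : ℕ} (hxy : G.Adj x y)
    (hK : (cluster G (off ω s(x, y)) x).Finite) (hL : (cluster G (off ω s(x, y)) y).Finite)
    (hM : (cl G (off ω s(x, y)) y).card ≤ M) :
    hfun G n (cl G (on ω s(x, y)) x)
      ≤ hfun G n (cl G (off ω s(x, y)) x) + ∑' z, send2 G n M (on ω s(x, y)) z y := by
  set e : Sym2 Γ := s(x, y)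
  set K := cl G (off ω e) x with hKdef
  set L := cl G (off ω e) y with hLdef
  set J := cl G (on ω e) x with hJdef
  have hJc : cluster G (on ω e) x = cluster G (off ω e) x ∪ cluster G (off ω e) y := cluster_on hxy
  have hJf : (cluster G (on ω e) x).Finite := by rw [hJc]; exact hK.union hL
  have hJ : ∀ z, z ∈ J ↔ z ∈ K ∨ z ∈ L := by
    intro z
    rw [hJdef, mem_cl_of_finite hJf, hJc, Set.mem_union, hKdef, hLdef, mem_cl_of_finite hK,
      mem_cl_of_finite hL]
  have hyJ : y ∈ J := by rw [hJ]; right; rw [hLdef, mem_cl_of_finite hL]; exact self_mem_cluster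
  have hKJ : K ⊆ J := fun z hz => (hJ z).2 (Or.inl hz)
  have hLd : ∀ z ∈ L, G.dist z y ≤ M := by
    intro z hz
    have := dist_lt_card hL (mem_cl_of_finite hL |>.1 hz) (self_mem_cluster (x := y))
    rw [← hLdef] at this
    omega
  -- count
  have hcount : nfar G n J ≤ nfar G n K
      + (J.filter (fun z => far G n J z ∧ okp G n M J z y)).card := by
    unfold nfar
    refine le_trans (Finset.card_le_card ?_) (Finset.card_union_le _ _)
    intro z hz
    rw [Finset.mem_filter] at hz
    rw [Finset.mem_union, Finset.mem_filter, Finset.mem_filter]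
    by_cases hzK : z ∈ K ∧ far G n K z
    · exact Or.inl hzK
    · right
      refine ⟨hz.1, hz.2, ?_⟩
      rcases (hJ z).1 hz.1 with h | h
      · -- z ∈ K, not far in K
        right
        have hnf : ¬ far G n K z := fun hf => hzK ⟨h, hf⟩
        have hall : ∀ z' ∈ J, G.dist z z' = n → z' ∈ L := by
          intro z' hz' hd
          rcases (hJ z').1 hz' with h' | h'
          · exact absurd ⟨z', h', hd⟩ hnf
          · exact h'
        refine ⟨?_, ?_⟩
        · refine le_trans (Finset.card_le_card (?_ : _ ⊆ L)) hM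
          intro z' hz'
          rw [Finset.mem_filter] at hz'
          exact hall z' hz'.1 hz'.2
        · obtain ⟨z', hz', hd⟩ := hz.2
          exact ⟨z', hz', hd, hLd z' (hall z' hz' hd)⟩
      · left
        exact hLd z h
  have hsum : ∑' z, send2 G n M (on ω e) z y
      = ((J.filter (fun z => far G n J z ∧ okp G n M J z y)).card : ℝ≥0∞) / J.card := by
    rw [tsum_eq_sum (s := J.filter (fun z => far G n J z ∧ okp G n M J z y)) ?_]
    · have : ∀ z ∈ J.filter (fun z => far G n J z ∧ okp G n M J z y),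
          send2 G n M (on ω e) z y = (J.card : ℝ≥0∞)⁻¹ := by
        intro z hz
        rw [Finset.mem_filter] at hz
        unfold send2
        have h1 : cl G (on ω e) z = J := cl_eq_cl hz.1
        rw [h1, if_pos ⟨hyJ, hz.2⟩]
      rw [Finset.sum_congr rfl this, Finset.sum_const, nsmul_eq_mul, div_eq_mul_inv]
    · intro z hz
      unfold send2
      rw [if_neg]
      rintro ⟨a1, a2, a3⟩
      apply hz
      have h1 : cl G (on ω e) z = J := by
        rw [← cl_eq_cl a1, cl_eq_cl hyJ]
      rw [h1] at a1 a2 a3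
      have : z ∈ J := by
        rw [← h1]
        rw [mem_cl_iff]
        refine ⟨?_, self_mem_cluster⟩
        by_contra hc
        have := cl_eq_empty hc
        rw [h1] at this
        rw [this] at a1
        simp at a1
      exact Finset.mem_filter.2 ⟨this, a2, a3⟩
  rw [hsum]
  have hKJc : (K.card : ℝ≥0∞) ≤ J.card := by exact_mod_cast Finset.card_le_card hKJ
  unfold hfun
  calc (nfar G n J : ℝ≥0∞) / J.card
      ≤ ((nfar G n K : ℝ≥0∞) + ((J.filter (fun z => far G n J z ∧ okp G n M J z y)).card : ℝ≥0∞))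
          / J.card := by
        gcongr
        exact_mod_cast hcount
    _ = (nfar G n K : ℝ≥0∞) / J.card
        + ((J.filter (fun z => far G n J z ∧ okp G n M J z y)).card : ℝ≥0∞) / J.card := by
        rw [ENNReal.add_div]
    _ ≤ _ := by gcongr

/-- converse estimate: detaching a small bush -/
lemma detach_small {ω : Sym2 Γ → Bool} {x y : Γ} {n M : ℕ} (hn : n ≠ 0) (hxy : G.Adj x y)
    (hK : (cluster G (off ω s(x, y)) x).Finite) (hL : (cluster G (off ω s(x, y)) y).Finite)
    (hM : (cl G (off ω s(x, y)) y).card ≤ M) :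
    hfun G n (cl G (off ω s(x, y)) x)
      ≤ hfun G n (cl G (on ω s(x, y)) x) + hfun G n (cl G (off ω s(x, y)) x) * (M / n) := by
  set e : Sym2 Γ := s(x, y)
  set K := cl G (off ω e) x with hKdef
  set L := cl G (off ω e) y with hLdef
  set J := cl G (on ω e) x with hJdef
  have hJc : cluster G (on ω e) x = cluster G (off ω e) x ∪ cluster G (off ω e) y := cluster_on hxy
  have hJf : (cluster G (on ω e) x).Finite := by rw [hJc]; exact hK.union hL
  have hJ : J = K ∪ L := by
    ext z
    rw [hJdef, mem_cl_of_finite hJf, hJc, Set.mem_union, Finset.mem_union, hKdef, hLdef,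
      mem_cl_of_finite hK, mem_cl_of_finite hL]
  have hKJ : K ⊆ J := by rw [hJ]; exact Finset.subset_union_left
  by_cases h0 : nfar G n K = 0
  · have : hfun G n K = 0 := by unfold hfun; rw [h0]; simp
    rw [this]; exact bot_le
  have hKn : n < K.card := by
    obtain ⟨z, hz⟩ := Finset.card_ne_zero.1 h0
    rw [Finset.mem_filter] at hz
    exact lt_card_of_far hz.1 hz.2
  have hcard : J.card ≤ K.card + M := by
    rw [hJ]; exact le_trans (Finset.card_union_le _ _) (by omega)
  have hJn : n ≤ J.card := le_trans hKn.le (Finset.card_le_card hKJ)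
  have hK0 : (K.card : ℝ≥0∞) ≠ 0 := by exact_mod_cast (by omega : K.card ≠ 0)
  have hKt : (K.card : ℝ≥0∞) ≠ ⊤ := ENNReal.natCast_ne_top _
  have hJ0 : (J.card : ℝ≥0∞) ≠ 0 := by exact_mod_cast (by omega : J.card ≠ 0)
  have hJt : (J.card : ℝ≥0∞) ≠ ⊤ := ENNReal.natCast_ne_top _
  have hkey : (K.card : ℝ≥0∞)⁻¹ ≤ (J.card : ℝ≥0∞)⁻¹ + (K.card : ℝ≥0∞)⁻¹ * (M / n) := by
    calc (K.card : ℝ≥0∞)⁻¹ = (K.card : ℝ≥0∞)⁻¹ * (J.card * (J.card : ℝ≥0∞)⁻¹) := by
          rw [ENNReal.mul_inv_cancel hJ0 hJt, mul_one]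
      _ ≤ (K.card : ℝ≥0∞)⁻¹ * ((K.card + M : ℝ≥0∞) * (J.card : ℝ≥0∞)⁻¹) := by
          gcongr
          exact_mod_cast hcard
      _ = (K.card : ℝ≥0∞)⁻¹ * K.card * (J.card : ℝ≥0∞)⁻¹
          + (K.card : ℝ≥0∞)⁻¹ * (M * (J.card : ℝ≥0∞)⁻¹) := by ring
      _ = (J.card : ℝ≥0∞)⁻¹ + (K.card : ℝ≥0∞)⁻¹ * (M * (J.card : ℝ≥0∞)⁻¹) := by
          rw [ENNReal.inv_mul_cancel hK0 hKt, one_mul]
      _ ≤ (J.card : ℝ≥0∞)⁻¹ + (K.card : ℝ≥0∞)⁻¹ * (M * (n : ℝ≥0∞)⁻¹) := by
          gcongr
      _ = _ := by rw [div_eq_mul_inv]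
  unfold hfun
  calc (nfar G n K : ℝ≥0∞) / K.card = nfar G n K * (K.card : ℝ≥0∞)⁻¹ := div_eq_mul_inv _ _
    _ ≤ nfar G n K * ((J.card : ℝ≥0∞)⁻¹ + (K.card : ℝ≥0∞)⁻¹ * (M / n)) := by gcongr
    _ = nfar G n K / J.card + nfar G n K / K.card * (M / n) := by
        simp only [div_eq_mul_inv]; ring
    _ ≤ _ := by
        gcongr
        exact nfar_mono hKJ

end Pool.Agent.H17.IIC
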