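import Mathlib
import Pool.Agent.H17.IIC.Small

/-! The influence of one edge on `h_n` of the cluster of a far away vertex. -/

open MeasureTheory Set Filter Topology
open scoped ENNReal Classical Pointwise

set_option linter.unusedSectionVars false

namespace Pool.Agent.H17.IIC

variable {Γ : Type*} [Group Γ] {G : SimpleGraph Γ} [Countable Γ]

/-- the error term for the oriented edge `(x, y)` -/
noncomputable def err (G : SimpleGraph Γ) (n M : ℕ) (x y : Γ) (ω : Sym2 Γ → Bool) : ℝ≥0∞ :=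
  (∑' z, send2 G n M (on ω s(x, y)) z y)
  + hfun G n (cl G (off ω s(x, y)) x) * (M / n)
  + {ω | y ∉ cluster G (off ω s(x, y)) x ∧ Big G M (off ω s(x, y)) y}.indicator
      (fun ω => hfun G n (cl G (off ω s(x, y)) x)) ω
  + {ω | y ∉ cluster G (off ω s(x, y)) x ∧ Big G M (off ω s(x, y)) x
      ∧ Big G M (off ω s(x, y)) y}.indicator (fun ω => hfun G n (cl G (on ω s(x, y)) x)) ω

lemma diff_le_err {n M : ℕ} (hn : n ≠ 0) {x y v : Γ} (hxy : G.Adj x y) {ω : Sym2 Γ → Bool}
    (hK : (cluster G (off ω s(x, y)) x).Finite) (hL : (cluster G (off ω s(x, y)) y).Finite)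
    (hy : y ∉ cluster G (off ω s(x, y)) x) (hv : v ∈ cluster G (off ω s(x, y)) x)
    (hd : M ≤ G.dist x v) :
    (hfun G n (cl G (on ω s(x, y)) v) - hfun G n (cl G (off ω s(x, y)) v))
      + (hfun G n (cl G (off ω s(x, y)) v) - hfun G n (cl G (on ω s(x, y)) v))
      ≤ err G n M x y ω := by
  have hclK : cl G (off ω s(x, y)) v = cl G (off ω s(x, y)) x := cl_congr (cluster_eq_of_mem hv)
  have hclJ : cl G (on ω s(x, y)) v = cl G (on ω s(x, y)) x :=
    cl_congr (cluster_eq_of_mem (cluster_mono (off_le_on _) hv))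
  rw [hclK, hclJ]
  by_cases hB : Big G M (off ω s(x, y)) y
  · have hBx : Big G M (off ω s(x, y)) x := big_of_dist hv hd
    have h1 : ω ∈ {ω | y ∉ cluster G (off ω s(x, y)) x ∧ Big G M (off ω s(x, y)) y} := ⟨hy, hB⟩
    have h2 : ω ∈ {ω | y ∉ cluster G (off ω s(x, y)) x ∧ Big G M (off ω s(x, y)) x
      ∧ Big G M (off ω s(x, y)) y} := ⟨hy, hBx, hB⟩
    unfold err
    rw [Set.indicator_of_mem h1, Set.indicator_of_mem h2]
    calc _ ≤ hfun G n (cl G (on ω s(x, y)) x) + hfun G n (cl G (off ω s(x, y)) x) :=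
          add_le_add tsub_le_self tsub_le_self
      _ = hfun G n (cl G (off ω s(x, y)) x) + hfun G n (cl G (on ω s(x, y)) x) := add_comm _ _
      _ ≤ _ := by
          gcongr
          exact le_add_self
  · obtain ⟨_, hM⟩ := not_big_iff.1 hB
    have e1 := attach_small (n := n) hxy hK hL hM
    have e2 := detach_small hn hxy hK hL hM
    unfold err
    refine le_trans (add_le_add (tsub_le_iff_left.2 e1) (tsub_le_iff_left.2 e2)) ?_
    rw [add_assoc (_ + _)]
    exact le_self_add

lemma infl_le_err {n M : ℕ} (hn : n ≠ 0) {x y v : Γ} (hxy : G.Adj x y) {ω : Sym2 Γ → Bool}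
    (hK : (cluster G (off ω s(x, y)) x).Finite) (hL : (cluster G (off ω s(x, y)) y).Finite)
    (hdx : M ≤ G.dist x v) (hdy : M ≤ G.dist y v) :
    infl s(x, y) (fun ω => hfun G n (cl G ω v)) ω ≤ err G n M x y ω + err G n M y x ω := by
  show (hfun G n (cl G (on ω s(x, y)) v) - hfun G n (cl G (off ω s(x, y)) v))
      + (hfun G n (cl G (off ω s(x, y)) v) - hfun G n (cl G (on ω s(x, y)) v)) ≤ _
  by_cases hy : y ∈ cluster G (off ω s(x, y)) x
  · have : cl G (on ω s(x, y)) v = cl G (off ω s(x, y)) v := cl_congr (cluster_on_of_mem hxy hy v)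
    rw [this]; simp
  · by_cases hvx : v ∈ cluster G (off ω s(x, y)) x
    · exact le_trans (diff_le_err hn hxy hK hL hy hvx hdx) le_self_add
    · by_cases hvy : v ∈ cluster G (off ω s(x, y)) y
      · have hswap : s(x, y) = s(y, x) := Sym2.eq_swap
        have hx : x ∉ cluster G (off ω s(y, x)) y := by
          intro h
          apply hy
          rw [hswap]
          exact mem_cluster_comm.1 h
        rw [hswap] at hK hL hvy ⊢
        exact le_trans (diff_le_err hn hxy.symm hL hK hx hvy hdy) le_add_self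
      · have : cl G (on ω s(x, y)) v = cl G (off ω s(x, y)) v :=
          cl_congr (cluster_on_of_not_mem hvx hvy)
        rw [this]; simp

variable (p : unitInterval)

lemma lintegral_on_le (e : Sym2 Γ) (hp : (p : ℝ) ≠ 0) {f : (Sym2 Γ → Bool) → ℝ≥0∞} (hf : Measurable f) :
    ∫⁻ ω, f (on ω e) ∂(perc Γ p) ≤ (ENNReal.ofReal (p : ℝ))⁻¹ * ∫⁻ ω, f ω ∂(perc Γ p) := by
  have h := resample p e hf
  have h0 : ENNReal.ofReal (p : ℝ) ≠ 0 := by
    rw [Ne, ENNReal.ofReal_eq_zero, not_le]
    exact lt_of_le_of_ne p.2.1 (Ne.symm hp)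
  rw [← ENNReal.div_eq_inv_mul, ENNReal.le_div_iff_mul_le (Or.inl h0) (Or.inl ENNReal.ofReal_ne_top)]
  unfold perc
  rw [h, mul_comm]
  exact le_self_add

lemma lintegral_off_le (e : Sym2 Γ) (hp : (p : ℝ) ≠ 1) {f : (Sym2 Γ → Bool) → ℝ≥0∞} (hf : Measurable f) :
    ∫⁻ ω, f (off ω e) ∂(perc Γ p) ≤ (ENNReal.ofReal (1 - (p : ℝ)))⁻¹ * ∫⁻ ω, f ω ∂(perc Γ p) := by
  have h := resample p e hf
  have h0 : ENNReal.ofReal (1 - (p : ℝ)) ≠ 0 := by
    rw [Ne, ENNReal.ofReal_eq_zero, not_le]
    have := lt_of_le_of_ne p.2.2 hp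
    linarith
  rw [← ENNReal.div_eq_inv_mul, ENNReal.le_div_iff_mul_le (Or.inl h0) (Or.inl ENNReal.ofReal_ne_top)]
  unfold perc
  rw [h, mul_comm]
  exact le_add_self

/-- the probability that the (finite) cluster of `1` reaches the sphere of radius `n` -/
noncomputable def aN (G : SimpleGraph Γ) (p : unitInterval) (n : ℕ) : ℝ≥0∞ :=
  perc Γ p {ω | far G n (cl G ω 1) 1}

/-- the probability that the cluster of `1` has more than `M` vertices -/
noncomputable def tM (G : SimpleGraph Γ) (p : unitInterval) (M : ℕ) : ℝ≥0∞ :=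
  perc Γ p {ω | Big G M ω 1}

lemma prob_big (hinv : ∀ γ x y, G.Adj (γ * x) (γ * y) ↔ G.Adj x y) (M : ℕ) (x : Γ) :
    perc Γ p {ω | Big G M ω x} = tM G p M := by
  unfold tM
  rw [← lintegral_indicator_one (measurableSet_big M 1), ← lintegral_indicator_one (measurableSet_big M x),
    ← lintegral_shift p x (measurable_one.indicator (measurableSet_big M 1))]
  apply lintegral_congr
  intro ω
  have := big_shift hinv M x ω 1
  rw [mul_one] at this
  simp only [Set.indicator_apply, Set.mem_ofPred_eq, this, Pi.one_apply]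

/-- the crossing term -/
noncomputable def cross (G : SimpleGraph Γ) (p : unitInterval) (n M : ℕ) (x y : Γ) : ℝ≥0∞ :=
  ∫⁻ ω, {ω : Sym2 Γ → Bool | ω s(x, y) = true ∧ y ∉ cluster G (off ω s(x, y)) x ∧
    Big G M (off ω s(x, y)) x ∧ Big G M (off ω s(x, y)) y}.indicator
      (fun ω => hfun G n (cl G ω x)) ω ∂(perc Γ p)

lemma measurableSet_crossSet (M : ℕ) (x y : Γ) :
    MeasurableSet {ω : Sym2 Γ → Bool | y ∉ cluster G (off ω s(x, y)) x ∧
      Big G M (off ω s(x, y)) x ∧ Big G M (off ω s(x, y)) y} :=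
  ((measurable_off s(x, y)) (measurableSet_mem_cluster x y)).compl.inter
    (((measurable_off s(x, y)) (measurableSet_big M x)).inter
      ((measurable_off s(x, y)) (measurableSet_big M y)))

lemma measurable_hcl (n : ℕ) (x : Γ) : Measurable (fun ω : Sym2 Γ → Bool => hfun G n (cl G ω x)) :=
  measurable_cl_fun x (hfun G n)

lemma measurable_err1 (n M : ℕ) (x y : Γ) :
    Measurable (fun ω => ∑' z, send2 G n M (on ω s(x, y)) z y) := by
  have : Measurable (fun ω => ∑' z, send2 G n M ω z y) :=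
    Measurable.tsum (fun z => measurable_send2 n M z y)
  exact this.comp (measurable_on s(x, y))

theorem mean_err (hinv : ∀ γ x y, G.Adj (γ * x) (γ * y) ↔ G.Adj x y) (hconn : G.Connected)
    (hfin : ∀ x, (G.neighborSet x).Finite) (hp0 : (p : ℝ) ≠ 0) (hp1 : (p : ℝ) ≠ 1)
    (n M : ℕ) {x y : Γ} (hxy : G.Adj x y) :
    ∫⁻ ω, err G n M x y ω ∂(perc Γ p)
      ≤ (ENNReal.ofReal (p : ℝ))⁻¹ * ((((1 + M) * bsize G M : ℕ) : ℝ≥0∞) / n * aN G p n)
        + (ENNReal.ofReal (1 - (p : ℝ)))⁻¹ * aN G p n * (M / n)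
        + (ENNReal.ofReal (1 - (p : ℝ)))⁻¹ * aN G p n * tM G p M
        + (ENNReal.ofReal (p : ℝ))⁻¹ * cross G p n M x y := by
  have hmoff : Measurable (fun ω : Sym2 Γ → Bool => hfun G n (cl G (off ω s(x, y)) x)) :=
    (measurable_hcl n x).comp (measurable_off s(x, y))
  have hmon : Measurable (fun ω : Sym2 Γ → Bool => hfun G n (cl G (on ω s(x, y)) x)) :=
    (measurable_hcl n x).comp (measurable_on s(x, y))
  have hE3 : MeasurableSet {ω : Sym2 Γ → Bool | y ∉ cluster G (off ω s(x, y)) x ∧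
      Big G M (off ω s(x, y)) y} :=
    ((measurable_off s(x, y)) (measurableSet_mem_cluster x y)).compl.inter
      ((measurable_off s(x, y)) (measurableSet_big M y))
  have hE4 := measurableSet_crossSet (G := G) M x y
  have hoff : ∫⁻ ω, hfun G n (cl G (off ω s(x, y)) x) ∂(perc Γ p)
      ≤ (ENNReal.ofReal (1 - (p : ℝ)))⁻¹ * aN G p n := by
    refine le_trans (lintegral_off_le p s(x, y) hp1 (measurable_hcl n x)) ?_
    rw [mean_h p hinv hconn n x]
    rfl
  unfold err
  rw [lintegral_add_right _ (hmon.indicator hE4), lintegral_add_right _ (hmoff.indicator hE3),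
    lintegral_add_left (measurable_err1 n M x y), lintegral_mul_const _ hmoff]
  gcongr ?_ + ?_ + ?_ + ?_
  · refine le_trans (lintegral_on_le p s(x, y) hp0
      (Measurable.tsum (fun z => measurable_send2 n M z y))) ?_
    gcongr
    exact mean_send2 p hinv hconn hfin n M y
  · gcongr
  · rw [lintegral_indicator hE3]
    refine le_trans (explore_lintegral p hfin M hxy (hfun G n) (hfun_empty n)) ?_
    rw [prob_big p hinv M y]
    gcongr
  · unfold cross
    have hmset : MeasurableSet {ω : Sym2 Γ → Bool | ω s(x, y) = true ∧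
        y ∉ cluster G (off ω s(x, y)) x ∧ Big G M (off ω s(x, y)) x ∧ Big G M (off ω s(x, y)) y} :=
      (measurableSet_eq_fun (measurable_pi_apply _) measurable_const).inter hE4
    refine le_trans (le_of_eq ?_) (lintegral_on_le p s(x, y) hp0
      ((measurable_hcl n x).indicator hmset))
    apply lintegral_congr
    intro ω
    simp only [Set.indicator_apply, Set.mem_ofPred_eq, off_on, on_self, true_and]

end Pool.Agent.H17.IIC
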