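import Mathlib
import Pool.Agent.H17.IIC.Infl

/-! The law of the rerooted cluster. -/

open MeasureTheory Set Filter Topology
open scoped ENNReal Classical Pointwise

set_option linter.unusedSectionVars false

namespace Pool.Agent.H17.IIC

/-- A subgraph of a graph with vertex set `Γ`, given by the indicator functions of its vertex set
and of its edge set. -/
abbrev Sub (Γ : Type*) := (Γ → Bool) × (Sym2 Γ → Bool)

variable {Γ : Type*} [Group Γ]

/-- The open cluster of the identity, with its open edges, translated by `ρ⁻¹`. -/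
noncomputable def reroot (G : SimpleGraph Γ) (ρ : Γ) (ω : Sym2 Γ → Bool) : Sub Γ :=
  (fun v => decide (ρ * v ∈ cluster G ω 1),
   fun e => decide (e.map (fun v => ρ * v) ∈ (openG G ω).edgeSet ∧
      ∀ v ∈ e, ρ * v ∈ cluster G ω 1))

/-- The law of the cluster `C_n` of the identity, conditioned to reach the sphere of radius `n`,
and then translated by `ρ⁻¹`, where `ρ` is uniform in the cluster. -/
noncomputable def rerootedLaw (G : SimpleGraph Γ) (p : unitInterval) (n : ℕ) : Measure (Sub Γ) :=
  Measure.sum fun ρ : Γ =>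
    ((ProbabilityTheory.cond (perc Γ p) {ω | ∃ z ∈ cluster G ω 1, G.dist 1 z = n}).withDensity
      (fun ω => if ρ ∈ cluster G ω 1 then ((cluster G ω 1).encard : ℝ≥0∞)⁻¹ else 0)).map
      (reroot G ρ)

variable {G : SimpleGraph Γ} [Countable Γ] (p : unitInterval)

lemma measurable_decide {α : Type*} [MeasurableSpace α] {P : α → Prop} [DecidablePred P]
    (h : MeasurableSet {a | P a}) :
    Measurable (fun a => (decide (P a) : Bool)) := by
  apply measurable_to_bool
  have : (fun a => (decide (P a) : Bool)) ⁻¹' {true} = {a | P a} := by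
    ext a; simp
  rw [this]; exact h

lemma measurable_reroot (ρ : Γ) : Measurable (reroot G ρ) := by
  unfold reroot
  refine Measurable.prodMk ?_ ?_
  · rw [measurable_pi_iff]
    intro v
    exact measurable_decide (measurableSet_mem_cluster 1 (ρ * v))
  · rw [measurable_pi_iff]
    intro e
    apply measurable_decide
    have h1 : MeasurableSet {ω : Sym2 Γ → Bool | e.map (fun v => ρ * v) ∈ (openG G ω).edgeSet} := by
      induction e using Sym2.inductionOn with
      | hf x y =>
        have : {ω : Sym2 Γ → Bool | (s(x, y) : Sym2 Γ).map (fun v => ρ * v) ∈ (openG G ω).edgeSet}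
            = {_ω | G.Adj (ρ * x) (ρ * y)} ∩ {ω | ω s(ρ * x, ρ * y) = true} := by
          ext ω
          simp [openG, SimpleGraph.mem_edgeSet]
        rw [this]
        exact (MeasurableSet.const _).inter
          (measurableSet_eq_fun (measurable_pi_apply _) measurable_const)
    have h2 : MeasurableSet {ω : Sym2 Γ → Bool | ∀ v ∈ e, ρ * v ∈ cluster G ω 1} := by
      have : {ω : Sym2 Γ → Bool | ∀ v ∈ e, ρ * v ∈ cluster G ω 1}
          = ⋂ v, ⋂ (_ : v ∈ e), {ω | ρ * v ∈ cluster G ω 1} := by
        ext ω; simp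
      rw [this]
      exact MeasurableSet.iInter (fun v => MeasurableSet.iInter
        (fun _ => measurableSet_mem_cluster 1 (ρ * v)))
    exact h1.inter h2

lemma shift_one (ω : Sym2 Γ → Bool) : shift 1 ω = ω := by
  funext e
  unfold shift
  congr 1
  induction e using Sym2.inductionOn with
  | hf x y => simp

lemma shift_shift (γ y : Γ) (ω : Sym2 Γ → Bool) : shift y (shift γ ω) = shift (γ * y) ω := by
  funext e
  unfold shift
  congr 1
  induction e using Sym2.inductionOn with
  | hf x y => simp [mul_assoc]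

lemma reroot_eq (hinv : ∀ γ x y, G.Adj (γ * x) (γ * y) ↔ G.Adj x y) {ρ : Γ} {ω : Sym2 Γ → Bool}
    (hρ : ρ ∈ cluster G ω 1) : reroot G ρ ω = reroot G 1 (shift ρ ω) := by
  have hcl : ∀ v, ρ * v ∈ cluster G ω 1 ↔ v ∈ cluster G (shift ρ ω) 1 := by
    intro v
    rw [cluster_shift hinv, mul_one, cluster_eq_of_mem hρ]
  unfold reroot
  simp only [one_mul, hcl]
  congr 1
  funext e
  induction e using Sym2.inductionOn with
  | hf x y =>
    simp only [Sym2.map_mk, SimpleGraph.mem_edgeSet, openG, hinv, shift_mk]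

lemma aN_eq (hth : perc Γ p {ω | (cluster G ω 1).Infinite} = 0) (n : ℕ) :
    perc Γ p {ω | ∃ z ∈ cluster G ω 1, G.dist 1 z = n} = aN G p n := by
  unfold aN
  apply measure_congr
  have : ∀ᵐ ω ∂(perc Γ p), (cluster G ω 1).Finite := by
    rw [ae_iff]
    exact hth
  filter_upwards [this] with ω hω
  apply propext
  show (∃ z ∈ cluster G ω 1, G.dist 1 z = n) ↔ far G n (cl G ω 1) 1
  unfold far
  simp only [mem_cl_of_finite hω]

lemma measurableSet_reach (n : ℕ) :
    MeasurableSet {ω : Sym2 Γ → Bool | ∃ z ∈ cluster G ω 1, G.dist 1 z = n} := by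
  have : {ω : Sym2 Γ → Bool | ∃ z ∈ cluster G ω 1, G.dist 1 z = n}
      = ⋃ z, ({ω | z ∈ cluster G ω 1} ∩ {_ω | G.dist 1 z = n}) := by
    ext ω; simp
  rw [this]
  exact MeasurableSet.iUnion (fun z => (measurableSet_mem_cluster 1 z).inter (MeasurableSet.const _))

lemma measurable_dens (ρ : Γ) : Measurable (fun ω : Sym2 Γ → Bool =>
    if ρ ∈ cluster G ω 1 then ((cluster G ω 1).encard : ℝ≥0∞)⁻¹ else 0) := by
  have : (fun ω : Sym2 Γ → Bool =>
      if ρ ∈ cluster G ω 1 then ((cluster G ω 1).encard : ℝ≥0∞)⁻¹ else 0)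
      = fun ω => (fun K : Finset Γ => if ρ ∈ K then (K.card : ℝ≥0∞)⁻¹ else 0) (cl G ω 1) := by
    funext ω
    by_cases hf : (cluster G ω 1).Finite
    · simp only [mem_cl_of_finite hf]
      congr 2
      rw [← cl_eq_of_finite hf, Set.encard_coe_eq_coe_finsetCard]
      simp
    · rw [cl_eq_empty hf]
      have : (cluster G ω 1).encard = ⊤ := Set.encard_eq_top hf
      simp [this]
  rw [this]
  exact measurable_cl_fun (G := G) (1 : Γ) (fun K : Finset Γ => if ρ ∈ K then (K.card : ℝ≥0∞)⁻¹ else 0)

theorem law_apply (hinv : ∀ γ x y, G.Adj (γ * x) (γ * y) ↔ G.Adj x y) (hconn : G.Connected)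
    (hth : perc Γ p {ω | (cluster G ω 1).Infinite} = 0) (n : ℕ) {B : Set (Sub Γ)}
    (hB : MeasurableSet B) :
    rerootedLaw G p n B
      = (aN G p n)⁻¹ * ∫⁻ ω, {ω | reroot G 1 ω ∈ B}.indicator
          (fun ω => hfun G n (cl G ω 1)) ω ∂(perc Γ p) := by
  unfold rerootedLaw
  rw [Measure.sum_apply _ hB]
  let f : (Sym2 Γ → Bool) → Γ → Γ → ℝ≥0∞ := fun ω z y =>
    {ω | reroot G 1 (shift y ω) ∈ B}.indicator (fun ω => send G n ω z y) ω
  have hset : ∀ y, MeasurableSet {ω : Sym2 Γ → Bool | reroot G 1 (shift y ω) ∈ B} := fun y =>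
    (measurable_shift y) ((measurable_reroot 1) hB)
  have hfm : ∀ z y, Measurable (fun ω => f ω z y) := fun z y =>
    (measurable_send n z y).indicator (hset y)
  have h1 : ∀ ρ : Γ,
      ((ProbabilityTheory.cond (perc Γ p) {ω | ∃ z ∈ cluster G ω 1, G.dist 1 z = n}).withDensity
      (fun ω => if ρ ∈ cluster G ω 1 then ((cluster G ω 1).encard : ℝ≥0∞)⁻¹ else 0)).map
      (reroot G ρ) B = (aN G p n)⁻¹ * ∫⁻ ω, f ω 1 ρ ∂(perc Γ p) := by
    intro ρ
    rw [Measure.map_apply (measurable_reroot ρ) hB,
      withDensity_apply _ ((measurable_reroot ρ) hB), ProbabilityTheory.cond,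
      Measure.restrict_smul, lintegral_smul_measure, aN_eq p hth, smul_eq_mul]
    congr 1
    rw [Measure.restrict_restrict ((measurable_reroot ρ) hB),
      ← lintegral_indicator (((measurable_reroot ρ) hB).inter (measurableSet_reach n))]
    apply lintegral_congr
    intro ω
    simp only [f, Set.indicator_apply, Set.mem_inter_iff, Set.mem_preimage, Set.mem_ofPred_eq]
    by_cases hf : (cluster G ω 1).Finite
    · have hcl : ∀ z, z ∈ cluster G ω 1 ↔ z ∈ cl G ω 1 := fun z => (mem_cl_of_finite hf).symm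
      have hcard : ((cluster G ω 1).encard : ℝ≥0∞) = ((cl G ω 1).card : ℝ≥0∞) := by
        rw [← cl_eq_of_finite hf, Set.encard_coe_eq_coe_finsetCard]
        simp
      by_cases hρ : ρ ∈ cl G ω 1
      · have hρ' : ρ ∈ cluster G ω 1 := (hcl ρ).2 hρ
        rw [reroot_eq hinv hρ', hcard]
        by_cases hr : reroot G 1 (shift ρ ω) ∈ B
        · unfold send far
          simp only [hcl, hρ, hr, true_and, if_true]
        · simp [hr]
      · have hρ' : ρ ∉ cluster G ω 1 := fun h => hρ ((hcl ρ).1 h)
        unfold send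
        simp [hρ, hρ']
    · have htop : (cluster G ω 1).encard = ⊤ := Set.encard_eq_top hf
      have hemp : cl G ω 1 = ∅ := cl_eq_empty hf
      unfold send
      simp [htop, hemp]
  simp only [h1]
  rw [ENNReal.tsum_mul_left]
  congr 1
  rw [← mass_transport p f hfm ?_ 1]
  · rw [← lintegral_tsum (fun z => (hfm z 1).aemeasurable)]
    apply lintegral_congr
    intro ω
    simp only [f, shift_one]
    by_cases hω : reroot G 1 ω ∈ B
    · have : ω ∈ {ω : Sym2 Γ → Bool | reroot G 1 ω ∈ B} := hω
      simp only [Set.indicator_of_mem this]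
      exact sum_send n ω 1
    · have : ω ∉ {ω : Sym2 Γ → Bool | reroot G 1 ω ∈ B} := hω
      simp only [Set.indicator_of_notMem this, tsum_zero]
  · intro γ ω z y
    simp only [f, Set.indicator_apply, Set.mem_ofPred_eq, shift_shift, send_shift hinv hconn]

end Pool.Agent.H17.IIC
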