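import Mathlib

/-! König's lemma: an infinite connected component of a locally finite graph contains a ray. -/

open Set

namespace Pool.Agent.H17.IIC

variable {V : Type*} {H : SimpleGraph V}

/-- the vertices `z` for which `y` lies on a geodesic from `x` to `z` -/
def desc (H : SimpleGraph V) (x y : V) : Set V :=
  {z | H.Reachable x y ∧ H.Reachable y z ∧ H.dist x z = H.dist x y + H.dist y z}

lemma exists_first_step {y z : V} (h : H.Reachable y z) (hne : y ≠ z) :
    ∃ y', H.Adj y y' ∧ H.Reachable y' z ∧ H.dist y z = H.dist y' z + 1 := by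
  obtain ⟨w, hw⟩ := h.exists_walk_length_eq_dist
  cases w with
  | nil => exact absurd rfl hne
  | @cons _ y' _ hadj w' =>
    refine ⟨y', hadj, ⟨w'⟩, ?_⟩
    rw [SimpleGraph.Walk.length_cons] at hw
    have h1 : H.dist y' z ≤ w'.length := SimpleGraph.dist_le w'
    have h2 : H.dist y z ≤ H.dist y' z + 1 := by
      have hr' : H.Reachable y' z := ⟨w'⟩
      obtain ⟨w2, hw2⟩ := hr'.exists_walk_length_eq_dist
      have := SimpleGraph.dist_le (SimpleGraph.Walk.cons hadj w2)
      rw [SimpleGraph.Walk.length_cons, hw2] at this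
      exact this
    omega

lemma dist_triangle' {a b c : V} (hab : H.Reachable a b) (hbc : H.Reachable b c) :
    H.dist a c ≤ H.dist a b + H.dist b c := by
  obtain ⟨w1, hw1⟩ := hab.exists_walk_length_eq_dist
  obtain ⟨w2, hw2⟩ := hbc.exists_walk_length_eq_dist
  have := SimpleGraph.dist_le (w1.append w2)
  rw [SimpleGraph.Walk.length_append, hw1, hw2] at this
  exact this

lemma exists_next (hfin : ∀ v, (H.neighborSet v).Finite) {x y : V} (hy : (desc H x y).Infinite) :
    ∃ y', H.Adj y y' ∧ H.dist x y' = H.dist x y + 1 ∧ (desc H x y').Infinite := by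
  by_contra hc
  push Not at hc
  apply hy
  have hsub : desc H x y ⊆ {y} ∪
      ⋃ y' ∈ {y' ∈ H.neighborSet y | H.dist x y' = H.dist x y + 1}, desc H x y' := by
    intro z hz
    obtain ⟨hxy, hyz, hd⟩ := hz
    by_cases hyz' : y = z
    · left; exact hyz'.symm
    · right
      obtain ⟨y', hadj, hr, hd'⟩ := exists_first_step hyz hyz'
      have hxy' : H.Reachable x y' := hxy.trans hadj.reachable
      have h1 : H.dist x z ≤ H.dist x y' + H.dist y' z := dist_triangle' hxy' hr
      have h2 : H.dist x y' ≤ H.dist x y + 1 := by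
        have := dist_triangle' hxy hadj.reachable
        have h3 : H.dist y y' ≤ 1 := by
          have := SimpleGraph.dist_le (SimpleGraph.Walk.cons hadj SimpleGraph.Walk.nil)
          simpa using this
        omega
      simp only [Set.mem_iUnion]
      refine ⟨y', ⟨hadj, by omega⟩, hxy', hr, by omega⟩
  refine ((Set.finite_singleton y).union (Set.Finite.biUnion ((hfin y).subset (fun a ha => ha.1)) ?_)).subset hsub
  intro y' hy'
  exact hc y' hy'.1 hy'.2

/-- König's lemma -/
theorem exists_ray (hfin : ∀ v, (H.neighborSet v).Finite) {x : V}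
    (hx : {z | H.Reachable x z}.Infinite) :
    ∃ a : ℕ → V, a 0 = x ∧ Function.Injective a ∧ ∀ i, H.Adj (a i) (a (i + 1)) := by
  have h0 : (desc H x x).Infinite := by
    have : desc H x x = {z | H.Reachable x z} := by
      ext z
      constructor
      · intro h; exact h.2.1
      · intro h
        exact ⟨SimpleGraph.Reachable.refl x, h, by simp⟩
    rw [this]; exact hx
  choose! nxt hn1 hn2 hn3 using fun y (hy : (desc H x y).Infinite) => exists_next hfin hy
  let a : ℕ → V := fun n => nxt^[n] x
  have hs : ∀ n, a (n + 1) = nxt (a n) := fun n => Function.iterate_succ_apply' nxt n x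
  have ha : ∀ n, (desc H x (a n)).Infinite ∧ H.dist x (a n) = n := by
    intro n
    induction n with
    | zero => exact ⟨h0, by simp [a]⟩
    | succ n ih =>
      rw [hs]
      exact ⟨hn3 _ ih.1, by rw [hn2 _ ih.1, ih.2]⟩
  refine ⟨a, rfl, ?_, ?_⟩
  · intro i j hij
    rw [← (ha i).2, ← (ha j).2, hij]
  · intro i
    rw [hs]
    exact hn1 _ (ha i).1

end Pool.Agent.H17.IIC
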