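import Mathlib
import Pool.Agent.H17.IIC.Law
import Pool.Agent.H17.IIC.Ray

/-! Local events approximating the event that an edge separates the cluster into two infinite parts. -/

open MeasureTheory Set Filter Topology
open scoped ENNReal Classical Pointwise

set_option linter.unusedSectionVars false

namespace Pool.Agent.H17.IIC

section gen
variable {V : Type*} {G : SimpleGraph V} {ω ω' : Sym2 V → Bool} {x y : V}

lemma touch_mono {K K' : Set V} (h : K ⊆ K') : touch G K ⊆ touch G K' := by
  rintro e ⟨a, ha, b, hab, rfl⟩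
  exact ⟨a, h ha, b, hab, rfl⟩

lemma big_local_aux {k : ℕ} (hag : ∀ e ∈ touch G {y | G.dist x y ≤ k}, ω e = ω' e)
    (h : ¬ Big G k ω x) : ¬ Big G k ω' x := by
  obtain ⟨hf, hc⟩ := not_big_iff.1 h
  have hsub : cluster G ω x ⊆ {y | G.dist x y ≤ k} := by
    intro y hy
    have := dist_lt_card hf self_mem_cluster hy
    show G.dist x y ≤ k
    omega
  have := cluster_congr (ω := ω) (ω' := ω') (x := x) (fun e he => hag e (touch_mono hsub he))
  unfold Big at h ⊢
  rwa [this]

lemma big_local {k : ℕ} (hag : ∀ e ∈ touch G {y | G.dist x y ≤ k}, ω e = ω' e) :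
    Big G k ω x ↔ Big G k ω' x := by
  constructor
  · intro h
    by_contra hc
    exact big_local_aux (fun e he => (hag e he).symm) hc h
  · intro h
    by_contra hc
    exact big_local_aux hag hc h

lemma Big.anti {k l : ℕ} (hkl : k ≤ l) (h : Big G l ω x) : Big G k ω x :=
  lt_of_le_of_lt (by exact_mod_cast hkl) h

lemma infinite_of_big (h : ∀ k, Big G k ω x) : (cluster G ω x).Infinite := by
  intro hf
  have := (big_iff_of_finite hf).1 (h (cl G ω x).card)
  exact lt_irrefl _ this

/-- close all edges outside of `F` -/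
noncomputable def restr (F : Set (Sym2 V)) (ω : Sym2 V → Bool) : Sym2 V → Bool :=
  fun f => if f ∈ F then ω f else false

lemma restr_le {F : Set (Sym2 V)} : ∀ e, restr F ω e = true → ω e = true := by
  intro e he
  unfold restr at he
  split_ifs at he
  exact he

lemma restr_mono {F F' : Set (Sym2 V)} (h : F ⊆ F') :
    ∀ e, restr F ω e = true → restr F' ω e = true := by
  intro e he
  unfold restr at he ⊢
  split_ifs at he with h1
  rw [if_pos (h h1)]
  exact he

/-- two disjoint infinite paths in the subgraph of `G` with edge set `{e | η e = true}` -/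
def TwoRays (G : SimpleGraph V) (η : Sym2 V → Bool) : Prop :=
  ∃ a b : ℕ → V, Function.Injective a ∧ Function.Injective b ∧ (∀ i j, a i ≠ b j) ∧
    (∀ i, G.Adj (a i) (a (i + 1)) ∧ η s(a i, a (i + 1)) = true) ∧
    (∀ i, G.Adj (b i) (b (i + 1)) ∧ η s(b i, b (i + 1)) = true)

lemma isClopen_of_depends {ι : Type*} {A : Set (ι → Bool)} (F : Finset ι)
    (h : ∀ η η' : ι → Bool, (∀ e ∈ F, η e = η' e) → η ∈ A → η' ∈ A) : IsClopen A := by
  have hopen : ∀ B : Set (ι → Bool), (∀ η η' : ι → Bool, (∀ e ∈ F, η e = η' e) → η ∈ B → η' ∈ B) →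
      IsOpen B := by
    intro B hB
    rw [isOpen_iff_forall_mem_open]
    intro η hη
    refine ⟨⋂ e ∈ F, {η' | η' e = η e}, ?_, ?_, ?_⟩
    · intro η' hη'
      simp only [Set.mem_iInter, Set.mem_ofPred_eq] at hη'
      exact hB η η' (fun e he => (hη' e he).symm) hη
    · apply isOpen_biInter_finset
      intro e _
      have hcont : Continuous (fun η' : ι → Bool => η' e) := continuous_apply e
      exact hcont.isOpen_preimage {η e} (isOpen_discrete _)
    · simp
  refine ⟨⟨?_⟩, hopen A h⟩
  apply hopen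
  intro η η' hag hη hη'
  exact hη (h η' η (fun e he => (hag e he).symm) hη')

end gen

variable {Γ : Type*} [Group Γ] {G : SimpleGraph Γ}

/-- local event -/
def Loc (G : SimpleGraph Γ) (k : ℕ) (s : Γ) (η : Sym2 Γ → Bool) : Prop :=
  η s(1, s) = true ∧ Big G k (off η s(1, s)) 1 ∧ Big G k (off η s(1, s)) s ∧
    s ∉ cluster G (restr (touch G {y | G.dist 1 y ≤ k}) (off η s(1, s))) 1

lemma Loc.anti {k l : ℕ} (hkl : k ≤ l) {s : Γ} {η : Sym2 Γ → Bool} (h : Loc G l s η) :
    Loc G k s η := by
  refine ⟨h.1, h.2.1.anti hkl, h.2.2.1.anti hkl, fun hs => h.2.2.2 ?_⟩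
  refine cluster_mono (restr_mono (touch_mono ?_)) hs
  intro y hy
  exact le_trans hy hkl

lemma Loc.clopen (hfin : ∀ x, (G.neighborSet x).Finite) (hconn : G.Connected) (k : ℕ) (s : Γ) :
    IsClopen {η : Sym2 Γ → Bool | Loc G k s η} := by
  have hF1 := touch_finite G hfin (ball_finite hconn hfin (1 : Γ) k)
  have hF2 := touch_finite G hfin (ball_finite hconn hfin s k)
  apply isClopen_of_depends (insert s(1, s) (hF1.toFinset ∪ hF2.toFinset))
  intro η η' hag hη
  have hoff : ∀ f ∈ touch G {y | G.dist 1 y ≤ k} ∪ touch G {y | G.dist s y ≤ k},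
      off η s(1, s) f = off η' s(1, s) f := by
    intro f hf
    by_cases hfe : f = s(1, s)
    · subst hfe; rw [off_self, off_self]
    · rw [off_ne hfe, off_ne hfe]
      apply hag
      simp only [Finset.mem_insert, Finset.mem_union, Set.Finite.mem_toFinset]
      right
      exact hf
  obtain ⟨h1, h2, h3, h4⟩ := hη
  refine ⟨?_, ?_, ?_, ?_⟩
  · rw [← hag _ (Finset.mem_insert_self _ _)]; exact h1
  · exact (big_local (fun e he => hoff e (Or.inl he))).1 h2
  · exact (big_local (fun e he => hoff e (Or.inr he))).1 h3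
  · have : restr (touch G {y | G.dist 1 y ≤ k}) (off η' s(1, s))
        = restr (touch G {y | G.dist 1 y ≤ k}) (off η s(1, s)) := by
      funext f
      unfold restr
      by_cases hf : f ∈ touch G {y | G.dist 1 y ≤ k}
      · simp only [hf, if_true]; exact (hoff f (Or.inl hf)).symm
      · simp only [hf, if_false]
    rw [this]; exact h4

lemma twoRays_of_loc (hfin : ∀ x, (G.neighborSet x).Finite) {s : Γ} {η : Sym2 Γ → Bool}
    (h : ∀ k, Loc G k s η) : TwoRays G η := by
  set ω := off η s(1, s) with hω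
  have hi1 : (cluster G ω 1).Infinite := infinite_of_big (fun k => (h k).2.1)
  have hi2 : (cluster G ω s).Infinite := infinite_of_big (fun k => (h k).2.2.1)
  have hns : s ∉ cluster G ω 1 := by
    intro hs
    have := cluster_induction (G := G) (ω := ω) (x := 1)
      (P := fun b => ∃ k0, ∀ k ≥ k0, b ∈ cluster G (restr (touch G {y | G.dist 1 y ≤ k}) ω) 1)
      ⟨0, fun _ _ => self_mem_cluster⟩ ?_ s hs
    · obtain ⟨k0, hk0⟩ := this
      exact (h k0).2.2.2 (hk0 k0 le_rfl)
    · rintro a _ ⟨k0, hk0⟩ b hab ho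
      refine ⟨max k0 (G.dist 1 a), fun k hk => ?_⟩
      refine cluster_step (hk0 k (le_trans (le_max_left _ _) hk)) hab ?_
      unfold restr
      rw [if_pos]
      · exact ho
      · exact mem_touch_left (show G.dist 1 a ≤ k from le_trans (le_max_right _ _) hk) hab
  have hfin' : ∀ v, ((openG G ω).neighborSet v).Finite := by
    intro v
    exact (hfin v).subset (fun w hw => hw.1)
  obtain ⟨a, ha0, hainj, hastep⟩ := exists_ray hfin' hi1
  obtain ⟨b, hb0, hbinj, hbstep⟩ := exists_ray hfin' hi2
  have hac : ∀ i, a i ∈ cluster G ω 1 := by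
    intro i
    induction i with
    | zero => rw [ha0]; exact self_mem_cluster
    | succ i ih => exact cluster_step ih (hastep i).1 (hastep i).2
  have hbc : ∀ i, b i ∈ cluster G ω s := by
    intro i
    induction i with
    | zero => rw [hb0]; exact self_mem_cluster
    | succ i ih => exact cluster_step ih (hbstep i).1 (hbstep i).2
  refine ⟨a, b, hainj, hbinj, ?_, ?_, ?_⟩
  · intro i j hij
    apply hns
    have h1 := hac i
    have h2 := hbc j
    rw [hij] at h1
    exact SimpleGraph.Reachable.trans h1 (SimpleGraph.Reachable.symm h2)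
  · intro i
    exact ⟨(hastep i).1, off_le _ _ (hastep i).2⟩
  · intro i
    exact ⟨(hbstep i).1, off_le _ _ (hbstep i).2⟩

lemma reroot_edge {ω : Sym2 Γ → Bool} {a b : Γ} :
    (reroot G 1 ω).2 s(a, b) = true ↔ (G.Adj a b ∧ ω s(a, b) = true) ∧
      a ∈ cluster G ω 1 ∧ b ∈ cluster G ω 1 := by
  simp [reroot, openG, SimpleGraph.mem_edgeSet]

lemma reroot_edge_le {ω : Sym2 Γ → Bool} : ∀ e, (reroot G 1 ω).2 e = true → ω e = true := by
  intro e
  induction e using Sym2.inductionOn with
  | hf a b =>
    intro h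
    exact (reroot_edge.1 h).1.2

lemma off_mono {V : Type*} {η ω : Sym2 V → Bool} {e : Sym2 V} (h : ∀ f, η f = true → ω f = true) :
    ∀ f, off η e f = true → off ω e f = true := by
  intro f hf
  by_cases hfe : f = e
  · subst hfe; rw [off_self] at hf; exact absurd hf (by simp)
  · rw [off_ne hfe] at hf ⊢; exact h f hf

lemma loc_of_cross {k : ℕ} {s : Γ} (hs : G.Adj 1 s) {ω : Sym2 Γ → Bool}
    (ho : ω s(1, s) = true) (hns : s ∉ cluster G (off ω s(1, s)) 1)
    (h1 : Big G k (off ω s(1, s)) 1) (h2 : Big G k (off ω s(1, s)) s) :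
    Loc G k s (reroot G 1 ω).2 := by
  set η := (reroot G 1 ω).2 with hη
  have hsc : s ∈ cluster G ω 1 := cluster_step self_mem_cluster hs ho
  have key : ∀ v, v ∈ cluster G ω 1 →
      cluster G (off ω s(1, s)) v ⊆ cluster G (off η s(1, s)) v := by
    intro v hv
    apply cluster_subset_of_edges
    intro a ha b hab hoo
    have haω : a ∈ cluster G ω 1 := by
      have : a ∈ cluster G ω v := cluster_mono (off_le _) ha
      exact SimpleGraph.Reachable.trans hv this
    by_cases he : s(a, b) = s(1, s)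
    · rw [he, off_self] at hoo; exact absurd hoo (by simp)
    · rw [off_ne he] at hoo ⊢
      exact reroot_edge.2 ⟨⟨hab, hoo⟩, haω, cluster_step haω hab hoo⟩
  refine ⟨?_, h1.mono (key 1 self_mem_cluster), h2.mono (key s hsc), ?_⟩
  · exact reroot_edge.2 ⟨⟨hs, ho⟩, self_mem_cluster, hsc⟩
  · intro hc
    apply hns
    refine cluster_mono ?_ hc
    intro e he
    exact off_mono reroot_edge_le e (restr_le e he)

variable [Countable Γ] (p : unitInterval)

/-- the crossing term is bounded by the probability of a local event under the rerooted law -/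
lemma cross_le (hinv : ∀ γ x y, G.Adj (γ * x) (γ * y) ↔ G.Adj x y) (hconn : G.Connected)
    (hfin : ∀ x, (G.neighborSet x).Finite)
    (hth : perc Γ p {ω | (cluster G ω 1).Infinite} = 0) {n : ℕ} (han : aN G p n ≠ 0)
    (M : ℕ) {s : Γ} (hs : G.Adj 1 s) :
    cross G p n M 1 s ≤ aN G p n * rerootedLaw G p n {W | Loc G M s W.2} := by
  have hB : MeasurableSet {W : Sub Γ | Loc G M s W.2} := by
    have := (Loc.clopen hfin hconn M s).isOpen.measurableSet
    exact measurable_snd this
  rw [law_apply p hinv hconn hth n hB, ← mul_assoc, ENNReal.mul_inv_cancel han ?_, one_mul]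
  · unfold cross
    apply lintegral_mono
    intro ω
    simp only [Set.indicator_apply, Set.mem_ofPred_eq]
    split_ifs with h1 h2
    · exact le_rfl
    · exact absurd (loc_of_cross hs h1.1 h1.2.1 h1.2.2.1 h1.2.2.2) h2
    · exact bot_le
    · exact bot_le
  · unfold aN
    exact measure_ne_top _ _

lemma cross_shift (hinv : ∀ γ x y, G.Adj (γ * x) (γ * y) ↔ G.Adj x y) (hconn : G.Connected)
    (n M : ℕ) (x y : Γ) : cross G p n M x y = cross G p n M 1 (x⁻¹ * y) := by
  unfold cross
  have hmset : MeasurableSet {ω : Sym2 Γ → Bool | ω s(1, x⁻¹ * y) = true ∧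
        x⁻¹ * y ∉ cluster G (off ω s(1, x⁻¹ * y)) 1 ∧ Big G M (off ω s(1, x⁻¹ * y)) 1 ∧
        Big G M (off ω s(1, x⁻¹ * y)) (x⁻¹ * y)} :=
    (measurableSet_eq_fun (measurable_pi_apply _) measurable_const).inter
      (measurableSet_crossSet M 1 (x⁻¹ * y))
  rw [← lintegral_shift p x ((measurable_hcl n 1).indicator hmset)]
  apply lintegral_congr
  intro ω
  have hoff : off (shift x ω) s(1, x⁻¹ * y) = shift x (off ω s(x, y)) := by
    funext f
    by_cases hf : f = s(1, x⁻¹ * y)
    · subst hf
      rw [off_self, shift_mk]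
      simp [off_self]
    · rw [off_ne hf]
      unfold shift
      rw [off_ne]
      intro h
      apply hf
      apply sym2_map_injective x
      rw [h]
      simp
  have e1 : shift x ω s(1, x⁻¹ * y) = ω s(x, y) := by rw [shift_mk]; simp
  have e2 : ∀ ω' : Sym2 Γ → Bool, x⁻¹ * y ∈ cluster G (shift x ω') 1 ↔ y ∈ cluster G ω' x := by
    intro ω'
    rw [cluster_shift hinv]; simp
  have e3 : ∀ ω' : Sym2 Γ → Bool, Big G M (shift x ω') 1 ↔ Big G M ω' x := by
    intro ω'
    rw [← big_shift hinv]; simp
  have e4 : ∀ ω' : Sym2 Γ → Bool, Big G M (shift x ω') (x⁻¹ * y) ↔ Big G M ω' y := by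
    intro ω'
    rw [← big_shift hinv]; simp
  have e5 : hfun G n (cl G (shift x ω) 1) = hfun G n (cl G ω x) := by
    have := cl_shift hinv x ω 1
    rw [mul_one] at this
    rw [this, hfun_image hinv hconn]
  simp only [Set.indicator_apply, Set.mem_ofPred_eq, hoff, e1, e2, e3, e4, e5]

end Pool.Agent.H17.IIC
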