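import Mathlib
import Pool.Agent.H17.IIC.Loc

/-! Main argument: the density of the incipient infinite cluster tends to zero. -/

open MeasureTheory Set Filter Topology
open scoped ENNReal Classical Pointwise BoundedContinuousFunction

set_option linter.unusedSectionVars false

namespace Pool.Agent.H17.IIC

variable {Γ : Type*} [Group Γ] {G : SimpleGraph Γ} [Countable Γ] (p : unitInterval)

/-- `Q` is the law of an incipient infinite cluster: a subsequential weak limit of the laws of the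
rerooted clusters. -/
def IsIIC (G : SimpleGraph Γ) (p : unitInterval) (Q : Measure (Sub Γ)) : Prop :=
  IsProbabilityMeasure Q ∧ ∃ n : ℕ → ℕ, StrictMono n ∧
    ∀ f : Sub Γ →ᵇ ℝ, Tendsto (fun j => ∫ W, f W ∂(rerootedLaw G p (n j))) atTop
      (𝓝 (∫ W, f W ∂Q))

lemma ae_finite (hinv : ∀ γ x y, G.Adj (γ * x) (γ * y) ↔ G.Adj x y)
    (hth : perc Γ p {ω | (cluster G ω 1).Infinite} = 0) :
    ∀ᵐ ω ∂(perc Γ p), ∀ x, (cluster G ω x).Finite := by
  rw [ae_all_iff]
  intro x
  rw [ae_iff]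
  have h1 : MeasurableSet {ω : Sym2 Γ → Bool | ¬ (cluster G ω 1).Finite} := by
    have : {ω : Sym2 Γ → Bool | ¬ (cluster G ω 1).Finite} = ⋂ k : ℕ, {ω | Big G k ω 1} := by
      ext ω
      simp only [Set.mem_ofPred_eq, Set.mem_iInter]
      constructor
      · intro h k
        by_contra hc
        exact h (not_big_iff.1 hc).1
      · intro h
        exact infinite_of_big h
    rw [this]
    exact MeasurableSet.iInter (fun k => measurableSet_big k 1)
  have h2 : {ω : Sym2 Γ → Bool | ¬ (cluster G ω x).Finite}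
      = (shift x) ⁻¹' {ω | ¬ (cluster G ω 1).Finite} := by
    ext ω
    have := finite_shift hinv x ω 1
    rw [mul_one] at this
    simp only [Set.mem_ofPred_eq, Set.mem_preimage, this]
  rw [h2, ← Measure.map_apply (measurable_shift x) h1, map_shift]
  exact hth

lemma law_univ_le (hinv : ∀ γ x y, G.Adj (γ * x) (γ * y) ↔ G.Adj x y) (hconn : G.Connected)
    (hth : perc Γ p {ω | (cluster G ω 1).Infinite} = 0) (n : ℕ) :
    rerootedLaw G p n Set.univ ≤ 1 := by
  rw [law_apply p hinv hconn hth n MeasurableSet.univ]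
  have : ∫⁻ ω, {ω | reroot G 1 ω ∈ (Set.univ : Set (Sub Γ))}.indicator
          (fun ω => hfun G n (cl G ω 1)) ω ∂(perc Γ p) = aN G p n := by
    simp only [Set.mem_univ, Set.ofPred_true, Set.indicator_univ]
    exact mean_h p hinv hconn n 1
  rw [this]
  exact ENNReal.inv_mul_le_one _

lemma law_univ_zero (hinv : ∀ γ x y, G.Adj (γ * x) (γ * y) ↔ G.Adj x y) (hconn : G.Connected)
    (hth : perc Γ p {ω | (cluster G ω 1).Infinite} = 0) (n : ℕ) (h : aN G p n = 0) :
    rerootedLaw G p n Set.univ = 0 := by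
  rw [law_apply p hinv hconn hth n MeasurableSet.univ]
  have : ∫⁻ ω, {ω | reroot G 1 ω ∈ (Set.univ : Set (Sub Γ))}.indicator
          (fun ω => hfun G n (cl G ω 1)) ω ∂(perc Γ p) = aN G p n := by
    simp only [Set.mem_univ, Set.ofPred_true, Set.indicator_univ]
    exact mean_h p hinv hconn n 1
  rw [this, h, mul_zero]

/-- the basic error term -/
noncomputable def baseErr (G : SimpleGraph Γ) (p : unitInterval) (n M : ℕ) : ℝ≥0∞ :=
  (ENNReal.ofReal (p : ℝ))⁻¹ * ((((1 + M) * bsize G M : ℕ) : ℝ≥0∞) / n)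
    + (ENNReal.ofReal (1 - (p : ℝ)))⁻¹ * (M / n)
    + (ENNReal.ofReal (1 - (p : ℝ)))⁻¹ * tM G p M

theorem infl_bound (hinv : ∀ γ x y, G.Adj (γ * x) (γ * y) ↔ G.Adj x y) (hconn : G.Connected)
    (hfin : ∀ x, (G.neighborSet x).Finite)
    (hth : perc Γ p {ω | (cluster G ω 1).Infinite} = 0) (hp0 : (p : ℝ) ≠ 0) (hp1 : (p : ℝ) ≠ 1)
    {n M : ℕ} (hn : n ≠ 0) (han : aN G p n ≠ 0) {x y v : Γ} (hxy : G.Adj x y)
    (hx : M ≤ G.dist x v) (hy : M ≤ G.dist y v) :
    ∫⁻ ω, infl s(x, y) (fun ω => hfun G n (cl G ω v)) ω ∂(perc Γ p)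
      ≤ aN G p n * (2 * (baseErr G p n M + (ENNReal.ofReal (p : ℝ))⁻¹ *
          ∑ s ∈ (hfin 1).toFinset, rerootedLaw G p n {W | Loc G M s W.2})) := by
  have hmerr : ∀ x y : Γ, Measurable (err G n M x y) := by
    intro x y
    unfold err
    have hmoff : Measurable (fun ω : Sym2 Γ → Bool => hfun G n (cl G (off ω s(x, y)) x)) :=
      (measurable_hcl n x).comp (measurable_off s(x, y))
    have hmon : Measurable (fun ω : Sym2 Γ → Bool => hfun G n (cl G (on ω s(x, y)) x)) :=
      (measurable_hcl n x).comp (measurable_on s(x, y))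
    have hE3 : MeasurableSet {ω : Sym2 Γ → Bool | y ∉ cluster G (off ω s(x, y)) x ∧
        Big G M (off ω s(x, y)) y} :=
      ((measurable_off s(x, y)) (measurableSet_mem_cluster x y)).compl.inter
        ((measurable_off s(x, y)) (measurableSet_big M y))
    exact (((measurable_err1 n M x y).add (hmoff.mul_const _)).add (hmoff.indicator hE3)).add
      (hmon.indicator (measurableSet_crossSet M x y))
  have h1 : ∫⁻ ω, infl s(x, y) (fun ω => hfun G n (cl G ω v)) ω ∂(perc Γ p)
      ≤ ∫⁻ ω, err G n M x y ω ∂(perc Γ p) + ∫⁻ ω, err G n M y x ω ∂(perc Γ p) := by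
    rw [← lintegral_add_left (hmerr x y)]
    apply lintegral_mono_ae
    filter_upwards [ae_finite p hinv hth] with ω hω
    exact infl_le_err hn hxy ((hω x).subset (cluster_mono (off_le _)))
      ((hω y).subset (cluster_mono (off_le _))) hx hy
  have hcross : ∀ x y : Γ, G.Adj x y → cross G p n M x y
      ≤ aN G p n * ∑ s ∈ (hfin 1).toFinset, rerootedLaw G p n {W | Loc G M s W.2} := by
    intro x y hxy
    have hadj : G.Adj 1 (x⁻¹ * y) := by
      rw [← hinv x]; simpa using hxy
    rw [cross_shift p hinv hconn]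
    refine le_trans (cross_le p hinv hconn hfin hth han M hadj) ?_
    gcongr
    exact Finset.single_le_sum (f := fun s => rerootedLaw G p n {W | Loc G M s W.2})
      (fun _ _ => bot_le) (by simpa using hadj)
  have herr : ∀ x y : Γ, G.Adj x y → ∫⁻ ω, err G n M x y ω ∂(perc Γ p)
      ≤ aN G p n * (baseErr G p n M + (ENNReal.ofReal (p : ℝ))⁻¹ *
          ∑ s ∈ (hfin 1).toFinset, rerootedLaw G p n {W | Loc G M s W.2}) := by
    intro x y hxy
    refine le_trans (mean_err p hinv hconn hfin hp0 hp1 n M hxy) ?_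
    calc _ ≤ (ENNReal.ofReal (p : ℝ))⁻¹ * ((((1 + M) * bsize G M : ℕ) : ℝ≥0∞) / n * aN G p n)
        + (ENNReal.ofReal (1 - (p : ℝ)))⁻¹ * aN G p n * (M / n)
        + (ENNReal.ofReal (1 - (p : ℝ)))⁻¹ * aN G p n * tM G p M
        + (ENNReal.ofReal (p : ℝ))⁻¹ * (aN G p n *
            ∑ s ∈ (hfin 1).toFinset, rerootedLaw G p n {W | Loc G M s W.2}) := by
          gcongr
          exact hcross x y hxy
      _ = _ := by unfold baseErr; ring
  calc _ ≤ _ := h1
    _ ≤ aN G p n * (baseErr G p n M + (ENNReal.ofReal (p : ℝ))⁻¹ *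
          ∑ s ∈ (hfin 1).toFinset, rerootedLaw G p n {W | Loc G M s W.2})
        + aN G p n * (baseErr G p n M + (ENNReal.ofReal (p : ℝ))⁻¹ *
          ∑ s ∈ (hfin 1).toFinset, rerootedLaw G p n {W | Loc G M s W.2}) :=
        add_le_add (herr x y hxy) (herr y x hxy.symm)
    _ = _ := by ring

theorem phi_bound (hinv : ∀ γ x y, G.Adj (γ * x) (γ * y) ↔ G.Adj x y) (hconn : G.Connected)
    (hfin : ∀ x, (G.neighborSet x).Finite)
    (hth : perc Γ p {ω | (cluster G ω 1).Infinite} = 0) (hp0 : (p : ℝ) ≠ 0) (hp1 : (p : ℝ) ≠ 1)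
    {n : ℕ} (hn : n ≠ 0) (han : aN G p n ≠ 0) (r M : ℕ) {v : Γ} (hv : M + r + 1 ≤ G.dist 1 v) :
    rerootedLaw G p n {W | W.1 v = true}
      ≤ tM G p r + (touch_finite G hfin (ball_finite hconn hfin (1 : Γ) r)).toFinset.card *
        (2 * (baseErr G p n M + (ENNReal.ofReal (p : ℝ))⁻¹ *
          ∑ s ∈ (hfin 1).toFinset, rerootedLaw G p n {W | Loc G M s W.2})) := by
  set F := (touch_finite G hfin (ball_finite hconn hfin (1 : Γ) r)).toFinset with hF
  set E : ℝ≥0∞ := 2 * (baseErr G p n M + (ENNReal.ofReal (p : ℝ))⁻¹ *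
          ∑ s ∈ (hfin 1).toFinset, rerootedLaw G p n {W | Loc G M s W.2}) with hE
  have hB : MeasurableSet {W : Sub Γ | W.1 v = true} :=
    measurableSet_eq_fun ((measurable_pi_apply v).comp measurable_fst) measurable_const
  have hant : aN G p n ≠ ⊤ := measure_ne_top _ _
  have hcov := cov_bound p F (fun ω => hfun G n (cl G ω v))
    ({ω | Big G r ω 1}.indicator 1) (measurable_hcl n v)
    (measurable_one.indicator (measurableSet_big r 1)) ?_ ?_
  · have h1 : ∫⁻ ω, {ω | reroot G 1 ω ∈ {W : Sub Γ | W.1 v = true}}.indicator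
          (fun ω => hfun G n (cl G ω 1)) ω ∂(perc Γ p)
        ≤ ∫⁻ ω, hfun G n (cl G ω v) * ({ω | Big G r ω 1}.indicator 1) ω ∂(perc Γ p) := by
      apply lintegral_mono
      intro ω
      by_cases h : ω ∈ {ω | reroot G 1 ω ∈ {W : Sub Γ | W.1 v = true}}
      · rw [Set.indicator_of_mem h]
        have hvc : v ∈ cluster G ω 1 := by
          have : (reroot G 1 ω).1 v = true := h
          simpa [reroot] using this
        have hcl : cl G ω v = cl G ω 1 := cl_congr (cluster_eq_of_mem hvc)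
        have hbig : ω ∈ {ω | Big G r ω 1} := big_of_dist hvc (by omega)
        beta_reduce
        rw [Set.indicator_of_mem hbig, hcl]
        simp
      · rw [Set.indicator_of_notMem h]
        exact bot_le
    have h2 : ∑ e ∈ F, ∫⁻ ω, infl e (fun ω => hfun G n (cl G ω v)) ω ∂(prodBern (Sym2 Γ) p)
        ≤ F.card * (aN G p n * E) := by
      rw [← nsmul_eq_mul]
      apply Finset.sum_le_card_nsmul
      intro e he
      rw [hF, Set.Finite.mem_toFinset] at he
      obtain ⟨x, hx, y, hxy, rfl⟩ := he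
      have hx' : G.dist 1 x ≤ r := hx
      have t1 : G.dist 1 v ≤ G.dist 1 x + G.dist x v := hconn.dist_triangle
      have t2 : G.dist x v ≤ G.dist x y + G.dist y v := hconn.dist_triangle
      have t3 : G.dist x y = 1 := SimpleGraph.dist_eq_one_iff_adj.2 hxy
      exact infl_bound p hinv hconn hfin hth hp0 hp1 hn han hxy (by omega) (by omega)
    rw [law_apply p hinv hconn hth n hB]
    have h3 : ∫⁻ ω, hfun G n (cl G ω v) ∂(prodBern (Sym2 Γ) p) = aN G p n :=
      mean_h p hinv hconn n v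
    have h4 : ∫⁻ ω, ({ω | Big G r ω 1}.indicator (1 : (Sym2 Γ → Bool) → ℝ≥0∞)) ω
        ∂(prodBern (Sym2 Γ) p) = tM G p r := by
      rw [lintegral_indicator_one (measurableSet_big r 1)]
      rfl
    rw [h3, h4] at hcov
    calc (aN G p n)⁻¹ * ∫⁻ ω, {ω | reroot G 1 ω ∈ {W : Sub Γ | W.1 v = true}}.indicator
          (fun ω => hfun G n (cl G ω 1)) ω ∂(perc Γ p)
        ≤ (aN G p n)⁻¹ * (aN G p n * tM G p r + F.card * (aN G p n * E)) := by
          gcongr
          exact le_trans h1 (le_trans hcov (by gcongr))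
      _ = (aN G p n)⁻¹ * aN G p n * (tM G p r + F.card * E) := by ring
      _ = _ := by rw [ENNReal.inv_mul_cancel han hant, one_mul]
  · intro ω ω' hag
    have : Big G r ω 1 ↔ Big G r ω' 1 :=
      big_local (fun e he => hag e (by simpa [hF] using he))
    simp only [Set.indicator_apply, Set.mem_ofPred_eq, this, Pi.one_apply]
  · intro ω
    simp only [Set.indicator_apply, Pi.one_apply]
    split_ifs <;> simp

lemma tM_tendsto (hth : perc Γ p {ω | (cluster G ω 1).Infinite} = 0) :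
    Tendsto (tM G p) atTop (𝓝 0) := by
  have h := tendsto_measure_iInter_atTop (μ := perc Γ p) (s := fun k : ℕ => {ω | Big G k ω 1})
    (fun k => (measurableSet_big k 1).nullMeasurableSet)
    (fun k l hkl ω hω => Big.anti hkl hω) ⟨0, measure_ne_top _ _⟩
  have h0 : perc Γ p (⋂ k : ℕ, {ω | Big G k ω 1}) = 0 := by
    apply measure_mono_null _ hth
    intro ω hω
    rw [Set.mem_iInter] at hω
    exact infinite_of_big hω
  rw [h0] at h
  exact h

lemma loc_tendsto (hfin : ∀ x, (G.neighborSet x).Finite) (hconn : G.Connected)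
    {Q : Measure (Sub Γ)} [IsProbabilityMeasure Q]
    (h2 : ∀ᵐ W ∂Q, ¬ TwoRays G W.2) (s : Γ) :
    Tendsto (fun k => Q {W | Loc G k s W.2}) atTop (𝓝 0) := by
  have hmeas : ∀ k, MeasurableSet {W : Sub Γ | Loc G k s W.2} := fun k =>
    measurable_snd (Loc.clopen hfin hconn k s).isOpen.measurableSet
  have h := tendsto_measure_iInter_atTop (μ := Q) (s := fun k : ℕ => {W : Sub Γ | Loc G k s W.2})
    (fun k => (hmeas k).nullMeasurableSet)
    (fun k l hkl ω hω => Loc.anti hkl hω) ⟨0, measure_ne_top _ _⟩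
  have h0 : Q (⋂ k : ℕ, {W | Loc G k s W.2}) = 0 := by
    rw [ae_iff] at h2
    apply measure_mono_null _ h2
    intro W hW
    rw [Set.mem_iInter] at hW
    show ¬ ¬ TwoRays G W.2
    rw [not_not]
    exact twoRays_of_loc hfin hW
  rw [h0] at h
  exact h

lemma law_tendsto (hinv : ∀ γ x y, G.Adj (γ * x) (γ * y) ↔ G.Adj x y) (hconn : G.Connected)
    (hth : perc Γ p {ω | (cluster G ω 1).Infinite} = 0)
    {Q : Measure (Sub Γ)} [IsProbabilityMeasure Q] {n : ℕ → ℕ}
    (hlim : ∀ f : Sub Γ →ᵇ ℝ, Tendsto (fun j => ∫ W, f W ∂(rerootedLaw G p (n j))) atTop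
      (𝓝 (∫ W, f W ∂Q))) {B : Set (Sub Γ)} (hB : IsClopen B) (hBm : MeasurableSet B) :
    Tendsto (fun j => rerootedLaw G p (n j) B) atTop (𝓝 (Q B)) := by
  have h := hlim (BoundedContinuousFunction.indicator B hB)
  have hint : ∀ ν : Measure (Sub Γ), ∫ W, (BoundedContinuousFunction.indicator B hB) W ∂ν
      = ν.real B := by
    intro ν
    simp only [BoundedContinuousFunction.indicator_apply]
    exact integral_indicator_one hBm
  simp only [hint] at h
  have h' := (ENNReal.continuous_ofReal.tendsto _).comp h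
  have hq : ENNReal.ofReal (Q.real B) = Q B := by
    rw [Measure.real, ENNReal.ofReal_toReal (measure_ne_top _ _)]
  rw [hq] at h'
  refine h'.congr (fun j => ?_)
  have hne : rerootedLaw G p (n j) B ≠ ⊤ := by
    have := law_univ_le p hinv hconn hth (n j)
    exact ne_top_of_le_ne_top (ne_top_of_le_ne_top ENNReal.one_ne_top this)
      (measure_mono (Set.subset_univ B))
  simp only [Function.comp_apply]
  rw [Measure.real, ENNReal.ofReal_toReal hne]

lemma p_ne_zero {n : ℕ} (hn : n ≠ 0) (han : aN G p n ≠ 0) : (p : ℝ) ≠ 0 := by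
  intro hp
  apply han
  have h1 : ∀ e : Sym2 Γ, ∀ᵐ ω ∂(perc Γ p), ω e = false := by
    intro e
    have hm : MeasurableSet {ω : Sym2 Γ → Bool | ω e = true} :=
      measurableSet_eq_fun (measurable_pi_apply _) measurable_const
    rw [ae_iff]
    have : {ω : Sym2 Γ → Bool | ¬ ω e = false} = {ω | ω e = true} := by
      ext ω; simp
    rw [this, ← lintegral_indicator_one hm]
    unfold perc
    rw [resample p e (measurable_one.indicator hm), hp]
    simp [Set.indicator_apply]
  have h2 : ∀ᵐ ω ∂(perc Γ p), ∀ e, ω e = false := ae_all_iff.2 h1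
  unfold aN
  rw [measure_eq_zero_iff_ae_notMem]
  filter_upwards [h2] with ω hω
  rintro ⟨z, hz, hd⟩
  apply hn
  have hz' := (mem_cl_iff.1 hz).2
  have : z = 1 := by
    refine cluster_induction (P := fun z => z = 1) rfl ?_ z hz'
    intro a _ _ b _ ho
    rw [hω] at ho
    exact absurd ho (by simp)
  rw [this] at hd
  simpa using hd.symm

lemma p_ne_one [Infinite Γ] (hconn : G.Connected)
    (hth : perc Γ p {ω | (cluster G ω 1).Infinite} = 0) : (p : ℝ) ≠ 1 := by
  intro hp
  have h1 : ∀ e : Sym2 Γ, ∀ᵐ ω ∂(perc Γ p), ω e = true := by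
    intro e
    have hm : MeasurableSet {ω : Sym2 Γ → Bool | ω e = false} :=
      measurableSet_eq_fun (measurable_pi_apply _) measurable_const
    rw [ae_iff]
    have : {ω : Sym2 Γ → Bool | ¬ ω e = true} = {ω | ω e = false} := by
      ext ω; simp
    rw [this, ← lintegral_indicator_one hm]
    unfold perc
    rw [resample p e (measurable_one.indicator hm), hp]
    simp [Set.indicator_apply]
  have h2 : ∀ᵐ ω ∂(perc Γ p), ∀ e, ω e = true := ae_all_iff.2 h1
  have h3 : ∀ᵐ ω ∂(perc Γ p), (cluster G ω 1).Infinite := by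
    filter_upwards [h2] with ω hω
    have : cluster G ω 1 = Set.univ := by
      ext y
      simp only [Set.mem_univ, iff_true]
      have hG : openG G ω = G := by
        ext a b
        simp [openG, hω]
      show (openG G ω).Reachable 1 y
      rw [hG]
      exact hconn.preconnected 1 y
    rw [this]
    exact Set.infinite_univ
  have h4 := measure_eq_zero_iff_ae_notMem.1 hth
  obtain ⟨ω, hω1, hω2⟩ := (h3.and h4).exists
  exact hω2 hω1

/-- **Main theorem** (general left-invariant graphs). -/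
theorem main [Infinite Γ] (hinv : ∀ γ x y, G.Adj (γ * x) (γ * y) ↔ G.Adj x y) (hconn : G.Connected)
    (hfin : ∀ x, (G.neighborSet x).Finite)
    (hth : perc Γ p {ω | (cluster G ω 1).Infinite} = 0) {Q : Measure (Sub Γ)}
    (hQ : IsIIC G p Q) (h2 : ∀ᵐ W ∂Q, ¬ TwoRays G W.2) (ε : ℝ≥0∞) (hε : 0 < ε) :
    ∃ R : ℕ, ∀ v : Γ, R ≤ G.dist 1 v → Q {W | W.1 v = true} ≤ ε := by
  obtain ⟨hprob, n, hnmono, hlim⟩ := hQ
  have hp1 : (p : ℝ) ≠ 1 := p_ne_one p hconn hth
  -- eventually `a_n ≠ 0`
  have hev : ∀ᶠ j in atTop, aN G p (n j) ≠ 0 := by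
    have h := law_tendsto p hinv hconn hth hlim isClopen_univ MeasurableSet.univ
    rw [measure_univ] at h
    have h' : ∀ᶠ j in atTop, rerootedLaw G p (n j) Set.univ ≠ 0 :=
      h.eventually_ne one_ne_zero
    filter_upwards [h'] with j hj h0
    exact hj (law_univ_zero p hinv hconn hth (n j) h0)
  have hp0 : (p : ℝ) ≠ 0 := by
    obtain ⟨j, hj1, hj2⟩ := (hev.and (eventually_ge_atTop 1)).exists
    have hnj : n j ≠ 0 := by
      have := hnmono.id_le j
      simp only [id] at this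
      omega
    exact p_ne_zero p hnj hj1
  have hpi : (ENNReal.ofReal (p : ℝ))⁻¹ ≠ ⊤ := by
    rw [ENNReal.inv_ne_top, Ne, ENNReal.ofReal_eq_zero, not_le]
    exact lt_of_le_of_ne p.2.1 (Ne.symm hp0)
  have hqi : (ENNReal.ofReal (1 - (p : ℝ)))⁻¹ ≠ ⊤ := by
    rw [ENNReal.inv_ne_top, Ne, ENNReal.ofReal_eq_zero, not_le]
    have := lt_of_le_of_ne p.2.2 hp1
    linarith
  -- choose r
  have hr : ∀ᶠ r in atTop, tM G p r ≤ ε / 2 :=
    (tM_tendsto p hth).eventually_le_const (ENNReal.half_pos hε.ne')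
  obtain ⟨r, hr⟩ := hr.exists
  set c : ℝ≥0∞ := ((touch_finite G hfin (ball_finite hconn hfin (1 : Γ) r)).toFinset.card : ℝ≥0∞)
    with hc
  have hct : c ≠ ⊤ := ENNReal.natCast_ne_top _
  -- choose M
  have hM0 : Tendsto (fun M => c * (2 * ((ENNReal.ofReal (1 - (p : ℝ)))⁻¹ * tM G p M
      + (ENNReal.ofReal (p : ℝ))⁻¹ * ∑ s ∈ (hfin 1).toFinset, Q {W | Loc G M s W.2}))) atTop
      (𝓝 0) := by
    have e1 : Tendsto (fun M => (ENNReal.ofReal (1 - (p : ℝ)))⁻¹ * tM G p M) atTop (𝓝 0) := by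
      have := ENNReal.Tendsto.const_mul (tM_tendsto (G := G) p hth) (Or.inr hqi)
      rwa [mul_zero] at this
    have e2 : Tendsto (fun M => ∑ s ∈ (hfin 1).toFinset, Q {W | Loc G M s W.2}) atTop (𝓝 0) := by
      have := tendsto_finset_sum (hfin 1).toFinset
        (fun s _ => loc_tendsto (Q := Q) hfin hconn h2 s)
      simpa using this
    have e3 : Tendsto (fun M => (ENNReal.ofReal (p : ℝ))⁻¹ *
        ∑ s ∈ (hfin 1).toFinset, Q {W | Loc G M s W.2}) atTop (𝓝 0) := by
      have := ENNReal.Tendsto.const_mul e2 (Or.inr hpi)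
      rwa [mul_zero] at this
    have e4 := e1.add e3
    rw [add_zero] at e4
    have e5 := ENNReal.Tendsto.const_mul (a := 2) e4 (Or.inr (by simp))
    rw [mul_zero] at e5
    have e6 := ENNReal.Tendsto.const_mul (a := c) e5 (Or.inr hct)
    rwa [mul_zero] at e6
  obtain ⟨M, hM⟩ := (hM0.eventually_le_const (ENNReal.half_pos hε.ne')).exists
  refine ⟨M + r + 1, fun v hv => ?_⟩
  -- pass to the limit
  have hninf : Tendsto n atTop atTop := hnmono.tendsto_atTop
  have hinvn : Tendsto (fun j => ((n j : ℕ) : ℝ≥0∞)⁻¹) atTop (𝓝 0) :=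
    ENNReal.tendsto_inv_nat_nhds_zero.comp hninf
  have hBclopen : IsClopen {W : Sub Γ | W.1 v = true} := by
    have hcont : Continuous (fun W : Sub Γ => W.1 v) := (continuous_apply v).comp continuous_fst
    exact (isClopen_discrete {true}).preimage hcont
  have hBm : MeasurableSet {W : Sub Γ | W.1 v = true} :=
    measurableSet_eq_fun ((measurable_pi_apply v).comp measurable_fst) measurable_const
  have hL := law_tendsto p hinv hconn hth hlim hBclopen hBm
  have hbase : Tendsto (fun j => baseErr G p (n j) M) atTop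
      (𝓝 ((ENNReal.ofReal (1 - (p : ℝ)))⁻¹ * tM G p M)) := by
    unfold baseErr
    have e1 : Tendsto (fun j => (ENNReal.ofReal (p : ℝ))⁻¹ *
        ((((1 + M) * bsize G M : ℕ) : ℝ≥0∞) / (n j))) atTop (𝓝 0) := by
      have a1 := ENNReal.Tendsto.const_mul (a := (((1 + M) * bsize G M : ℕ) : ℝ≥0∞)) hinvn
        (Or.inr (ENNReal.natCast_ne_top _))
      rw [mul_zero] at a1
      have a2 := ENNReal.Tendsto.const_mul (a := (ENNReal.ofReal (p : ℝ))⁻¹) a1 (Or.inr hpi)
      rw [mul_zero] at a2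
      simpa only [div_eq_mul_inv] using a2
    have e2 : Tendsto (fun j => (ENNReal.ofReal (1 - (p : ℝ)))⁻¹ * ((M : ℝ≥0∞) / (n j))) atTop
        (𝓝 0) := by
      have a1 := ENNReal.Tendsto.const_mul (a := (M : ℝ≥0∞)) hinvn
        (Or.inr (ENNReal.natCast_ne_top _))
      rw [mul_zero] at a1
      have a2 := ENNReal.Tendsto.const_mul (a := (ENNReal.ofReal (1 - (p : ℝ)))⁻¹) a1 (Or.inr hqi)
      rw [mul_zero] at a2
      simpa only [div_eq_mul_inv] using a2
    have := (e1.add e2).add (tendsto_const_nhds (x := (ENNReal.ofReal (1 - (p : ℝ)))⁻¹ * tM G p M))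
    simpa using this
  have hloc : Tendsto (fun j => ∑ s ∈ (hfin 1).toFinset, rerootedLaw G p (n j) {W | Loc G M s W.2})
      atTop (𝓝 (∑ s ∈ (hfin 1).toFinset, Q {W | Loc G M s W.2})) := by
    apply tendsto_finset_sum
    intro s _
    have hcl := (Loc.clopen hfin hconn M s).preimage (continuous_snd (X := Γ → Bool))
    exact law_tendsto p hinv hconn hth hlim hcl
      (measurable_snd (Loc.clopen hfin hconn M s).isOpen.measurableSet)
  have hR : Tendsto (fun j => tM G p r + c * (2 * (baseErr G p (n j) M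
      + (ENNReal.ofReal (p : ℝ))⁻¹ *
          ∑ s ∈ (hfin 1).toFinset, rerootedLaw G p (n j) {W | Loc G M s W.2}))) atTop
      (𝓝 (tM G p r + c * (2 * ((ENNReal.ofReal (1 - (p : ℝ)))⁻¹ * tM G p M
      + (ENNReal.ofReal (p : ℝ))⁻¹ * ∑ s ∈ (hfin 1).toFinset, Q {W | Loc G M s W.2})))) := by
    have a1 := ENNReal.Tendsto.const_mul (a := (ENNReal.ofReal (p : ℝ))⁻¹) hloc (Or.inr hpi)
    have a2 := ENNReal.Tendsto.const_mul (a := 2) (hbase.add a1) (Or.inr (by simp))
    have a3 := ENNReal.Tendsto.const_mul (a := c) a2 (Or.inr hct)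
    exact tendsto_const_nhds.add a3
  have hfinal : Q {W | W.1 v = true} ≤ tM G p r + c * (2 * ((ENNReal.ofReal (1 - (p : ℝ)))⁻¹ * tM G p M
      + (ENNReal.ofReal (p : ℝ))⁻¹ * ∑ s ∈ (hfin 1).toFinset, Q {W | Loc G M s W.2})) := by
    refine le_of_tendsto_of_tendsto hL hR ?_
    filter_upwards [hev, eventually_ge_atTop 1] with j hj1 hj2
    have hnj : n j ≠ 0 := by
      have := hnmono.id_le j
      simp only [id] at this
      omega
    exact phi_bound p hinv hconn hfin hth hp0 hp1 hnj hj1 r M hv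
  calc Q {W | W.1 v = true} ≤ _ := hfinal
    _ ≤ ε / 2 + ε / 2 := add_le_add hr hM
    _ = ε := ENNReal.add_halves ε

end Pool.Agent.H17.IIC
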