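import Mathlib
import Pool.Agent.H17.IIC.Main

/-! Interface for the joint proof of the zero density of the incipient infinite cluster
(MP_eba14c_pr).

* `DCTStatement`   (DCT)  : sharpness at the critical point, and `χ < ∞` below it;
* `BLPSStatement`  (BLPS) : no infinite cluster at criticality on nonamenable graphs;
* `PivStatement`   (A)    : the expected ratio (number of pivotal edges) / (size) tends to `0`;
* `FStatement`     (F)    : zero density from (A).

Everything is stated for a left-invariant, connected, locally finite graph on a countable infinite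
group. -/

open MeasureTheory Set Filter Topology
open scoped ENNReal Classical

set_option linter.unusedSectionVars false

namespace Pool.Agent.H17.IIC

/-- `G` is a (right) Cayley graph: left-invariant, connected and locally finite. -/
structure CayleyLike {Γ : Type*} [Group Γ] (G : SimpleGraph Γ) : Prop where
  inv : ∀ γ x y, G.Adj (γ * x) (γ * y) ↔ G.Adj x y
  conn : G.Connected
  fin : ∀ x, (G.neighborSet x).Finite

/-- the edges of `G` with exactly one endpoint in `S` -/
def bdry {V : Type*} (G : SimpleGraph V) (S : Set V) : Set (Sym2 V) :=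
  {e | ∃ x ∈ S, ∃ y ∉ S, G.Adj x y ∧ e = s(x, y)}

/-- positive edge-isoperimetric constant -/
def Nonamenable {V : Type*} (G : SimpleGraph V) : Prop :=
  ∃ h : ℝ, 0 < h ∧ ∀ S : Finset V, S.Nonempty → h * S.card ≤ (bdry G S).ncard

/-- `θ(p) = 0` -/
def ThetaZero {Γ : Type*} [Group Γ] (G : SimpleGraph Γ) (p : unitInterval) : Prop :=
  perc Γ p {ω | (cluster G ω 1).Infinite} = 0

/-- `p = p_c`: no infinite cluster below `p`, infinite clusters with positive probability
above `p`. -/
def IsCritical {Γ : Type*} [Group Γ] (G : SimpleGraph Γ) (p : unitInterval) : Prop :=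
  (∀ q : unitInterval, q < p → ThetaZero G q) ∧ (∀ q : unitInterval, p < q → ¬ ThetaZero G q)

/-- the expected size of the cluster of the identity -/
noncomputable def chi {Γ : Type*} [Group Γ] (G : SimpleGraph Γ) (p : unitInterval) : ℝ≥0∞ :=
  ∫⁻ ω, ((cluster G ω 1).encard : ℝ≥0∞) ∂(perc Γ p)

/-- the truncated expected size `E[min(|C|, t)]` of the cluster of the identity -/
noncomputable def fT {Γ : Type*} [Group Γ] (G : SimpleGraph Γ) (p : unitInterval) (t : ℕ) : ℝ≥0∞ :=
  ∫⁻ ω, ((min (cluster G ω 1).encard (t : ℕ∞) : ℕ∞) : ℝ≥0∞) ∂(perc Γ p)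

/-- the cluster of `x` meets the sphere of radius `n` about `x` -/
def Reach {V : Type*} (G : SimpleGraph V) (n : ℕ) (ω : Sym2 V → Bool) (x : V) : Prop :=
  ∃ z ∈ cluster G ω x, G.dist x z = n

/-- the open pivotal edges for the event `Reach G n ω x` -/
def piv {V : Type*} (G : SimpleGraph V) (n : ℕ) (ω : Sym2 V → Bool) (x : V) : Set (Sym2 V) :=
  {e | ω e = true ∧ Reach G n ω x ∧ ¬ Reach G n (off ω e) x}

/-- `E[ 1(A_n) M_n / |C| ]`: expected number of open pivotal edges over the size of the cluster -/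
noncomputable def pivRatio {Γ : Type*} [Group Γ] (G : SimpleGraph Γ) (p : unitInterval) (n : ℕ) :
    ℝ≥0∞ :=
  ∫⁻ ω, ((piv G n ω 1).ncard : ℝ≥0∞) / ((cluster G ω 1).encard : ℝ≥0∞) ∂(perc Γ p)

/-- `θ_n = P(A_n)` -/
noncomputable def thetaN {Γ : Type*} [Group Γ] (G : SimpleGraph Γ) (p : unitInterval) (n : ℕ) :
    ℝ≥0∞ :=
  perc Γ p {ω | Reach G n ω 1}

/-- (DCT), to be proved as a theorem -/
def DCTStatement {Γ : Type*} [Group Γ] (G : SimpleGraph Γ) (p : unitInterval) : Prop :=
  IsCritical G p → (p : ℝ) ≠ 0 → (p : ℝ) ≠ 1 →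
    (∀ q : unitInterval, q < p → chi G q ≠ ⊤) ∧
    ∃ c : ℝ, 0 < c ∧ ∀ t : ℕ, ENNReal.ofReal (c * Real.sqrt t) ≤ fT G p t

/-- (BLPS), to be proved as a theorem -/
def BLPSStatement {Γ : Type*} [Group Γ] (G : SimpleGraph Γ) (p : unitInterval) : Prop :=
  Nonamenable G → IsCritical G p → ThetaZero G p

/-- (A), to be proved as a theorem -/
def PivStatement {Γ : Type*} [Group Γ] (G : SimpleGraph Γ) (p : unitInterval) : Prop :=
  (p : ℝ) ≠ 0 → (p : ℝ) ≠ 1 → ThetaZero G p →
    (∃ c : ℝ, 0 < c ∧ ∀ t : ℕ, ENNReal.ofReal (c * Real.sqrt t) ≤ fT G p t) →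
    Tendsto (fun n => (thetaN G p n)⁻¹ * pivRatio G p n) atTop (𝓝 0)

/-- (F), to be proved as a theorem -/
def FStatement {Γ : Type*} [Group Γ] (G : SimpleGraph Γ) (p : unitInterval) : Prop :=
  (p : ℝ) ≠ 0 → (p : ℝ) ≠ 1 → ThetaZero G p →
    Tendsto (fun n => (thetaN G p n)⁻¹ * pivRatio G p n) atTop (𝓝 0) →
    ∀ Q : Measure (Sub Γ), IsIIC G p Q →
      ∀ ε : ℝ≥0∞, 0 < ε → ∃ R : ℕ, ∀ v : Γ, R ≤ G.dist 1 v → Q {W | W.1 v = true} ≤ ε

/-- the full statement -/
def ZeroDensity {Γ : Type*} [Group Γ] (G : SimpleGraph Γ) (p : unitInterval) : Prop :=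
  ∀ Q : Measure (Sub Γ), IsIIC G p Q →
    ∀ ε : ℝ≥0∞, 0 < ε → ∃ R : ℕ, ∀ v : Γ, R ≤ G.dist 1 v → Q {W | W.1 v = true} ≤ ε

/-- how the four pieces fit together -/
theorem glue {Γ : Type*} [Group Γ] [Countable Γ] [Infinite Γ] {G : SimpleGraph Γ}
    (hG : CayleyLike G) (hna : Nonamenable G) (p : unitInterval) (hcrit : IsCritical G p)
    (hDCT : DCTStatement G p) (hBLPS : BLPSStatement G p) (hA : PivStatement G p)
    (hF : FStatement G p) : ZeroDensity G p := by
  intro Q hQ
  have hth : ThetaZero G p := hBLPS hna hcrit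
  have hp1 : (p : ℝ) ≠ 1 := p_ne_one p hG.conn hth
  have hp0 : (p : ℝ) ≠ 0 := by
    obtain ⟨hprob, n, hnmono, hlim⟩ := hQ
    have hev : ∀ᶠ j in atTop, aN G p (n j) ≠ 0 := by
      have h := law_tendsto p hG.inv hG.conn hth hlim isClopen_univ MeasurableSet.univ
      rw [measure_univ] at h
      have h' : ∀ᶠ j in atTop, rerootedLaw G p (n j) Set.univ ≠ 0 :=
        h.eventually_ne one_ne_zero
      filter_upwards [h'] with j hj h0
      exact hj (law_univ_zero p hG.inv hG.conn hth (n j) h0)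
    obtain ⟨j, hj1, hj2⟩ := (hev.and (eventually_ge_atTop 1)).exists
    have hnj : n j ≠ 0 := by
      have := hnmono.id_le j
      simp only [id] at this
      omega
    exact p_ne_zero p hnj hj1
  obtain ⟨_, hf⟩ := hDCT hcrit hp0 hp1
  exact hF hp0 hp1 hth (hA hp0 hp1 hth hf) Q hQ

end Pool.Agent.H17.IIC
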