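import Mathlib
import Pool.Agent.H17.IIC.Interface

/-! (F): the influence of a far edge on `h_n` in terms of the expected ratio
(number of pivotal edges) / (size of the cluster), and the zero density theorem modulo (A). -/

open MeasureTheory Set Filter Topology
open scoped ENNReal Classical Pointwise

set_option linter.unusedSectionVars false

namespace Pool.Agent.H17.IIC

variable {Γ : Type*} [Group Γ] {G : SimpleGraph Γ} [Countable Γ]

lemma measurableSet_Reach (n : ℕ) (x : Γ) : MeasurableSet {ω : Sym2 Γ → Bool | Reach G n ω x} := by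
  have : {ω : Sym2 Γ → Bool | Reach G n ω x}
      = ⋃ z, ({ω | z ∈ cluster G ω x} ∩ {_ω | G.dist x z = n}) := by
    ext ω; simp [Reach]
  rw [this]
  exact MeasurableSet.iUnion (fun z => (measurableSet_mem_cluster x z).inter (MeasurableSet.const _))

lemma measurableSet_piv (n : ℕ) (x : Γ) (e : Sym2 Γ) :
    MeasurableSet {ω : Sym2 Γ → Bool | e ∈ piv G n ω x} := by
  have : {ω : Sym2 Γ → Bool | e ∈ piv G n ω x}
      = {ω | ω e = true} ∩ ({ω | Reach G n ω x} ∩ {ω | Reach G n (off ω e) x}ᶜ) := by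
    ext ω; simp [piv]
  rw [this]
  exact (measurableSet_eq_fun (measurable_pi_apply _) measurable_const).inter
    ((measurableSet_Reach n x).inter ((measurable_off e) (measurableSet_Reach n x)).compl)

lemma encard_eq (ω : Sym2 Γ → Bool) (x : Γ) : ((cluster G ω x).encard : ℝ≥0∞)
    = (fun K : Finset Γ => if K = ∅ then (⊤ : ℝ≥0∞) else (K.card : ℝ≥0∞)) (cl G ω x) := by
  by_cases hf : (cluster G ω x).Finite
  · have hne : cl G ω x ≠ ∅ := by
      intro h
      have : x ∈ cl G ω x := (mem_cl_of_finite hf).2 self_mem_cluster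
      rw [h] at this
      simp at this
    simp only [hne, if_false]
    rw [← cl_eq_of_finite hf, Set.encard_coe_eq_coe_finsetCard]
    simp
  · rw [cl_eq_empty hf]
    have : (cluster G ω x).encard = ⊤ := Set.encard_eq_top hf
    simp [this]

lemma measurable_encard (x : Γ) :
    Measurable (fun ω : Sym2 Γ → Bool => ((cluster G ω x).encard : ℝ≥0∞)) := by
  simp only [encard_eq]
  exact measurable_cl_fun (G := G) x (fun K : Finset Γ => if K = ∅ then (⊤ : ℝ≥0∞) else (K.card : ℝ≥0∞))

lemma reach_shift (hinv : ∀ γ x y, G.Adj (γ * x) (γ * y) ↔ G.Adj x y) (hconn : G.Connected)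
    (n : ℕ) (γ : Γ) (ω : Sym2 Γ → Bool) (x : Γ) :
    Reach G n ω (γ * x) ↔ Reach G n (shift γ ω) x := by
  unfold Reach
  constructor
  · rintro ⟨z, hz, hd⟩
    refine ⟨γ⁻¹ * z, (cluster_shift hinv γ ω x _).2 (by simpa using hz), ?_⟩
    rw [← dist_shift hinv hconn γ]
    simpa using hd
  · rintro ⟨z, hz, hd⟩
    exact ⟨γ * z, (cluster_shift hinv γ ω x z).1 hz, by rw [dist_shift hinv hconn, hd]⟩

lemma shift_off (γ : Γ) (ω : Sym2 Γ → Bool) (e : Sym2 Γ) :
    shift γ (off ω (e.map (fun v => γ * v))) = off (shift γ ω) e := by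
  funext f
  by_cases h : f = e
  · subst h
    rw [off_self]
    unfold shift
    rw [off_self]
  · rw [off_ne h]
    unfold shift
    rw [off_ne (fun h' => h (sym2_map_injective γ h'))]

lemma piv_shift (hinv : ∀ γ x y, G.Adj (γ * x) (γ * y) ↔ G.Adj x y) (hconn : G.Connected)
    (n : ℕ) (γ : Γ) (ω : Sym2 Γ → Bool) (x : Γ) (e : Sym2 Γ) :
    e.map (fun v => γ * v) ∈ piv G n ω (γ * x) ↔ e ∈ piv G n (shift γ ω) x := by
  unfold piv
  simp only [Set.mem_ofPred_eq]
  rw [reach_shift hinv hconn, reach_shift hinv hconn, shift_off]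
  rfl

lemma encard_shift (hinv : ∀ γ x y, G.Adj (γ * x) (γ * y) ↔ G.Adj x y) (γ : Γ)
    (ω : Sym2 Γ → Bool) (x : Γ) :
    (cluster G ω (γ * x)).encard = (cluster G (shift γ ω) x).encard := by
  rw [cluster_shift_eq hinv, (mul_right_injective γ).injOn.encard_image]

/-- the mass sent by `z` to `y` if the edge `[y, y s]` is pivotal for `z` -/
noncomputable def sendP (G : SimpleGraph Γ) (n : ℕ) (s : Γ) (ω : Sym2 Γ → Bool) (z y : Γ) : ℝ≥0∞ :=
  if s(y, y * s) ∈ piv G n ω z then ((cluster G ω z).encard : ℝ≥0∞)⁻¹ else 0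

lemma measurable_sendP (n : ℕ) (s z y : Γ) : Measurable (fun ω => sendP G n s ω z y) :=
  Measurable.ite (measurableSet_piv n z _) (measurable_encard z).inv measurable_const

lemma sendP_shift (hinv : ∀ γ x y, G.Adj (γ * x) (γ * y) ↔ G.Adj x y) (hconn : G.Connected)
    (n : ℕ) (s γ : Γ) (ω : Sym2 Γ → Bool) (z y : Γ) :
    sendP G n s ω (γ * z) (γ * y) = sendP G n s (shift γ ω) z y := by
  unfold sendP
  rw [encard_shift hinv]
  have h : s(γ * y, γ * y * s) = (s(y, y * s) : Sym2 Γ).map (fun v => γ * v) := by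
    simp [mul_assoc]
  rw [h, piv_shift hinv hconn]

/-- an open pivotal edge touches the cluster -/
lemma piv_subset_touch (n : ℕ) (ω : Sym2 Γ → Bool) (x : Γ) :
    piv G n ω x ⊆ touch G (cluster G ω x) := by
  rintro e ⟨he, ⟨z, hz, hd⟩, hn⟩
  by_contra hc
  apply hn
  refine ⟨z, ?_, hd⟩
  have : cluster G (off ω e) x = cluster G ω x := by
    apply cluster_congr
    intro f hf
    rw [off_ne]
    rintro rfl
    exact hc hf
  rw [this]
  exact hz

lemma sum_sendP_out (hfin : ∀ x, (G.neighborSet x).Finite) (n : ℕ) (s : Γ) (ω : Sym2 Γ → Bool) :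
    ∑' u, sendP G n s ω 1 u
      ≤ 2 * (((piv G n ω 1).ncard : ℝ≥0∞) / ((cluster G ω 1).encard : ℝ≥0∞)) := by
  by_cases hf : (cluster G ω 1).Finite
  · have hP : (piv G n ω 1).Finite :=
      (touch_finite G hfin hf).subset (piv_subset_touch n ω 1)
    set P := hP.toFinset with hPdef
    set U : Finset Γ := (P.biUnion (fun e => e.toFinset)).filter (fun u => s(u, u * s) ∈ P) with hU
    have h1 : ∀ u, u ∉ U → sendP G n s ω 1 u = 0 := by
      intro u hu
      unfold sendP
      rw [if_neg]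
      intro h
      apply hu
      rw [hU, Finset.mem_filter, Finset.mem_biUnion]
      refine ⟨⟨s(u, u * s), by simpa [hPdef] using h, by simp⟩, by simpa [hPdef] using h⟩
    rw [tsum_eq_sum (s := U) h1]
    have hcard : U.card ≤ 2 * (piv G n ω 1).ncard := by
      calc U.card ≤ (P.biUnion (fun e => e.toFinset)).card := Finset.card_filter_le _ _
        _ ≤ P.card * 2 := by
            apply Finset.card_biUnion_le_card_mul
            intro e _
            rw [Sym2.card_toFinset]
            split_ifs <;> omega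
        _ = 2 * (piv G n ω 1).ncard := by
            rw [Set.ncard_eq_toFinset_card _ hP, mul_comm]
    calc ∑ u ∈ U, sendP G n s ω 1 u
        ≤ ∑ u ∈ U, ((cluster G ω 1).encard : ℝ≥0∞)⁻¹ := by
          apply Finset.sum_le_sum
          intro u _
          unfold sendP
          split_ifs
          · exact le_rfl
          · exact bot_le
      _ = (U.card : ℝ≥0∞) * ((cluster G ω 1).encard : ℝ≥0∞)⁻¹ := by
          rw [Finset.sum_const, nsmul_eq_mul]
      _ ≤ ((2 * (piv G n ω 1).ncard : ℕ) : ℝ≥0∞) * ((cluster G ω 1).encard : ℝ≥0∞)⁻¹ := by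
          gcongr
      _ = _ := by
          rw [div_eq_mul_inv]
          push_cast
          ring
  · have htop : (cluster G ω 1).encard = ⊤ := Set.encard_eq_top hf
    have : ∀ u, sendP G n s ω 1 u = 0 := by
      intro u
      unfold sendP
      simp [htop]
    simp [this]

variable (p : unitInterval)

theorem mean_sendP (hinv : ∀ γ x y, G.Adj (γ * x) (γ * y) ↔ G.Adj x y) (hconn : G.Connected)
    (hfin : ∀ x, (G.neighborSet x).Finite) (n : ℕ) (s y : Γ) :
    ∫⁻ ω, (∑' z, sendP G n s ω z y) ∂(perc Γ p) ≤ 2 * pivRatio G p n := by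
  rw [lintegral_tsum (fun z => (measurable_sendP n s z y).aemeasurable),
    mass_transport p (sendP G n s) (measurable_sendP n s) (sendP_shift hinv hconn n s) y,
    ← lintegral_tsum (fun z => (measurable_sendP n s 1 z).aemeasurable)]
  unfold pivRatio
  rw [← lintegral_const_mul' _ _ (by simp)]
  exact lintegral_mono (fun ω => sum_sendP_out hfin n s ω)

/-- deterministic estimate for joining two clusters by an edge -/
lemma attach_piv {ω : Sym2 Γ → Bool} {x y : Γ} {n : ℕ} (hxy : G.Adj x y)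
    (hK : (cluster G (off ω s(x, y)) x).Finite) (hL : (cluster G (off ω s(x, y)) y).Finite) :
    hfun G n (cl G (on ω s(x, y)) x)
      ≤ hfun G n (cl G (off ω s(x, y)) x) + hfun G n (cl G (off ω s(x, y)) y)
        + ∑' z, sendP G n (x⁻¹ * y) (on ω s(x, y)) z x := by
  set e : Sym2 Γ := s(x, y) with he
  set K := cl G (off ω e) x with hKdef
  set L := cl G (off ω e) y with hLdef
  set J := cl G (on ω e) x with hJdef
  have hJc : cluster G (on ω e) x = cluster G (off ω e) x ∪ cluster G (off ω e) y := cluster_on hxy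
  have hJf : (cluster G (on ω e) x).Finite := by rw [hJc]; exact hK.union hL
  have hJ : ∀ z, z ∈ J ↔ z ∈ K ∨ z ∈ L := by
    intro z
    rw [hJdef, mem_cl_of_finite hJf, hJc, Set.mem_union, hKdef, hLdef, mem_cl_of_finite hK,
      mem_cl_of_finite hL]
  have hKJ : K ⊆ J := fun z hz => (hJ z).2 (Or.inl hz)
  have hLJ : L ⊆ J := fun z hz => (hJ z).2 (Or.inr hz)
  have hxe : s(x, x * (x⁻¹ * y)) = e := by rw [mul_inv_cancel_left]
  have hcount : nfar G n J ≤ nfar G n K + nfar G n L
      + (J.filter (fun z => e ∈ piv G n (on ω e) z)).card := by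
    unfold nfar
    refine le_trans (Finset.card_le_card ?_)
      (le_trans (Finset.card_union_le _ _) (Nat.add_le_add_right (Finset.card_union_le _ _) _))
    intro z hz
    rw [Finset.mem_filter] at hz
    simp only [Finset.mem_union, Finset.mem_filter]
    by_cases hr : Reach G n (off ω e) z
    · obtain ⟨z', hz', hd⟩ := hr
      rcases (hJ z).1 hz.1 with h | h
      · left; left
        refine ⟨h, z', ?_, hd⟩
        rw [hKdef, mem_cl_of_finite hK] at h ⊢
        rw [← cluster_eq_of_mem h]; exact hz'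
      · left; right
        refine ⟨h, z', ?_, hd⟩
        rw [hLdef, mem_cl_of_finite hL] at h ⊢
        rw [← cluster_eq_of_mem h]; exact hz'
    · right
      refine ⟨hz.1, on_self _, ?_, ?_⟩
      · obtain ⟨z', hz', hd⟩ := hz.2
        refine ⟨z', ?_, hd⟩
        have h1 := (mem_cl_of_finite hJf).1 hz.1
        have h2 := (mem_cl_of_finite hJf).1 hz'
        rw [cluster_eq_of_mem h1]; exact h2
      · rw [off_on]; exact hr
  have hsum : ((J.filter (fun z => e ∈ piv G n (on ω e) z)).card : ℝ≥0∞) / J.card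
      ≤ ∑' z, sendP G n (x⁻¹ * y) (on ω e) z x := by
    refine le_trans (le_of_eq ?_) (ENNReal.sum_le_tsum (J.filter (fun z => e ∈ piv G n (on ω e) z)))
    have : ∀ z ∈ J.filter (fun z => e ∈ piv G n (on ω e) z),
        sendP G n (x⁻¹ * y) (on ω e) z x = (J.card : ℝ≥0∞)⁻¹ := by
      intro z hz
      rw [Finset.mem_filter] at hz
      unfold sendP
      rw [hxe, if_pos hz.2]
      have h1 : cluster G (on ω e) z = cluster G (on ω e) x :=
        cluster_eq_of_mem ((mem_cl_of_finite hJf).1 hz.1)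
      rw [h1, ← cl_eq_of_finite hJf, Set.encard_coe_eq_coe_finsetCard]
      simp [hJdef]
    rw [Finset.sum_congr rfl this, Finset.sum_const, nsmul_eq_mul, div_eq_mul_inv]
  have hKJc : (K.card : ℝ≥0∞) ≤ J.card := by exact_mod_cast Finset.card_le_card hKJ
  have hLJc : (L.card : ℝ≥0∞) ≤ J.card := by exact_mod_cast Finset.card_le_card hLJ
  unfold hfun
  calc (nfar G n J : ℝ≥0∞) / J.card
      ≤ ((nfar G n K : ℝ≥0∞) + (nfar G n L : ℝ≥0∞)
          + ((J.filter (fun z => e ∈ piv G n (on ω e) z)).card : ℝ≥0∞)) / J.card := by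
        gcongr
        exact_mod_cast hcount
    _ = (nfar G n K : ℝ≥0∞) / J.card + (nfar G n L : ℝ≥0∞) / J.card
        + ((J.filter (fun z => e ∈ piv G n (on ω e) z)).card : ℝ≥0∞) / J.card := by
        rw [ENNReal.add_div, ENNReal.add_div]
    _ ≤ _ := by gcongr

/-- the error term for the oriented edge `(x, y)` -/
noncomputable def errP (G : SimpleGraph Γ) (n M : ℕ) (x y : Γ) (ω : Sym2 Γ → Bool) : ℝ≥0∞ :=
  (∑' z, sendP G n (x⁻¹ * y) (on ω s(x, y)) z x)
  + hfun G n (cl G (off ω s(x, y)) x) * (M / n)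
  + {ω | y ∉ cluster G (off ω s(x, y)) x ∧ Big G M (off ω s(x, y)) y}.indicator
      (fun ω => hfun G n (cl G (off ω s(x, y)) x)) ω
  + {ω | x ∉ cluster G (off ω s(y, x)) y ∧ Big G M (off ω s(y, x)) x}.indicator
      (fun ω => hfun G n (cl G (off ω s(y, x)) y)) ω

lemma diff_le_errP {n M : ℕ} (hn : n ≠ 0) {x y v : Γ} (hxy : G.Adj x y) {ω : Sym2 Γ → Bool}
    (hK : (cluster G (off ω s(x, y)) x).Finite) (hL : (cluster G (off ω s(x, y)) y).Finite)
    (hy : y ∉ cluster G (off ω s(x, y)) x) (hv : v ∈ cluster G (off ω s(x, y)) x)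
    (hd : M ≤ G.dist x v) :
    (hfun G n (cl G (on ω s(x, y)) v) - hfun G n (cl G (off ω s(x, y)) v))
      + (hfun G n (cl G (off ω s(x, y)) v) - hfun G n (cl G (on ω s(x, y)) v))
      ≤ errP G n M x y ω := by
  have hclK : cl G (off ω s(x, y)) v = cl G (off ω s(x, y)) x := cl_congr (cluster_eq_of_mem hv)
  have hclJ : cl G (on ω s(x, y)) v = cl G (on ω s(x, y)) x :=
    cl_congr (cluster_eq_of_mem (cluster_mono (off_le_on _) hv))
  rw [hclK, hclJ]
  have hBx : Big G M (off ω s(x, y)) x := big_of_dist hv hd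
  have hswap : s(y, x) = s(x, y) := Sym2.eq_swap
  have hmem : ω ∈ {ω | x ∉ cluster G (off ω s(y, x)) y ∧ Big G M (off ω s(y, x)) x} := by
    show x ∉ cluster G (off ω s(y, x)) y ∧ Big G M (off ω s(y, x)) x
    rw [hswap]
    exact ⟨fun h => hy (mem_cluster_comm.1 h), hBx⟩
  unfold errP
  rw [Set.indicator_of_mem hmem]
  simp only [hswap]
  have e1 : hfun G n (cl G (on ω s(x, y)) x) - hfun G n (cl G (off ω s(x, y)) x)
      ≤ (∑' z, sendP G n (x⁻¹ * y) (on ω s(x, y)) z x) + hfun G n (cl G (off ω s(x, y)) y) := by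
    rw [tsub_le_iff_left]
    refine le_trans (attach_piv hxy hK hL) (le_of_eq ?_)
    ring
  have e2 : hfun G n (cl G (off ω s(x, y)) x) - hfun G n (cl G (on ω s(x, y)) x)
      ≤ hfun G n (cl G (off ω s(x, y)) x) * (M / n)
        + {ω | y ∉ cluster G (off ω s(x, y)) x ∧ Big G M (off ω s(x, y)) y}.indicator
          (fun ω => hfun G n (cl G (off ω s(x, y)) x)) ω := by
    by_cases hB : Big G M (off ω s(x, y)) y
    · have h1 : ω ∈ {ω | y ∉ cluster G (off ω s(x, y)) x ∧ Big G M (off ω s(x, y)) y} := ⟨hy, hB⟩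
      rw [Set.indicator_of_mem h1]
      exact le_trans tsub_le_self le_add_self
    · obtain ⟨_, hM⟩ := not_big_iff.1 hB
      exact le_trans (tsub_le_iff_left.2 (detach_small hn hxy hK hL hM)) le_self_add
  refine le_trans (add_le_add e1 e2) (le_of_eq ?_)
  ring

lemma infl_le_errP {n M : ℕ} (hn : n ≠ 0) {x y v : Γ} (hxy : G.Adj x y) {ω : Sym2 Γ → Bool}
    (hK : (cluster G (off ω s(x, y)) x).Finite) (hL : (cluster G (off ω s(x, y)) y).Finite)
    (hdx : M ≤ G.dist x v) (hdy : M ≤ G.dist y v) :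
    infl s(x, y) (fun ω => hfun G n (cl G ω v)) ω ≤ errP G n M x y ω + errP G n M y x ω := by
  show (hfun G n (cl G (on ω s(x, y)) v) - hfun G n (cl G (off ω s(x, y)) v))
      + (hfun G n (cl G (off ω s(x, y)) v) - hfun G n (cl G (on ω s(x, y)) v)) ≤ _
  by_cases hy : y ∈ cluster G (off ω s(x, y)) x
  · have : cl G (on ω s(x, y)) v = cl G (off ω s(x, y)) v := cl_congr (cluster_on_of_mem hxy hy v)
    rw [this]; simp
  · by_cases hvx : v ∈ cluster G (off ω s(x, y)) x
    · exact le_trans (diff_le_errP hn hxy hK hL hy hvx hdx) le_self_add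
    · by_cases hvy : v ∈ cluster G (off ω s(x, y)) y
      · have hswap : s(x, y) = s(y, x) := Sym2.eq_swap
        have hx : x ∉ cluster G (off ω s(y, x)) y := by
          intro h
          apply hy
          rw [hswap]
          exact mem_cluster_comm.1 h
        rw [hswap] at hK hL hvy ⊢
        exact le_trans (diff_le_errP hn hxy.symm hL hK hx hvy hdy) le_add_self
      · have : cl G (on ω s(x, y)) v = cl G (off ω s(x, y)) v :=
          cl_congr (cluster_on_of_not_mem hvx hvy)
        rw [this]; simp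

theorem mean_errP (hinv : ∀ γ x y, G.Adj (γ * x) (γ * y) ↔ G.Adj x y) (hconn : G.Connected)
    (hfin : ∀ x, (G.neighborSet x).Finite) (hp0 : (p : ℝ) ≠ 0) (hp1 : (p : ℝ) ≠ 1)
    (n M : ℕ) {x y : Γ} (hxy : G.Adj x y) :
    ∫⁻ ω, errP G n M x y ω ∂(perc Γ p)
      ≤ (ENNReal.ofReal (p : ℝ))⁻¹ * (2 * pivRatio G p n)
        + (ENNReal.ofReal (1 - (p : ℝ)))⁻¹ * aN G p n * (M / n)
        + (ENNReal.ofReal (1 - (p : ℝ)))⁻¹ * aN G p n * tM G p M
        + (ENNReal.ofReal (1 - (p : ℝ)))⁻¹ * aN G p n * tM G p M := by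
  have hmP : Measurable (fun ω => ∑' z, sendP G n (x⁻¹ * y) ω z x) :=
    Measurable.tsum (fun z => measurable_sendP n (x⁻¹ * y) z x)
  have hmoff : ∀ x y : Γ, Measurable (fun ω : Sym2 Γ → Bool => hfun G n (cl G (off ω s(x, y)) x)) :=
    fun x y => (measurable_hcl n x).comp (measurable_off s(x, y))
  have hE3 : ∀ x y : Γ, MeasurableSet {ω : Sym2 Γ → Bool | y ∉ cluster G (off ω s(x, y)) x ∧
      Big G M (off ω s(x, y)) y} := fun x y =>
    ((measurable_off s(x, y)) (measurableSet_mem_cluster x y)).compl.inter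
      ((measurable_off s(x, y)) (measurableSet_big M y))
  have hoff : ∀ x y : Γ, ∫⁻ ω, hfun G n (cl G (off ω s(x, y)) x) ∂(perc Γ p)
      ≤ (ENNReal.ofReal (1 - (p : ℝ)))⁻¹ * aN G p n := by
    intro x y
    refine le_trans (lintegral_off_le p s(x, y) hp1 (measurable_hcl n x)) ?_
    rw [mean_h p hinv hconn n x]
    rfl
  have hexp : ∀ x y : Γ, G.Adj x y →
      ∫⁻ ω, {ω | y ∉ cluster G (off ω s(x, y)) x ∧ Big G M (off ω s(x, y)) y}.indicator
      (fun ω => hfun G n (cl G (off ω s(x, y)) x)) ω ∂(perc Γ p)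
      ≤ (ENNReal.ofReal (1 - (p : ℝ)))⁻¹ * aN G p n * tM G p M := by
    intro x y hxy
    rw [lintegral_indicator (hE3 x y)]
    refine le_trans (explore_lintegral p hfin M hxy (hfun G n) (hfun_empty n)) ?_
    rw [prob_big p hinv M y]
    gcongr
    exact hoff x y
  have hmP' : Measurable (fun ω => ∑' z, sendP G n (x⁻¹ * y) (on ω s(x, y)) z x) :=
    hmP.comp (measurable_on s(x, y))
  unfold errP
  rw [lintegral_add_right _ ((hmoff y x).indicator (hE3 y x)),
    lintegral_add_right _ ((hmoff x y).indicator (hE3 x y)),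
    lintegral_add_left hmP', lintegral_mul_const _ (hmoff x y)]
  gcongr ?_ + ?_ + ?_ + ?_
  · refine le_trans (lintegral_on_le p s(x, y) hp0 hmP) ?_
    gcongr
    exact mean_sendP p hinv hconn hfin n (x⁻¹ * y) x
  · gcongr
    exact hoff x y
  · exact hexp x y hxy
  · exact hexp y x hxy.symm

/-- the basic error term -/
noncomputable def baseP (G : SimpleGraph Γ) (p : unitInterval) (n M : ℕ) : ℝ≥0∞ :=
  (ENNReal.ofReal (p : ℝ))⁻¹ * (2 * ((thetaN G p n)⁻¹ * pivRatio G p n))
    + (ENNReal.ofReal (1 - (p : ℝ)))⁻¹ * (M / n)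
    + 2 * ((ENNReal.ofReal (1 - (p : ℝ)))⁻¹ * tM G p M)

lemma thetaN_eq (hth : ThetaZero G p) (n : ℕ) : thetaN G p n = aN G p n := aN_eq p hth n

theorem infl_boundP (hG : CayleyLike G)
    (hth : ThetaZero G p) (hp0 : (p : ℝ) ≠ 0) (hp1 : (p : ℝ) ≠ 1)
    {n M : ℕ} (hn : n ≠ 0) (han : aN G p n ≠ 0) {x y v : Γ} (hxy : G.Adj x y)
    (hx : M ≤ G.dist x v) (hy : M ≤ G.dist y v) :
    ∫⁻ ω, infl s(x, y) (fun ω => hfun G n (cl G ω v)) ω ∂(perc Γ p)
      ≤ aN G p n * (2 * baseP G p n M) := by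
  have hant : aN G p n ≠ ⊤ := measure_ne_top _ _
  have hmerr : ∀ x y : Γ, Measurable (errP G n M x y) := by
    intro x y
    have hmP : Measurable (fun ω => ∑' z, sendP G n (x⁻¹ * y) ω z x) :=
      Measurable.tsum (fun z => measurable_sendP n (x⁻¹ * y) z x)
    have hmoff : ∀ x y : Γ, Measurable (fun ω : Sym2 Γ → Bool => hfun G n (cl G (off ω s(x, y)) x)) :=
      fun x y => (measurable_hcl n x).comp (measurable_off s(x, y))
    have hE3 : ∀ x y : Γ, MeasurableSet {ω : Sym2 Γ → Bool | y ∉ cluster G (off ω s(x, y)) x ∧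
        Big G M (off ω s(x, y)) y} := fun x y =>
      ((measurable_off s(x, y)) (measurableSet_mem_cluster x y)).compl.inter
        ((measurable_off s(x, y)) (measurableSet_big M y))
    unfold errP
    exact (((hmP.comp (measurable_on s(x, y))).add ((hmoff x y).mul_const _)).add
      ((hmoff x y).indicator (hE3 x y))).add ((hmoff y x).indicator (hE3 y x))
  have h1 : ∫⁻ ω, infl s(x, y) (fun ω => hfun G n (cl G ω v)) ω ∂(perc Γ p)
      ≤ ∫⁻ ω, errP G n M x y ω ∂(perc Γ p) + ∫⁻ ω, errP G n M y x ω ∂(perc Γ p) := by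
    rw [← lintegral_add_left (hmerr x y)]
    apply lintegral_mono_ae
    filter_upwards [ae_finite p hG.inv hth] with ω hω
    exact infl_le_errP hn hxy ((hω x).subset (cluster_mono (off_le _)))
      ((hω y).subset (cluster_mono (off_le _))) hx hy
  have hpr : pivRatio G p n = aN G p n * ((thetaN G p n)⁻¹ * pivRatio G p n) := by
    rw [thetaN_eq p hth, ← mul_assoc, ENNReal.mul_inv_cancel han hant, one_mul]
  have herr : ∀ x y : Γ, G.Adj x y → ∫⁻ ω, errP G n M x y ω ∂(perc Γ p)
      ≤ aN G p n * baseP G p n M := by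
    intro x y hxy
    refine le_trans (mean_errP p hG.inv hG.conn hG.fin hp0 hp1 n M hxy) (le_of_eq ?_)
    conv_lhs => rw [hpr]
    unfold baseP
    ring
  calc _ ≤ _ := h1
    _ ≤ aN G p n * baseP G p n M + aN G p n * baseP G p n M :=
        add_le_add (herr x y hxy) (herr y x hxy.symm)
    _ = _ := by ring

theorem phi_boundP (hG : CayleyLike G)
    (hth : ThetaZero G p) (hp0 : (p : ℝ) ≠ 0) (hp1 : (p : ℝ) ≠ 1)
    {n : ℕ} (hn : n ≠ 0) (han : aN G p n ≠ 0) (r M : ℕ) {v : Γ} (hv : M + r + 1 ≤ G.dist 1 v) :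
    rerootedLaw G p n {W | W.1 v = true}
      ≤ tM G p r + (touch_finite G hG.fin (ball_finite hG.conn hG.fin (1 : Γ) r)).toFinset.card *
        (2 * baseP G p n M) := by
  set F := (touch_finite G hG.fin (ball_finite hG.conn hG.fin (1 : Γ) r)).toFinset with hF
  set E : ℝ≥0∞ := 2 * baseP G p n M with hE
  have hB : MeasurableSet {W : Sub Γ | W.1 v = true} :=
    measurableSet_eq_fun ((measurable_pi_apply v).comp measurable_fst) measurable_const
  have hant : aN G p n ≠ ⊤ := measure_ne_top _ _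
  have hcov := cov_bound p F (fun ω => hfun G n (cl G ω v))
    ({ω | Big G r ω 1}.indicator 1) (measurable_hcl n v)
    (measurable_one.indicator (measurableSet_big r 1)) ?_ ?_
  · have h1 : ∫⁻ ω, {ω | reroot G 1 ω ∈ {W : Sub Γ | W.1 v = true}}.indicator
          (fun ω => hfun G n (cl G ω 1)) ω ∂(perc Γ p)
        ≤ ∫⁻ ω, hfun G n (cl G ω v) * ({ω | Big G r ω 1}.indicator 1) ω ∂(perc Γ p) := by
      apply lintegral_mono
      intro ω
      by_cases h : ω ∈ {ω | reroot G 1 ω ∈ {W : Sub Γ | W.1 v = true}}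
      · rw [Set.indicator_of_mem h]
        have hvc : v ∈ cluster G ω 1 := by
          have : (reroot G 1 ω).1 v = true := h
          simpa [reroot] using this
        have hcl : cl G ω v = cl G ω 1 := cl_congr (cluster_eq_of_mem hvc)
        have hbig : ω ∈ {ω | Big G r ω 1} := big_of_dist hvc (by omega)
        beta_reduce
        rw [Set.indicator_of_mem hbig, hcl]
        simp
      · rw [Set.indicator_of_notMem h]
        exact bot_le
    have h2 : ∑ e ∈ F, ∫⁻ ω, infl e (fun ω => hfun G n (cl G ω v)) ω ∂(prodBern (Sym2 Γ) p)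
        ≤ F.card * (aN G p n * E) := by
      rw [← nsmul_eq_mul]
      apply Finset.sum_le_card_nsmul
      intro e he
      rw [hF, Set.Finite.mem_toFinset] at he
      obtain ⟨x, hx, y, hxy, rfl⟩ := he
      have hx' : G.dist 1 x ≤ r := hx
      have t1 : G.dist 1 v ≤ G.dist 1 x + G.dist x v := hG.conn.dist_triangle
      have t2 : G.dist x v ≤ G.dist x y + G.dist y v := hG.conn.dist_triangle
      have t3 : G.dist x y = 1 := SimpleGraph.dist_eq_one_iff_adj.2 hxy
      exact infl_boundP p hG hth hp0 hp1 hn han hxy (by omega) (by omega)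
    rw [law_apply p hG.inv hG.conn hth n hB]
    have h3 : ∫⁻ ω, hfun G n (cl G ω v) ∂(prodBern (Sym2 Γ) p) = aN G p n :=
      mean_h p hG.inv hG.conn n v
    have h4 : ∫⁻ ω, ({ω | Big G r ω 1}.indicator (1 : (Sym2 Γ → Bool) → ℝ≥0∞)) ω
        ∂(prodBern (Sym2 Γ) p) = tM G p r := by
      rw [lintegral_indicator_one (measurableSet_big r 1)]
      rfl
    rw [h3, h4] at hcov
    calc (aN G p n)⁻¹ * ∫⁻ ω, {ω | reroot G 1 ω ∈ {W : Sub Γ | W.1 v = true}}.indicator
          (fun ω => hfun G n (cl G ω 1)) ω ∂(perc Γ p)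
        ≤ (aN G p n)⁻¹ * (aN G p n * tM G p r + F.card * (aN G p n * E)) := by
          gcongr
          exact le_trans h1 (le_trans hcov (by gcongr))
      _ = (aN G p n)⁻¹ * aN G p n * (tM G p r + F.card * E) := by ring
      _ = _ := by rw [ENNReal.inv_mul_cancel han hant, one_mul]
  · intro ω ω' hag
    have : Big G r ω 1 ↔ Big G r ω' 1 :=
      big_local (fun e he => hag e (by simpa [hF] using he))
    simp only [Set.indicator_apply, Set.mem_ofPred_eq, this, Pi.one_apply]
  · intro ω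
    simp only [Set.indicator_apply, Pi.one_apply]
    split_ifs <;> simp

/-- (F) -/
theorem fstatement [Infinite Γ] (hG : CayleyLike G) : FStatement G p := by
  intro hp0 hp1 hth hpiv Q hQ ε hε
  obtain ⟨hprob, n, hnmono, hlim⟩ := hQ
  -- eventually `a_n ≠ 0`
  have hev : ∀ᶠ j in atTop, aN G p (n j) ≠ 0 := by
    have h := law_tendsto p hG.inv hG.conn hth hlim isClopen_univ MeasurableSet.univ
    rw [measure_univ] at h
    have h' : ∀ᶠ j in atTop, rerootedLaw G p (n j) Set.univ ≠ 0 :=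
      h.eventually_ne one_ne_zero
    filter_upwards [h'] with j hj h0
    exact hj (law_univ_zero p hG.inv hG.conn hth (n j) h0)
  have hpi : (ENNReal.ofReal (p : ℝ))⁻¹ ≠ ⊤ := by
    rw [ENNReal.inv_ne_top, Ne, ENNReal.ofReal_eq_zero, not_le]
    exact lt_of_le_of_ne p.2.1 (Ne.symm hp0)
  have hqi : (ENNReal.ofReal (1 - (p : ℝ)))⁻¹ ≠ ⊤ := by
    rw [ENNReal.inv_ne_top, Ne, ENNReal.ofReal_eq_zero, not_le]
    have := lt_of_le_of_ne p.2.2 hp1
    linarith
  -- choose r
  have hr : ∀ᶠ r in atTop, tM G p r ≤ ε / 2 :=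
    (tM_tendsto p hth).eventually_le_const (ENNReal.half_pos hε.ne')
  obtain ⟨r, hr⟩ := hr.exists
  set c : ℝ≥0∞ := ((touch_finite G hG.fin (ball_finite hG.conn hG.fin (1 : Γ) r)).toFinset.card : ℝ≥0∞)
    with hc
  have hct : c ≠ ⊤ := ENNReal.natCast_ne_top _
  -- choose M
  have hM0 : Tendsto (fun M => c * (2 * (2 * ((ENNReal.ofReal (1 - (p : ℝ)))⁻¹ * tM G p M)))) atTop
      (𝓝 0) := by
    have e1 : Tendsto (fun M => (ENNReal.ofReal (1 - (p : ℝ)))⁻¹ * tM G p M) atTop (𝓝 0) := by
      have := ENNReal.Tendsto.const_mul (tM_tendsto (G := G) p hth) (Or.inr hqi)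
      rwa [mul_zero] at this
    have e4 := ENNReal.Tendsto.const_mul (a := 2) e1 (Or.inr (by simp))
    rw [mul_zero] at e4
    have e5 := ENNReal.Tendsto.const_mul (a := 2) e4 (Or.inr (by simp))
    rw [mul_zero] at e5
    have e6 := ENNReal.Tendsto.const_mul (a := c) e5 (Or.inr hct)
    rwa [mul_zero] at e6
  obtain ⟨M, hM⟩ := (hM0.eventually_le_const (ENNReal.half_pos hε.ne')).exists
  refine ⟨M + r + 1, fun v hv => ?_⟩
  -- pass to the limit
  have hninf : Tendsto n atTop atTop := hnmono.tendsto_atTop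
  have hinvn : Tendsto (fun j => ((n j : ℕ) : ℝ≥0∞)⁻¹) atTop (𝓝 0) :=
    ENNReal.tendsto_inv_nat_nhds_zero.comp hninf
  have hBclopen : IsClopen {W : Sub Γ | W.1 v = true} := by
    have hcont : Continuous (fun W : Sub Γ => W.1 v) := (continuous_apply v).comp continuous_fst
    exact (isClopen_discrete {true}).preimage hcont
  have hBm : MeasurableSet {W : Sub Γ | W.1 v = true} :=
    measurableSet_eq_fun ((measurable_pi_apply v).comp measurable_fst) measurable_const
  have hL := law_tendsto p hG.inv hG.conn hth hlim hBclopen hBm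
  have hbase : Tendsto (fun j => baseP G p (n j) M) atTop
      (𝓝 (2 * ((ENNReal.ofReal (1 - (p : ℝ)))⁻¹ * tM G p M))) := by
    unfold baseP
    have e1 : Tendsto (fun j => (ENNReal.ofReal (p : ℝ))⁻¹ *
        (2 * ((thetaN G p (n j))⁻¹ * pivRatio G p (n j)))) atTop (𝓝 0) := by
      have a0 := hpiv.comp hninf
      have a1 := ENNReal.Tendsto.const_mul (a := 2) a0 (Or.inr (by simp))
      rw [mul_zero] at a1
      have a2 := ENNReal.Tendsto.const_mul (a := (ENNReal.ofReal (p : ℝ))⁻¹) a1 (Or.inr hpi)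
      rw [mul_zero] at a2
      exact a2
    have e2 : Tendsto (fun j => (ENNReal.ofReal (1 - (p : ℝ)))⁻¹ * ((M : ℝ≥0∞) / (n j))) atTop
        (𝓝 0) := by
      have a1 := ENNReal.Tendsto.const_mul (a := (M : ℝ≥0∞)) hinvn
        (Or.inr (ENNReal.natCast_ne_top _))
      rw [mul_zero] at a1
      have a2 := ENNReal.Tendsto.const_mul (a := (ENNReal.ofReal (1 - (p : ℝ)))⁻¹) a1 (Or.inr hqi)
      rw [mul_zero] at a2
      simpa only [div_eq_mul_inv] using a2
    have := (e1.add e2).add (tendsto_const_nhds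
      (x := 2 * ((ENNReal.ofReal (1 - (p : ℝ)))⁻¹ * tM G p M)))
    simpa using this
  have hR : Tendsto (fun j => tM G p r + c * (2 * baseP G p (n j) M)) atTop
      (𝓝 (tM G p r + c * (2 * (2 * ((ENNReal.ofReal (1 - (p : ℝ)))⁻¹ * tM G p M))))) := by
    have a2 := ENNReal.Tendsto.const_mul (a := 2) hbase (Or.inr (by simp))
    have a3 := ENNReal.Tendsto.const_mul (a := c) a2 (Or.inr hct)
    exact tendsto_const_nhds.add a3
  have hfinal : Q {W | W.1 v = true}
      ≤ tM G p r + c * (2 * (2 * ((ENNReal.ofReal (1 - (p : ℝ)))⁻¹ * tM G p M))) := by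
    refine le_of_tendsto_of_tendsto hL hR ?_
    filter_upwards [hev, eventually_ge_atTop 1] with j hj1 hj2
    have hnj : n j ≠ 0 := by
      have := hnmono.id_le j
      simp only [id] at this
      omega
    exact phi_boundP p hG hth hp0 hp1 hnj hj1 r M hv
  calc Q {W | W.1 v = true} ≤ _ := hfinal
    _ ≤ ε / 2 + ε / 2 := add_le_add hr hM
    _ = ε := ENNReal.add_halves ε

end Pool.Agent.H17.IIC
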