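import Mathlib
import Pool.Agent.H17.IIC.FMain

/-! Independence of functions of disjoint sets of edges, one of them finite; general exploration
lemma. -/

open MeasureTheory Set Filter Topology
open scoped ENNReal

set_option linter.unusedSectionVars false

namespace Pool.Agent.H17.IIC

section gen
variable {ι : Type*} [DecidableEq ι] (p : unitInterval)

/-- a function of finitely many coordinates is independent of a function which does not see
them. -/
theorem indep_mul (F : Finset ι) : ∀ (H φ : (ι → Bool) → ℝ≥0∞), Measurable H → Measurable φ →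
    DependsOn φ (F : Set ι) → (∀ e ∈ F, ∀ ω b, H (Function.update ω e b) = H ω) →
    ∫⁻ ω, H ω * φ ω ∂(prodBern ι p)
      = (∫⁻ ω, H ω ∂(prodBern ι p)) * (∫⁻ ω, φ ω ∂(prodBern ι p)) := by
  induction F using Finset.induction_on with
  | empty =>
    intro H φ hH hφ hdep _
    obtain ⟨c, hc⟩ : ∃ c, ∀ ω, φ ω = c := by
      refine ⟨φ (fun _ => false), fun ω => hdep ?_⟩
      intro i hi
      simp at hi
    simp only [hc, lintegral_const, measure_univ, mul_one]
    rw [lintegral_mul_const _ hH]
  | insert e F he ih =>
    intro H φ hH hφ hdep hins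
    have hHφ : Measurable (fun ω => H ω * φ ω) := hH.mul hφ
    have hdep' : DependsOn (avg p e φ) (F : Set ι) := by
      intro ω ω' hω
      unfold avg
      have : ∀ b, φ (Function.update ω e b) = φ (Function.update ω' e b) := by
        intro b
        apply hdep
        intro i hi
        by_cases hie : i = e
        · subst hie; simp
        · rw [Function.update_of_ne hie, Function.update_of_ne hie]
          apply hω
          simp only [Finset.coe_insert, Set.mem_insert_iff, hie, false_or] at hi
          exact hi
      rw [this, this]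
    have key := ih H (avg p e φ) hH (measurable_avg p e hφ) hdep'
      (fun e' he' => hins e' (Finset.mem_insert_of_mem he'))
    rw [lintegral_avg p e hφ] at key
    rw [← key, ← lintegral_avg p e hHφ]
    apply lintegral_congr
    intro ω
    unfold avg
    beta_reduce
    rw [hins e (Finset.mem_insert_self e F), hins e (Finset.mem_insert_self e F)]
    ring

theorem indep_set (F : Finset ι) {A B : Set (ι → Bool)} (hA : MeasurableSet A)
    (hB : MeasurableSet B) (hAF : ∀ ω ω', (∀ e ∈ F, ω e = ω' e) → (ω ∈ A ↔ ω' ∈ A))
    (hBF : ∀ e ∈ F, ∀ ω b, Function.update ω e b ∈ B ↔ ω ∈ B) :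
    prodBern ι p (A ∩ B) = prodBern ι p A * prodBern ι p B := by
  classical
  have h := indep_mul p F (B.indicator 1) (A.indicator 1) (measurable_one.indicator hB)
    (measurable_one.indicator hA) ?_ ?_
  · rw [lintegral_indicator_one hA, lintegral_indicator_one hB] at h
    rw [mul_comm, ← h, ← lintegral_indicator_one (hA.inter hB)]
    apply lintegral_congr
    intro ω
    by_cases ha : ω ∈ A <;> by_cases hb : ω ∈ B <;> simp [ha, hb]
  · intro ω ω' hω
    have := hAF ω ω' (fun e he => hω e he)
    by_cases ha : ω ∈ A
    · rw [Set.indicator_of_mem ha, Set.indicator_of_mem (this.1 ha)]; rfl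
    · rw [Set.indicator_of_notMem ha, Set.indicator_of_notMem (fun h => ha (this.2 h))]
  · intro e he ω b
    have := hBF e he ω b
    by_cases ha : ω ∈ B
    · rw [Set.indicator_of_mem ha, Set.indicator_of_mem (this.2 ha)]; rfl
    · rw [Set.indicator_of_notMem ha, Set.indicator_of_notMem (fun h => ha (this.1 h))]

/-- an edge is open with probability `p` -/
lemma prob_open (e : ι) : prodBern ι p {ω | ω e = true} = ENNReal.ofReal (p : ℝ) := by
  have hm : MeasurableSet {ω : ι → Bool | ω e = true} :=
    measurableSet_eq_fun (measurable_pi_apply _) measurable_const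
  rw [← lintegral_indicator_one hm, resample p e (measurable_one.indicator hm)]
  have h1 : ∀ ω : ι → Bool, ({ω : ι → Bool | ω e = true}.indicator (1 : (ι → Bool) → ℝ≥0∞))
      (Function.update ω e true) = 1 := by
    intro ω
    rw [Set.indicator_of_mem (by simp)]
    rfl
  have h2 : ∀ ω : ι → Bool, ({ω : ι → Bool | ω e = true}.indicator (1 : (ι → Bool) → ℝ≥0∞))
      (Function.update ω e false) = 0 := by
    intro ω
    rw [Set.indicator_of_notMem (by simp)]
  simp only [h1, h2]
  simp

end gen

section perc
open scoped Classical
variable {V : Type*} [Countable V] {G : SimpleGraph V} (p : unitInterval)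

lemma kill_update {K : Set V} {e : Sym2 V} (he : e ∈ touch G K) (ω : Sym2 V → Bool) (b : Bool) :
    kill G K (Function.update ω e b) = kill G K ω := by
  funext g
  unfold kill
  by_cases hg : g ∈ touch G K
  · simp [hg]
  · simp only [hg, if_false]
    exact Function.update_of_ne (fun h => hg (by rw [h]; exact he)) _ _

/-- exploration of the cluster of `x` in `off ω [x,y]`: the cluster of `y` beyond is dominated by
a fresh cluster -/
theorem explore_gen (hfin : ∀ x, (G.neighborSet x).Finite) {x y : V} (hxy : G.Adj x y)
    (g : Finset V → ℝ≥0∞) (hg : g ∅ = 0) (ψ : (Sym2 V → Bool) → ℝ≥0∞) (hψ : Measurable ψ)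
    (hmono : ∀ ω ω' : Sym2 V → Bool, cluster G ω y ⊆ cluster G ω' y → ψ ω ≤ ψ ω') :
    ∫⁻ ω in {ω | y ∉ cluster G (off ω s(x, y)) x},
        g (cl G (off ω s(x, y)) x) * ψ (off ω s(x, y)) ∂(perc V p)
      ≤ (∫⁻ ω, g (cl G (off ω s(x, y)) x) ∂(perc V p)) * ∫⁻ ω, ψ ω ∂(perc V p) := by
  set e : Sym2 V := s(x, y) with he
  have hX : Measurable (fun ω : Sym2 V → Bool => cl G (off ω e) x) :=
    (measurable_cl x).comp (measurable_off e)
  have hE : MeasurableSet {ω : Sym2 V → Bool | y ∉ cluster G (off ω e) x} :=
    ((measurable_off e) (measurableSet_mem_cluster x y)).compl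
  have hψo : Measurable (fun ω : Sym2 V → Bool => ψ (off ω e)) := hψ.comp (measurable_off e)
  -- decompose according to the value of the cluster
  have hdec : ∀ (E : Set (Sym2 V → Bool)) (φ : (Sym2 V → Bool) → ℝ≥0∞), MeasurableSet E →
      Measurable φ → ∫⁻ ω in E, g (cl G (off ω e) x) * φ ω ∂(perc V p)
      = ∑' K, g K * ∫⁻ ω in ({ω | cl G (off ω e) x = K} ∩ E), φ ω ∂(perc V p) := by
    intro E φ hE hφ
    have hK : ∀ K, MeasurableSet {ω : Sym2 V → Bool | cl G (off ω e) x = K} := fun K =>
      hX (measurableSet_singleton K)
    have h1 : ∀ ω, g (cl G (off ω e) x) * φ ω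
        = ∑' K, g K * ({ω | cl G (off ω e) x = K}.indicator φ ω) := by
      intro ω
      rw [tsum_eq_single (cl G (off ω e) x)]
      · rw [Set.indicator_of_mem (by simp)]
      · intro K hK
        rw [Set.indicator_of_notMem (by simpa using fun h => hK h.symm), mul_zero]
    simp only [h1]
    rw [lintegral_tsum (fun K => ((hφ.indicator (hK K)).const_mul _).aemeasurable)]
    congr 1
    funext K
    rw [lintegral_const_mul _ (hφ.indicator (hK K)), lintegral_indicator (hK K),
      Measure.restrict_restrict (hK K)]
  rw [hdec _ (fun ω => ψ (off ω e)) hE hψo]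
  have h2 := hdec Set.univ (fun _ => 1) MeasurableSet.univ measurable_const
  simp only [Measure.restrict_univ, mul_one, Set.inter_univ] at h2
  rw [h2, ← ENNReal.tsum_mul_right]
  apply ENNReal.tsum_le_tsum
  intro K
  rcases K.eq_empty_or_nonempty with rfl | hK
  · simp [hg]
  rw [mul_assoc]
  gcongr
  have hset : {ω : Sym2 V → Bool | cl G (off ω e) x = K} = {ω | cluster G (off ω e) x = K} := by
    ext ω
    exact cl_eq_iff hK
  rw [hset]
  by_cases hx : x ∈ K
  swap
  · have : ({ω : Sym2 V → Bool | cluster G (off ω e) x = K}
        ∩ {ω | y ∉ cluster G (off ω e) x}) = ∅ := by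
      ext ω
      simp only [Set.mem_inter_iff, Set.mem_ofPred_eq, Set.mem_empty_iff_false, iff_false,
        not_and]
      intro h1
      exfalso
      apply hx
      have : x ∈ cluster G (off ω e) x := self_mem_cluster
      rw [h1] at this
      exact this
    rw [this]; simp
  by_cases hy : y ∈ K
  · have : ({ω : Sym2 V → Bool | cluster G (off ω e) x = K}
        ∩ {ω | y ∉ cluster G (off ω e) x}) = ∅ := by
      ext ω
      simp only [Set.mem_inter_iff, Set.mem_ofPred_eq, Set.mem_empty_iff_false, iff_false,
        not_and]
      intro h1 h2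
      rw [h1] at h2
      exact h2 hy
    rw [this]; simp
  have het : e ∈ touch G (K : Set V) := mem_touch_left (by exact_mod_cast hx) hxy
  set A : Set (Sym2 V → Bool) := {ω | cluster G (off ω e) x = K} with hA
  have hAm : MeasurableSet A := (measurable_off e) (measurableSet_cluster_eq x K)
  set F : Finset (Sym2 V) := (touch_finite G hfin K.finite_toSet).toFinset with hF
  have hkm : Measurable (fun ω : Sym2 V → Bool => ψ (kill G (K : Set V) ω)) :=
    hψ.comp (measurable_kill (K : Set V))
  have hcov := indep_mul p F (fun ω => ψ (kill G (K : Set V) ω)) (A.indicator 1)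
    hkm (measurable_one.indicator hAm) ?_ ?_
  · calc ∫⁻ ω in A ∩ {ω | y ∉ cluster G (off ω e) x}, ψ (off ω e) ∂(perc V p)
        ≤ ∫⁻ ω in A ∩ {ω | y ∉ cluster G (off ω e) x}, ψ (kill G (K : Set V) ω) ∂(perc V p) := by
          apply setLIntegral_mono' (hAm.inter hE)
          rintro ω ⟨h1, h2⟩
          apply hmono
          have hy' : y ∉ (K : Set V) := by exact_mod_cast hy
          have h3 := cluster_kill (G := G) (ω := off ω e) (x := x) (K := (K : Set V)) h1 hy'
          have h4 : kill G (K : Set V) (off ω e) = kill G (K : Set V) ω := kill_update het ω false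
          rw [h4] at h3
          exact h3
      _ ≤ ∫⁻ ω in A, ψ (kill G (K : Set V) ω) ∂(perc V p) :=
          lintegral_mono_set Set.inter_subset_left
      _ = ∫⁻ ω, ψ (kill G (K : Set V) ω) * (A.indicator 1) ω ∂(perc V p) := by
          rw [← lintegral_indicator hAm]
          apply lintegral_congr
          intro ω
          by_cases ha : ω ∈ A <;> simp [ha]
      _ = (∫⁻ ω, ψ (kill G (K : Set V) ω) ∂(perc V p)) * (perc V p A) := by
          have := lintegral_indicator_one (μ := perc V p) hAm
          rw [← this]
          exact hcov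
      _ ≤ (∫⁻ ω, ψ ω ∂(perc V p)) * (perc V p A) := by
          gcongr with ω
          exact hmono _ _ (cluster_mono kill_le)
      _ = _ := by
          rw [mul_comm, lintegral_one, Measure.restrict_apply_univ]
  · intro ω ω' hω
    have hag : ∀ f ∈ touch G (K : Set V), off ω e f = off ω' e f := by
      intro f hf
      by_cases hfe : f = e
      · subst hfe; rw [off_self, off_self]
      · rw [off_ne hfe, off_ne hfe]
        exact hω f (by simpa [hF] using hf)
    have : ω ∈ A ↔ ω' ∈ A := by
      constructor
      · intro h
        have h' : cluster G (off ω e) x = K := h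
        show cluster G (off ω' e) x = K
        rw [cluster_congr (ω := off ω e), h']
        rw [h']; exact hag
      · intro h
        have h' : cluster G (off ω' e) x = K := h
        show cluster G (off ω e) x = K
        rw [cluster_congr (ω := off ω' e), h']
        rw [h']; exact fun f hf => (hag f hf).symm
    by_cases ha : ω ∈ A
    · rw [Set.indicator_of_mem ha, Set.indicator_of_mem (this.1 ha)]; rfl
    · rw [Set.indicator_of_notMem ha, Set.indicator_of_notMem (fun h => ha (this.2 h))]
  · intro f hf ω b
    have hft : f ∈ touch G (K : Set V) := by simpa [hF] using hf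
    rw [kill_update hft]

end perc

end Pool.Agent.H17.IIC
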