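import Mathlib
import Pool.Agent.H17.IIC.Indep

/-! (DCT), part (a): the functional `φ_q(S)` and the inequality `θ(q) ≤ φ_q(S) θ(q)`. -/

open MeasureTheory Set Filter Topology
open scoped ENNReal Classical

set_option linter.unusedSectionVars false

namespace Pool.Agent.H17.IIC

variable {V : Type*} {G : SimpleGraph V} {ω : Sym2 V → Bool}

/-- only the edges with both endpoints in `S` are kept -/
noncomputable def inn (S : Set V) (ω : Sym2 V → Bool) : Sym2 V → Bool :=
  fun e => if (∀ v ∈ e, v ∈ S) then ω e else false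

lemma inn_mk {S : Set V} {x y : V} : inn S ω s(x, y) = true ↔ (x ∈ S ∧ y ∈ S) ∧ ω s(x, y) = true := by
  unfold inn
  by_cases h : x ∈ S ∧ y ∈ S
  · have : ∀ v ∈ s(x, y), v ∈ S := by
      intro v hv
      rw [Sym2.mem_iff] at hv
      rcases hv with rfl | rfl
      · exact h.1
      · exact h.2
    rw [if_pos this]
    exact ⟨fun h' => ⟨h, h'⟩, fun h' => h'.2⟩
  · have : ¬ ∀ v ∈ s(x, y), v ∈ S := fun hh => h ⟨hh x (Sym2.mem_mk_left x y), hh y (Sym2.mem_mk_right x y)⟩
    rw [if_neg this]
    simp [h]

lemma inn_le {S : Set V} : ∀ e, inn S ω e = true → ω e = true := by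
  intro e he
  unfold inn at he
  split_ifs at he
  exact he

lemma cluster_inn_subset {S : Set V} {x : V} (hx : x ∈ S) : cluster G (inn S ω) x ⊆ S := by
  intro z hz
  exact cluster_induction (P := fun z => z ∈ S) hx
    (fun a _ _ b _ ho => (inn_mk.1 ho).1.2) z hz

lemma measurable_inn (S : Set V) : Measurable (fun ω : Sym2 V → Bool => inn S ω) := by
  rw [measurable_pi_iff]
  intro e
  unfold inn
  by_cases h : ∀ v ∈ e, v ∈ S
  · simp only [if_pos h]; exact measurable_pi_apply _
  · simp only [if_neg h]; exact measurable_const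

/-- an infinite cluster exits the cluster `K` inside `S` and continues to infinity off `K` -/
lemma infinite_step {S : Set V} (hS : S.Finite) {o : V} (ho : o ∈ S)
    (hfin : ∀ x, (G.neighborSet x).Finite)
    (hinf : (cluster G ω o).Infinite) :
    ∃ x ∈ cluster G (inn S ω) o, ∃ y, y ∉ S ∧ G.Adj x y ∧ ω s(x, y) = true ∧
      (cluster G (kill G (cluster G (inn S ω) o) ω) y).Infinite := by
  set K := cluster G (inn S ω) o with hK
  have hKS : K ⊆ S := cluster_inn_subset ho
  have hKf : K.Finite := hS.subset hKS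
  by_contra hc
  push Not at hc
  apply hinf
  set B : Set V := ⋃ x ∈ K, (G.neighborSet x) with hB
  have hBf : B.Finite := hKf.biUnion (fun x _ => hfin x)
  set B' : Set V := {y ∈ B | y ∉ S ∧ ∃ x ∈ K, G.Adj x y ∧ ω s(x, y) = true} with hB'
  have hB'f : B'.Finite := hBf.subset (fun y hy => hy.1)
  have hsub : cluster G ω o ⊆ K ∪ ⋃ y ∈ B', cluster G (kill G K ω) y := by
    intro z hz
    refine cluster_induction (P := fun z => z ∈ K ∪ ⋃ y ∈ B', cluster G (kill G K ω) y)
      (Or.inl self_mem_cluster) ?_ z hz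
    intro a _ ha b hab hob
    by_cases hbK : b ∈ K
    · exact Or.inl hbK
    right
    by_cases haK : a ∈ K
    · by_cases hbS : b ∈ S
      · exfalso
        apply hbK
        exact cluster_step haK hab (inn_mk.2 ⟨⟨hKS haK, hbS⟩, hob⟩)
      · simp only [Set.mem_iUnion]
        refine ⟨b, ⟨?_, hbS, a, haK, hab, hob⟩, self_mem_cluster⟩
        rw [hB]
        simp only [Set.mem_iUnion]
        exact ⟨a, haK, hab⟩
    · rcases ha with ha | ha
      · exact absurd ha haK
      simp only [Set.mem_iUnion] at ha ⊢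
      obtain ⟨y, hy, hay⟩ := ha
      refine ⟨y, hy, cluster_step hay hab ?_⟩
      unfold kill
      rw [if_neg]
      · exact hob
      · intro h
        rcases of_mem_touch h with h | h
        · exact haK h
        · exact hbK h
  refine (hKf.union (hB'f.biUnion ?_)).subset hsub
  rintro y ⟨_, hyS, x, hx, hxy, hoxy⟩
  exact hc x hx y hyS hxy hoxy

variable [Countable V] (p : unitInterval)

/-- the functional of Duminil-Copin and Tassion -/
noncomputable def phi (G : SimpleGraph V) (p : unitInterval) (o : V) (S : Set V) : ℝ≥0∞ :=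
  ENNReal.ofReal (p : ℝ) * ∑' b : V × V, if b.1 ∈ S ∧ b.2 ∉ S ∧ G.Adj b.1 b.2 then
    perc V p {ω | b.1 ∈ cluster G (inn S ω) o} else 0

lemma measurableSet_inf (x : V) : MeasurableSet {ω : Sym2 V → Bool | (cluster G ω x).Infinite} := by
  have : {ω : Sym2 V → Bool | (cluster G ω x).Infinite} = ⋂ k : ℕ, {ω | Big G k ω x} := by
    ext ω
    simp only [Set.mem_ofPred_eq, Set.mem_iInter]
    constructor
    · intro h k
      by_contra hc
      exact h (not_big_iff.1 hc).1
    · intro h
      exact infinite_of_big h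
  rw [this]
  exact MeasurableSet.iInter (fun k => measurableSet_big k x)

/-- the cluster inside `S` only depends on the edges inside `S` -/
lemma inn_congr {S : Set V} {ω ω' : Sym2 V → Bool} {o : V} {F : Set (Sym2 V)}
    (hF : ∀ a b, a ∈ cluster G (inn S ω) o → b ∈ S → G.Adj a b → s(a, b) ∈ F)
    (h : ∀ e ∈ F, ω e = ω' e) :
    cluster G (inn S ω') o = cluster G (inn S ω) o := by
  apply Set.Subset.antisymm
  · intro y hy
    refine cluster_induction (P := fun y => y ∈ cluster G (inn S ω) o) self_mem_cluster ?_ y hy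
    intro a _ hPa b hab hob
    obtain ⟨⟨ha, hb⟩, ho⟩ := inn_mk.1 hob
    refine cluster_step hPa hab (inn_mk.2 ⟨⟨ha, hb⟩, ?_⟩)
    rw [h _ (hF a b hPa hb hab)]
    exact ho
  · apply cluster_subset_of_edges
    intro a ha b hab ho
    obtain ⟨⟨ha', hb'⟩, ho'⟩ := inn_mk.1 ho
    refine inn_mk.2 ⟨⟨ha', hb'⟩, ?_⟩
    rw [← h _ (hF a b ha hb' hab)]
    exact ho'

lemma prob_step (hfin : ∀ x, (G.neighborSet x).Finite) {S : Set V} {o x y : V}
    (ho : o ∈ S) (hy : y ∉ S) (hxy : G.Adj x y) (K : Finset V) (hKS : (K : Set V) ⊆ S)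
    (hx : x ∈ K) :
    perc V p {ω | cluster G (inn S ω) o = K ∧ ω s(x, y) = true ∧
        (cluster G (kill G (K : Set V) ω) y).Infinite}
      ≤ perc V p {ω | cluster G (inn S ω) o = K} * ENNReal.ofReal (p : ℝ)
        * perc V p {ω | (cluster G ω y).Infinite} := by
  set F : Finset (Sym2 V) := (touch_finite G hfin K.finite_toSet).toFinset with hF
  have hFm : ∀ e, e ∈ F ↔ e ∈ touch G (K : Set V) := fun e => by simp [hF]
  have hA0 : MeasurableSet {ω : Sym2 V → Bool | cluster G (inn S ω) o = K} :=
    (measurable_inn S) (measurableSet_cluster_eq o K)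
  have hE0 : MeasurableSet {ω : Sym2 V → Bool | ω s(x, y) = true} :=
    measurableSet_eq_fun (measurable_pi_apply _) measurable_const
  have hB0 : MeasurableSet {ω : Sym2 V → Bool | (cluster G (kill G (K : Set V) ω) y).Infinite} :=
    (measurable_kill (K : Set V)) (measurableSet_inf y)
  have hdepA : ∀ ω ω' : Sym2 V → Bool, (∀ e ∈ F, ω e = ω' e) →
      (ω ∈ {ω : Sym2 V → Bool | cluster G (inn S ω) o = K} →
        ω' ∈ {ω : Sym2 V → Bool | cluster G (inn S ω) o = K}) := by
    intro ω ω' h hω
    have hω' : cluster G (inn S ω) o = K := hω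
    show cluster G (inn S ω') o = K
    rw [← hω']
    apply inn_congr (F := touch G (K : Set V)) _ (fun e he => h e ((hFm e).2 he))
    intro a b ha _ hab
    rw [hω'] at ha
    exact mem_touch_left ha hab
  have hxyF : s(x, y) ∈ F := (hFm _).2 (mem_touch_left (by exact_mod_cast hx) hxy)
  have h1 : perc V p (({ω : Sym2 V → Bool | cluster G (inn S ω) o = K} ∩ {ω | ω s(x, y) = true})
      ∩ {ω | (cluster G (kill G (K : Set V) ω) y).Infinite})
      = perc V p ({ω : Sym2 V → Bool | cluster G (inn S ω) o = K} ∩ {ω | ω s(x, y) = true})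
        * perc V p {ω | (cluster G (kill G (K : Set V) ω) y).Infinite} := by
    refine indep_set p F (hA0.inter hE0) hB0 ?_ ?_
    · intro ω ω' h
      constructor
      · rintro ⟨a, b⟩
        refine ⟨hdepA ω ω' h a, ?_⟩
        show ω' s(x, y) = true
        rw [← h _ hxyF]; exact b
      · rintro ⟨a, b⟩
        refine ⟨hdepA ω' ω (fun e he => (h e he).symm) a, ?_⟩
        show ω s(x, y) = true
        rw [h _ hxyF]; exact b
    · intro e he ω b
      simp only [Set.mem_ofPred_eq]
      rw [kill_update ((hFm e).1 he)]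
  have h2 : perc V p ({ω : Sym2 V → Bool | ω s(x, y) = true}
      ∩ {ω : Sym2 V → Bool | cluster G (inn S ω) o = K})
      = perc V p {ω | ω s(x, y) = true} * perc V p {ω : Sym2 V → Bool | cluster G (inn S ω) o = K} := by
    refine indep_set p {s(x, y)} hE0 hA0 ?_ ?_
    · intro ω ω' h
      show ω s(x, y) = true ↔ ω' s(x, y) = true
      rw [h _ (Finset.mem_singleton_self _)]
    · intro e he ω b
      rw [Finset.mem_singleton] at he
      subst he
      have : inn S (Function.update ω s(x, y) b) = inn S ω := by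
        funext f
        unfold inn
        split_ifs with hf
        · apply Function.update_of_ne
          rintro rfl
          exact hy (hf y (Sym2.mem_mk_right x y))
        · rfl
      simp only [Set.mem_ofPred_eq, this]
  have hset : {ω : Sym2 V → Bool | cluster G (inn S ω) o = K ∧ ω s(x, y) = true ∧
        (cluster G (kill G (K : Set V) ω) y).Infinite}
      = ({ω : Sym2 V → Bool | cluster G (inn S ω) o = K} ∩ {ω | ω s(x, y) = true})
      ∩ {ω | (cluster G (kill G (K : Set V) ω) y).Infinite} := by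
    ext ω
    simp only [Set.mem_inter_iff, Set.mem_ofPred_eq, and_assoc]
  rw [hset, h1, Set.inter_comm, h2]
  have hop : perc V p {ω | ω s(x, y) = true} = ENNReal.ofReal (p : ℝ) := prob_open p s(x, y)
  rw [hop, mul_comm (ENNReal.ofReal (p : ℝ))]
  refine mul_le_mul_right (measure_mono ?_) _
  intro ω hω
  exact Set.Infinite.mono (cluster_mono kill_le) (show (cluster G (kill G (K : Set V) ω) y).Infinite from hω)

/-- `θ(p) ≤ φ_p(S) sup θ` -/
theorem theta_le (hfin : ∀ x, (G.neighborSet x).Finite) {S : Set V} (hS : S.Finite) {o : V}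
    (ho : o ∈ S) {c : ℝ≥0∞} (hc : ∀ y, perc V p {ω | (cluster G ω y).Infinite} ≤ c) :
    perc V p {ω | (cluster G ω o).Infinite} ≤ phi G p o S * c := by
  set T : V × V → Finset V → Set (Sym2 V → Bool) := fun b K =>
    if (b.1 ∈ S ∧ b.2 ∉ S ∧ G.Adj b.1 b.2) ∧ ((K : Set V) ⊆ S ∧ b.1 ∈ K) then
      {ω | cluster G (inn S ω) o = K ∧ ω s(b.1, b.2) = true ∧
        (cluster G (kill G (K : Set V) ω) b.2).Infinite} else ∅ with hT
  have hsub : {ω : Sym2 V → Bool | (cluster G ω o).Infinite} ⊆ ⋃ b : V × V, ⋃ K : Finset V, T b K := by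
    intro ω hω
    obtain ⟨x, hx, y, hyS, hxy, hoxy, hinf⟩ := infinite_step hS ho hfin hω
    have hKS : cluster G (inn S ω) o ⊆ S := cluster_inn_subset ho
    have hKf := hS.subset hKS
    simp only [Set.mem_iUnion]
    refine ⟨(x, y), hKf.toFinset, ?_⟩
    simp only [hT]
    rw [if_pos]
    · simp only [Set.Finite.coe_toFinset, Set.mem_ofPred_eq, true_and]
      exact ⟨hoxy, hinf⟩
    · refine ⟨⟨hKS hx, hyS, hxy⟩, by simpa using hKS, by simpa using hx⟩
  refine le_trans (measure_mono hsub) (le_trans (measure_iUnion_le _) ?_)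
  unfold phi
  rw [mul_assoc, ← ENNReal.tsum_mul_right, ← ENNReal.tsum_mul_left]
  apply ENNReal.tsum_le_tsum
  intro b
  refine le_trans (measure_iUnion_le _) ?_
  by_cases hb : b.1 ∈ S ∧ b.2 ∉ S ∧ G.Adj b.1 b.2
  · rw [if_pos hb]
    have h1 : ∀ K : Finset V, perc V p (T b K)
        ≤ ENNReal.ofReal (p : ℝ) * (perc V p ({ω : Sym2 V → Bool | cl G (inn S ω) o = K}
            ∩ {ω | b.1 ∈ cluster G (inn S ω) o}) * c) := by
      intro K
      by_cases hK : (K : Set V) ⊆ S ∧ b.1 ∈ K
      · simp only [hT, hb, hK]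
        simp only [not_false_eq_true, and_self, if_true]
        refine le_trans (prob_step p hfin ho hb.2.1 hb.2.2 K hK.1 hK.2) ?_
        have hne : K.Nonempty := ⟨_, hK.2⟩
        have : ({ω : Sym2 V → Bool | cl G (inn S ω) o = K} ∩ {ω | b.1 ∈ cluster G (inn S ω) o})
            = {ω | cluster G (inn S ω) o = K} := by
          ext ω
          simp only [Set.mem_inter_iff, Set.mem_ofPred_eq]
          rw [cl_eq_iff hne]
          constructor
          · exact fun h => h.1
          · intro h
            refine ⟨h, ?_⟩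
            rw [h]; exact_mod_cast hK.2
        rw [this]
        calc _ ≤ perc V p {ω | cluster G (inn S ω) o = K} * ENNReal.ofReal (p : ℝ) * c := by
              gcongr
              exact hc b.2
          _ = _ := by ring
      · simp only [hT, hK, and_false, if_false, measure_empty]
        exact bot_le
    refine le_trans (ENNReal.tsum_le_tsum h1) ?_
    rw [ENNReal.tsum_mul_left, ENNReal.tsum_mul_right]
    gcongr
    have hX : Measurable (fun ω : Sym2 V → Bool => cl G (inn S ω) o) :=
      (measurable_cl o).comp (measurable_inn S)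
    have hm : MeasurableSet {ω : Sym2 V → Bool | b.1 ∈ cluster G (inn S ω) o} :=
      (measurable_inn S) (measurableSet_mem_cluster o b.1)
    have := setLIntegral_cl p {ω : Sym2 V → Bool | b.1 ∈ cluster G (inn S ω) o} (fun _ => 1) hX
    simp only [one_mul, lintegral_const, Measure.restrict_apply_univ] at this
    rw [← this]
  · have : ∀ K : Finset V, perc V p (T b K) = 0 := by
      intro K
      simp only [hT, hb, false_and, if_false, measure_empty]
    simp [this]

/-- (a): if there is an infinite cluster then `φ_p(S) ≥ 1` for every finite `S` -/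
theorem one_le_phi {Γ : Type*} [Group Γ] [Countable Γ] {G : SimpleGraph Γ} (hG : CayleyLike G)
    (p : unitInterval) (h : ¬ ThetaZero G p) {S : Set Γ} (hS : S.Finite) (h1 : (1 : Γ) ∈ S) :
    1 ≤ phi G p 1 S := by
  have hc : ∀ y, perc Γ p {ω | (cluster G ω y).Infinite} ≤ perc Γ p {ω | (cluster G ω 1).Infinite} := by
    intro y
    have h2 : {ω : Sym2 Γ → Bool | (cluster G ω y).Infinite}
        = (shift y) ⁻¹' {ω | (cluster G ω 1).Infinite} := by
      ext ω
      have := finite_shift hG.inv y ω 1
      rw [mul_one] at this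
      simp only [Set.mem_ofPred_eq, Set.mem_preimage, Set.Infinite, this]
    rw [h2, ← Measure.map_apply (measurable_shift y) (measurableSet_inf 1), map_shift]
  have key := theta_le p hG.fin hS h1 hc
  by_contra hlt
  push Not at hlt
  have h0 : perc Γ p {ω | (cluster G ω 1).Infinite} ≠ 0 := h
  have ht : perc Γ p {ω | (cluster G ω 1).Infinite} ≠ ⊤ := measure_ne_top _ _
  have : phi G p 1 S * perc Γ p {ω | (cluster G ω 1).Infinite}
      < 1 * perc Γ p {ω | (cluster G ω 1).Infinite} := by
    rwa [ENNReal.mul_lt_mul_iff_left h0 ht]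
  rw [one_mul] at this
  exact absurd key (not_le.2 this)

end Pool.Agent.H17.IIC
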