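import Mathlib
import Pool.Agent.H17.IIC.Phi

/-! (DCT), part (c): the differential inequality for the truncated expected cluster size. -/

open MeasureTheory Set Filter Topology
open scoped ENNReal Classical

set_option linter.unusedSectionVars false

namespace Pool.Agent.H17.IIC

section gen
variable {V : Type*} {G : SimpleGraph V} {ω ω' : Sym2 V → Bool}

/-- the truncated size `min(|C_x|, t)` -/
noncomputable def sz (G : SimpleGraph V) (t : ℕ) (x : V) (ω : Sym2 V → Bool) : ℝ≥0∞ :=
  ((min (cluster G ω x).encard (t : ℕ∞) : ℕ∞) : ℝ≥0∞)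

lemma sz_mono {t : ℕ} {x y : V} (h : cluster G ω x ⊆ cluster G ω' y) :
    sz G t x ω ≤ sz G t y ω' := by
  unfold sz
  exact_mod_cast min_le_min_right _ (Set.encard_le_encard h)

lemma sz_le (t : ℕ) (x : V) : sz G t x ω ≤ t := by
  unfold sz
  exact_mod_cast min_le_right (cluster G ω x).encard (t : ℕ∞)

lemma sz_congr {t : ℕ} {x y : V} (h : cluster G ω x = cluster G ω' y) :
    sz G t x ω = sz G t y ω' := by
  unfold sz; rw [h]

/-- the contribution of the ordered edge `(x, y)` -/
noncomputable def gg (G : SimpleGraph V) (t : ℕ) (o x y : V) (ω : Sym2 V → Bool) : ℝ≥0∞ :=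
  {ω | y ∉ cluster G (off ω s(x, y)) x}.indicator
    (fun ω => (if o ∈ cl G (off ω s(x, y)) x ∧ (cl G (off ω s(x, y)) x).card < t then 1 else 0)
      * sz G t y (off ω s(x, y))) ω

lemma diff_le_gg_aux {t : ℕ} {o x y : V} (hxy : G.Adj x y)
    (hy : y ∉ cluster G (off ω s(x, y)) x) (ho : o ∈ cluster G (off ω s(x, y)) x) :
    sz G t o (on ω s(x, y)) - sz G t o (off ω s(x, y)) ≤ gg G t o x y ω := by
  set e := s(x, y) with he
  have h1 : cluster G (off ω e) o = cluster G (off ω e) x := cluster_eq_of_mem ho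
  have h2 : cluster G (on ω e) o = cluster G (off ω e) x ∪ cluster G (off ω e) y := by
    rw [cluster_eq_of_mem (cluster_mono (off_le_on _) ho : o ∈ cluster G (on ω e) x)]
    exact cluster_on hxy
  by_cases hlt : (cluster G (off ω e) x).encard < (t : ℕ∞)
  · have hf : (cluster G (off ω e) x).Finite := by
      rw [← Set.encard_lt_top_iff]
      exact lt_trans hlt (by simp)
    have hc : (cl G (off ω e) x).card < t := by
      rw [← cl_eq_of_finite hf, Set.encard_coe_eq_coe_finsetCard] at hlt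
      exact_mod_cast hlt
    have hg : gg G t o x y ω = sz G t y (off ω e) := by
      unfold gg
      rw [Set.indicator_of_mem (show ω ∈ {ω | y ∉ cluster G (off ω s(x, y)) x} from hy),
        if_pos ⟨(mem_cl_of_finite hf).2 ho, hc⟩, one_mul]
    rw [hg, tsub_le_iff_left]
    unfold sz
    rw [h1, h2]
    have h3 : min ((cluster G (off ω e) x ∪ cluster G (off ω e) y).encard) (t : ℕ∞)
        ≤ min (cluster G (off ω e) x).encard t + min (cluster G (off ω e) y).encard t := by
      refine le_trans (min_le_min_right _ (Set.encard_union_le _ _)) ?_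
      rcases le_total (cluster G (off ω e) x).encard (t : ℕ∞) with h | h
      · rcases le_total (cluster G (off ω e) y).encard (t : ℕ∞) with h' | h'
        · rw [min_eq_left h, min_eq_left h']; exact min_le_left _ _
        · rw [min_eq_right h']
          exact le_trans (min_le_right _ _) le_add_self
      · rw [min_eq_right h]
        exact le_trans (min_le_right _ _) le_self_add
    exact_mod_cast h3
  · have h3 : sz G t o (off ω e) = t := by
      unfold sz
      rw [h1, min_eq_right (not_lt.1 hlt)]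
      simp
    rw [h3, tsub_eq_zero_of_le (sz_le t o)]
    exact bot_le

lemma diff_le_gg {t : ℕ} {o x y : V} (hxy : G.Adj x y) :
    sz G t o (on ω s(x, y)) - sz G t o (off ω s(x, y)) ≤ gg G t o x y ω + gg G t o y x ω := by
  by_cases hy : y ∈ cluster G (off ω s(x, y)) x
  · rw [sz_congr (cluster_on_of_mem hxy hy o), tsub_self]
    exact bot_le
  · by_cases ho : o ∈ cluster G (off ω s(x, y)) x
    · exact le_trans (diff_le_gg_aux hxy hy ho) le_self_add
    · by_cases ho' : o ∈ cluster G (off ω s(x, y)) y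
      · have hswap : s(x, y) = s(y, x) := Sym2.eq_swap
        have hx : x ∉ cluster G (off ω s(y, x)) y := by
          intro h
          apply hy
          rw [hswap]
          exact mem_cluster_comm.1 h
        rw [hswap] at ho' ⊢
        exact le_trans (diff_le_gg_aux hxy.symm hx ho') le_add_self
      · rw [sz_congr (cluster_on_of_not_mem ho ho'), tsub_self]
        exact bot_le

variable [Countable V] (p : unitInterval)

lemma sz_eq_cl (t : ℕ) (x : V) (ω : Sym2 V → Bool) : sz G t x ω
    = (fun K : Finset V => if K = ∅ then (t : ℝ≥0∞) else ((min K.card t : ℕ) : ℝ≥0∞)) (cl G ω x) := by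
  unfold sz
  by_cases hf : (cluster G ω x).Finite
  · have hne : cl G ω x ≠ ∅ := by
      intro h
      have : x ∈ cl G ω x := (mem_cl_of_finite hf).2 self_mem_cluster
      rw [h] at this
      simp at this
    simp only [hne, if_false]
    rw [← cl_eq_of_finite hf, Set.encard_coe_eq_coe_finsetCard]
    have : min (((cl G ω x).card : ℕ) : ℕ∞) (t : ℕ∞) = ((min (cl G ω x).card t : ℕ) : ℕ∞) := rfl
    rw [this]
    simp
  · rw [cl_eq_empty hf]
    have : (cluster G ω x).encard = ⊤ := Set.encard_eq_top hf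
    simp [this]

lemma measurable_sz (t : ℕ) (x : V) : Measurable (sz G t x) := by
  have : sz G t x = fun ω => (fun K : Finset V => if K = ∅ then (t : ℝ≥0∞)
      else ((min K.card t : ℕ) : ℝ≥0∞)) (cl G ω x) := by
    funext ω; exact sz_eq_cl t x ω
  rw [this]
  have h := (measurable_of_countable (fun K : Finset V => if K = ∅ then (t : ℝ≥0∞)
      else ((min K.card t : ℕ) : ℝ≥0∞))).comp (measurable_cl (G := G) x)
  exact h

lemma measurable_gg (t : ℕ) (o x y : V) : Measurable (gg G t o x y) := by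
  unfold gg
  refine Measurable.indicator ?_ ((measurable_off _) (measurableSet_mem_cluster x y)).compl
  refine Measurable.mul ?_ ((measurable_sz t y).comp (measurable_off _))
  have : Measurable (fun K : Finset V => (if o ∈ K ∧ K.card < t then (1 : ℝ≥0∞) else 0)) :=
    measurable_of_countable _
  exact this.comp ((measurable_cl x).comp (measurable_off _))

end gen

variable {Γ : Type*} [Group Γ] [Countable Γ] {G : SimpleGraph Γ} (p : unitInterval)

lemma lintegral_sz (hG : CayleyLike G) (t : ℕ) (x : Γ) :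
    ∫⁻ ω, sz G t x ω ∂(perc Γ p) = fT G p t := by
  have h : ∀ ω, sz G t x ω = sz G t 1 (shift x ω) := by
    intro ω
    unfold sz
    have := encard_shift hG.inv x ω 1
    rw [mul_one] at this
    rw [this]
  simp only [h]
  exact lintegral_shift p x (measurable_sz t 1)

lemma lintegral_gg (hG : CayleyLike G) (hp1 : (p : ℝ) ≠ 1) (t : ℕ) {x y : Γ} (hxy : G.Adj x y) :
    ∫⁻ ω, gg G t 1 x y ω ∂(perc Γ p)
      ≤ (ENNReal.ofReal (1 - (p : ℝ)))⁻¹ *
          (∫⁻ ω, (if (1 : Γ) ∈ cl G ω x ∧ (cl G ω x).card < t then (1 : ℝ≥0∞) else 0) ∂(perc Γ p))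
        * fT G p t := by
  unfold gg
  have hE : MeasurableSet {ω : Sym2 Γ → Bool | y ∉ cluster G (off ω s(x, y)) x} :=
    ((measurable_off s(x, y)) (measurableSet_mem_cluster x y)).compl
  rw [lintegral_indicator hE]
  refine le_trans (explore_gen p hG.fin hxy
    (fun K : Finset Γ => if (1 : Γ) ∈ K ∧ K.card < t then (1 : ℝ≥0∞) else 0) (by simp)
    (sz G t y) (measurable_sz t y) (fun ω ω' h => sz_mono h)) ?_
  rw [lintegral_sz p hG]
  gcongr
  exact lintegral_off_le p s(x, y) hp1 (measurable_cl_fun (G := G) x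
    (fun K : Finset Γ => if (1 : Γ) ∈ K ∧ K.card < t then (1 : ℝ≥0∞) else 0))

lemma tsum_small (hG : CayleyLike G) (t : ℕ) :
    ∑' x : Γ, ∫⁻ ω, (if (1 : Γ) ∈ cl G ω x ∧ (cl G ω x).card < t then (1 : ℝ≥0∞) else 0) ∂(perc Γ p)
      ≤ fT G p t := by
  rw [← lintegral_tsum (fun x => (measurable_cl_fun (G := G) x
    (fun K : Finset Γ => if (1 : Γ) ∈ K ∧ K.card < t then (1 : ℝ≥0∞) else 0)).aemeasurable),
    ← lintegral_sz p hG t 1]
  apply lintegral_mono
  intro ω
  show ∑' x : Γ, (if (1 : Γ) ∈ cl G ω x ∧ (cl G ω x).card < t then (1 : ℝ≥0∞) else 0) ≤ sz G t 1 ω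
  by_cases h : (cl G ω 1).card < t ∧ (cluster G ω 1).Finite
  · rw [tsum_eq_sum (s := cl G ω 1)]
    · have : ∀ x ∈ cl G ω 1, (if (1 : Γ) ∈ cl G ω x ∧ (cl G ω x).card < t then (1 : ℝ≥0∞) else 0) ≤ 1 := by
        intro x _
        split_ifs <;> simp
      refine le_trans (Finset.sum_le_sum this) ?_
      unfold sz
      rw [← cl_eq_of_finite h.2, Set.encard_coe_eq_coe_finsetCard, min_eq_left (by exact_mod_cast h.1.le)]
      simp
    · intro x hx
      rw [if_neg]
      rintro ⟨h1, _⟩
      exact hx (mem_cl_comm.1 h1)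
  · have : ∀ x, (if (1 : Γ) ∈ cl G ω x ∧ (cl G ω x).card < t then (1 : ℝ≥0∞) else 0) = 0 := by
      intro x
      rw [if_neg]
      rintro ⟨h1, h2⟩
      apply h
      have h3 := mem_cl_comm.1 h1
      rw [cl_eq_cl h3] at h2
      exact ⟨h2, (mem_cl_iff.1 h3).1⟩
    simp [this]

/-- the degree of the graph -/
noncomputable def deg (hG : CayleyLike G) : ℕ := (hG.fin 1).toFinset.card

lemma tsum_nbr (hG : CayleyLike G) (x : Γ) (c : ℝ≥0∞) :
    ∑' y : Γ, (if G.Adj x y then c else 0) = deg hG * c := by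
  rw [← (Equiv.mulLeft x).tsum_eq]
  have h : ∀ s : Γ, (if G.Adj x ((Equiv.mulLeft x) s) then c else 0) = if G.Adj 1 s then c else 0 := by
    intro s
    have : G.Adj x ((Equiv.mulLeft x) s) ↔ G.Adj 1 s := by
      have := hG.inv x 1 s
      rw [mul_one] at this
      exact this
    simp only [this]
  simp only [h]
  rw [tsum_eq_sum (s := (hG.fin 1).toFinset)]
  · have : ∀ s ∈ (hG.fin 1).toFinset, (if G.Adj 1 s then c else 0) = c := by
      intro s hs
      rw [if_pos (by simpa using hs)]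
    rw [Finset.sum_congr rfl this, Finset.sum_const, nsmul_eq_mul]
    rfl
  · intro s hs
    rw [if_neg (by simpa using hs)]

lemma tsum_gg (hG : CayleyLike G) (hp1 : (p : ℝ) ≠ 1) (t : ℕ) :
    ∑' b : Γ × Γ, (if G.Adj b.1 b.2 then ∫⁻ ω, gg G t 1 b.1 b.2 ω ∂(perc Γ p) else 0)
      ≤ deg hG * (ENNReal.ofReal (1 - (p : ℝ)))⁻¹ * fT G p t * fT G p t := by
  rw [ENNReal.tsum_prod']
  set I : Γ → ℝ≥0∞ := fun x =>
    ∫⁻ ω, (if (1 : Γ) ∈ cl G ω x ∧ (cl G ω x).card < t then (1 : ℝ≥0∞) else 0) ∂(perc Γ p) with hI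
  calc ∑' x : Γ, ∑' y : Γ, (if G.Adj x y then ∫⁻ ω, gg G t 1 x y ω ∂(perc Γ p) else 0)
      ≤ ∑' x : Γ, ∑' y : Γ, (if G.Adj x y then
          (ENNReal.ofReal (1 - (p : ℝ)))⁻¹ * I x * fT G p t else 0) := by
        refine ENNReal.tsum_le_tsum (fun x => ENNReal.tsum_le_tsum (fun y => ?_))
        split_ifs with h
        · exact lintegral_gg p hG hp1 t h
        · exact le_rfl
    _ = ∑' x : Γ, deg hG * ((ENNReal.ofReal (1 - (p : ℝ)))⁻¹ * I x * fT G p t) := by
        congr 1
        funext x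
        exact tsum_nbr hG x _
    _ = deg hG * (ENNReal.ofReal (1 - (p : ℝ)))⁻¹ * (∑' x : Γ, I x) * fT G p t := by
        rw [ENNReal.tsum_mul_left]
        have : ∀ x, (ENNReal.ofReal (1 - (p : ℝ)))⁻¹ * I x * fT G p t
            = I x * ((ENNReal.ofReal (1 - (p : ℝ)))⁻¹ * fT G p t) := fun x => by ring
        simp only [this]
        rw [ENNReal.tsum_mul_right]
        ring
    _ ≤ _ := by
        gcongr
        exact tsum_small p hG t

/-- (c) in `ℝ≥0∞` -/
theorem sum_infl_sz (hG : CayleyLike G) (hp1 : (p : ℝ) ≠ 1) (t : ℕ) (Λ : Finset (Sym2 Γ)) :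
    ∑ e ∈ Λ, ∫⁻ ω, (sz G t 1 (on ω e) - sz G t 1 (off ω e)) ∂(perc Γ p)
      ≤ 2 * (deg hG * (ENNReal.ofReal (1 - (p : ℝ)))⁻¹ * fT G p t * fT G p t) := by
  set a : Γ × Γ → ℝ≥0∞ := fun b =>
    if G.Adj b.1 b.2 then ∫⁻ ω, gg G t 1 b.1 b.2 ω ∂(perc Γ p) else 0 with ha
  have h1 : ∀ e ∈ Λ, ∫⁻ ω, (sz G t 1 (on ω e) - sz G t 1 (off ω e)) ∂(perc Γ p)
      ≤ a (Quot.out e) + a (Quot.out e).swap := by
    intro e _
    obtain ⟨x, y, hxy⟩ : ∃ x y, Quot.out e = (x, y) := ⟨_, _, rfl⟩
    have he : e = s(x, y) := by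
      have := Quot.out_eq e
      rw [hxy] at this
      exact this.symm
    rw [hxy]
    subst he
    by_cases hadj : G.Adj x y
    · simp only [ha, Prod.swap_prod_mk, if_pos hadj, if_pos hadj.symm]
      rw [← lintegral_add_left (measurable_gg t 1 x y)]
      exact lintegral_mono (fun ω => diff_le_gg hadj)
    · have : ∀ ω : Sym2 Γ → Bool, cluster G (on ω s(x, y)) 1 = cluster G (off ω s(x, y)) 1 := by
        intro ω
        apply cluster_congr
        intro f hf
        rw [off_ne, on_ne]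
        · rintro rfl
          obtain ⟨a, _, b, hab, he⟩ := hf
          rw [Sym2.eq_iff] at he
          rcases he with ⟨rfl, rfl⟩ | ⟨rfl, rfl⟩
          · exact hadj hab
          · exact hadj hab.symm
        · rintro rfl
          obtain ⟨a, _, b, hab, he⟩ := hf
          rw [Sym2.eq_iff] at he
          rcases he with ⟨rfl, rfl⟩ | ⟨rfl, rfl⟩
          · exact hadj hab
          · exact hadj hab.symm
      have h0 : ∀ ω : Sym2 Γ → Bool,
          sz G t 1 (on ω s(x, y)) - sz G t 1 (off ω s(x, y)) = 0 := by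
        intro ω
        rw [sz_congr (this ω), tsub_self]
      simp [h0]
  refine le_trans (Finset.sum_le_sum h1) ?_
  rw [Finset.sum_add_distrib, two_mul]
  have hinj : Function.Injective (fun e : Sym2 Γ => (Quot.out e : Γ × Γ)) := by
    intro e e' h
    have h' : (Quot.out e : Γ × Γ) = Quot.out e' := h
    rw [← Quot.out_eq e, ← Quot.out_eq e', h']
  have hinj' : Function.Injective (fun e : Sym2 Γ => (Quot.out e : Γ × Γ).swap) :=
    Prod.swap_injective.comp hinj
  gcongr
  · refine le_trans ?_ (tsum_gg p hG hp1 t)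
    have := Finset.sum_image (s := Λ) (f := a) (g := fun e : Sym2 Γ => (Quot.out e : Γ × Γ))
      (fun x _ y _ h => hinj h)
    rw [← this]
    exact ENNReal.sum_le_tsum _
  · refine le_trans ?_ (tsum_gg p hG hp1 t)
    have := Finset.sum_image (s := Λ) (f := a) (g := fun e : Sym2 Γ => (Quot.out e : Γ × Γ).swap)
      (fun x _ y _ h => hinj' h)
    rw [← this]
    exact ENNReal.sum_le_tsum _

end Pool.Agent.H17.IIC
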