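import Mathlib
import Pool.Agent.H17.IIC.Trunc
import Pool.Agent.H91.IIC.Russo

/-! (DCT), part (d): the truncated expected cluster size at the critical point is at least
`c √t`. -/

open MeasureTheory Set Filter Topology
open scoped ENNReal Classical

set_option linter.unusedSectionVars false

namespace Pool.Agent.H17.IIC

open Pool.Agent.H91.IIC (prm prm_coe russo DepOn)

/-! ### two differential inequalities -/

lemma ode1 {u u' : ℝ → ℝ} {a b K : ℝ} (hab : a ≤ b)
    (hu : ∀ y ∈ Set.Icc a b, HasDerivAt u (u' y) y) (hpos : ∀ y ∈ Set.Icc a b, 0 < u y)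
    (hle : ∀ y ∈ Set.Icc a b, u' y ≤ K * (u y) ^ 2) : (u a)⁻¹ ≤ (u b)⁻¹ + K * (b - a) := by
  have hd : ∀ y ∈ Set.Icc a b, HasDerivAt (fun y => -(u y)⁻¹ - K * y) (u' y / (u y) ^ 2 - K) y := by
    intro y hy
    have h1 := (hu y hy).fun_inv (hpos y hy).ne'
    have h2 := h1.fun_neg
    have h3 := (hasDerivAt_id y).const_mul K
    have h4 := h2.fun_sub h3
    refine h4.congr_deriv ?_
    ring
  have hanti : AntitoneOn (fun y => -(u y)⁻¹ - K * y) (Set.Icc a b) := by
    apply antitoneOn_of_deriv_nonpos (convex_Icc a b)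
    · intro y hy
      exact (hd y hy).continuousAt.continuousWithinAt
    · intro y hy
      rw [interior_Icc] at hy
      exact (hd y (Set.Ioo_subset_Icc_self hy)).differentiableAt.differentiableWithinAt
    · intro y hy
      rw [interior_Icc] at hy
      have hy' := Set.Ioo_subset_Icc_self hy
      rw [(hd y hy').deriv]
      have h1 := hle y hy'
      have h2 : 0 < (u y) ^ 2 := pow_pos (hpos y hy') 2
      have h3 : u' y / (u y) ^ 2 ≤ K := by
        rw [div_le_iff₀ h2]; exact h1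
      linarith
  have := hanti (Set.left_mem_Icc.2 hab) (Set.right_mem_Icc.2 hab) hab
  simp only at this
  linarith

lemma ode2 {w w' : ℝ → ℝ} {a b : ℝ} (hab : a ≤ b)
    (hw : ∀ y ∈ Set.Icc a b, HasDerivAt w (w' y) y)
    (hge : ∀ y ∈ Set.Ioo a b, 4 * (1 - w y) ≤ w' y) :
    1 - w b ≤ (1 - w a) * Real.exp (-(4 * (b - a))) := by
  have hd : ∀ y ∈ Set.Icc a b, HasDerivAt (fun y => (1 - w y) * Real.exp (4 * y))
      (-w' y * Real.exp (4 * y) + (1 - w y) * (Real.exp (4 * y) * 4)) y := by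
    intro y hy
    have h1 := (hw y hy).const_sub 1
    have h2 : HasDerivAt (fun y : ℝ => Real.exp (4 * y)) (Real.exp (4 * y) * 4) y := by
      have h3 : HasDerivAt (fun y : ℝ => 4 * y) 4 y := by
        simpa using (hasDerivAt_id y).const_mul (4 : ℝ)
      exact h3.exp
    exact h1.fun_mul h2
  have hanti : AntitoneOn (fun y => (1 - w y) * Real.exp (4 * y)) (Set.Icc a b) := by
    apply antitoneOn_of_deriv_nonpos (convex_Icc a b)
    · intro y hy
      exact (hd y hy).continuousAt.continuousWithinAt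
    · intro y hy
      rw [interior_Icc] at hy
      exact (hd y (Set.Ioo_subset_Icc_self hy)).differentiableAt.differentiableWithinAt
    · intro y hy
      rw [interior_Icc] at hy
      have hy' := Set.Ioo_subset_Icc_self hy
      rw [(hd y hy').deriv]
      have h1 := hge y hy
      have h2 : 0 < Real.exp (4 * y) := Real.exp_pos _
      nlinarith
  have := hanti (Set.left_mem_Icc.2 hab) (Set.right_mem_Icc.2 hab) hab
  simp only at this
  have h5 : Real.exp (-(4 * (b - a))) = Real.exp (4 * a) * (Real.exp (4 * b))⁻¹ := by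
    rw [← Real.exp_neg, ← Real.exp_add]
    congr 1
    ring
  rw [h5, ← mul_assoc]
  have h6 : 0 < Real.exp (4 * b) := Real.exp_pos _
  calc 1 - w b = ((1 - w b) * Real.exp (4 * b)) * (Real.exp (4 * b))⁻¹ := by
        field_simp
    _ ≤ _ := mul_le_mul_of_nonneg_right this (inv_nonneg.2 h6.le)

/-! ### the truncated size as a local function -/

section loc
variable {V : Type*} {G : SimpleGraph V}

lemma sz_eq_sum (t : ℕ) (x : V) (ω : Sym2 V → Bool) :
    sz G t x ω = ∑ k ∈ Finset.range t, if Big G k ω x then (1 : ℝ≥0∞) else 0 := by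
  unfold sz
  by_cases hf : (cluster G ω x).Finite
  · have hb : ∀ k, Big G k ω x ↔ k < (cl G ω x).card := fun k => big_iff_of_finite hf
    simp only [hb]
    have h1 : (cluster G ω x).encard = ((cl G ω x).card : ℕ∞) := by
      rw [← cl_eq_of_finite hf, Set.encard_coe_eq_coe_finsetCard]
    have h2 : min (((cl G ω x).card : ℕ) : ℕ∞) (t : ℕ∞) = ((min (cl G ω x).card t : ℕ) : ℕ∞) := rfl
    rw [h1, h2, ← Finset.sum_filter, Finset.sum_const, nsmul_eq_mul, mul_one]
    have h3 : (Finset.range t).filter (fun k => k < (cl G ω x).card)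
        = Finset.range (min (cl G ω x).card t) := by
      ext k
      simp only [Finset.mem_filter, Finset.mem_range, lt_min_iff]
      tauto
    rw [h3, Finset.card_range]
    rfl
  · have hb : ∀ k, Big G k ω x := by
      intro k
      by_contra hc
      exact hf (not_big_iff.1 hc).1
    have : (cluster G ω x).encard = ⊤ := Set.encard_eq_top hf
    simp [hb, this]

lemma sz_local {t : ℕ} {x : V} {ω ω' : Sym2 V → Bool}
    (h : ∀ e ∈ touch G {y | G.dist x y ≤ t}, ω e = ω' e) : sz G t x ω = sz G t x ω' := by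
  rw [sz_eq_sum, sz_eq_sum]
  apply Finset.sum_congr rfl
  intro k hk
  rw [Finset.mem_range] at hk
  have : Big G k ω x ↔ Big G k ω' x := by
    apply big_local
    intro e he
    apply h
    refine touch_mono ?_ he
    intro y hy
    exact le_trans hy hk.le
  simp only [this]

end loc

variable {Γ : Type*} [Group Γ] [Countable Γ] {G : SimpleGraph Γ}

lemma one_le_fT (p : unitInterval) {t : ℕ} (ht : 1 ≤ t) : 1 ≤ fT G p t := by
  have h : ∀ ω : Sym2 Γ → Bool, (1 : ℝ≥0∞) ≤ ((min (cluster G ω 1).encard (t : ℕ∞) : ℕ∞) : ℝ≥0∞) := by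
    intro ω
    have h1 : (1 : ℕ∞) ≤ min (cluster G ω 1).encard (t : ℕ∞) := by
      apply le_min
      · rw [Set.one_le_encard_iff_nonempty]
        exact ⟨1, self_mem_cluster⟩
      · exact_mod_cast ht
    exact_mod_cast h1
  calc (1 : ℝ≥0∞) = ∫⁻ _ω : Sym2 Γ → Bool, 1 ∂(perc Γ p) := by simp
    _ ≤ _ := lintegral_mono h

lemma fT_le (p : unitInterval) (t : ℕ) : fT G p t ≤ t := by
  calc fT G p t ≤ ∫⁻ _ω : Sym2 Γ → Bool, (t : ℝ≥0∞) ∂(perc Γ p) := lintegral_mono (fun ω => sz_le t 1)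
    _ = t := by simp

lemma fT_ne_top (p : unitInterval) (t : ℕ) : fT G p t ≠ ⊤ :=
  ne_top_of_le_ne_top (ENNReal.natCast_ne_top t) (fT_le p t)

/-- the differential inequality for the truncated expected size -/
theorem fT_deriv (hG : CayleyLike G) {x : ℝ} (h0 : 0 < x) (h1 : x < 1) (t : ℕ) :
    ∃ D : ℝ, HasDerivAt (fun y => (fT G (prm y) t).toReal) D x ∧
      D ≤ 2 * deg hG / (1 - x) * ((fT G (prm x) t).toReal) ^ 2 := by
  set Λ : Finset (Sym2 Γ) :=
    (touch_finite G hG.fin (ball_finite hG.conn hG.fin (1 : Γ) t)).toFinset with hΛ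
  set F : (Sym2 Γ → Bool) → ℝ := fun ω => (sz G t 1 ω).toReal with hF
  have hdep : DepOn Λ F := by
    intro ω ω' h
    simp only [hF]
    rw [sz_local (ω := ω) (ω' := ω')]
    intro e he
    exact h e (by simpa [hΛ] using he)
  have htop : ∀ ω : Sym2 Γ → Bool, sz G t 1 ω ≠ ⊤ := fun ω =>
    ne_top_of_le_ne_top (ENNReal.natCast_ne_top t) (sz_le t 1)
  have hint : ∀ p : unitInterval, ∫ ω, F ω ∂(prodBern (Sym2 Γ) p) = (fT G p t).toReal := by
    intro p
    have := integral_toReal (μ := perc Γ p) (f := sz G t 1) (measurable_sz t 1).aemeasurable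
      (Filter.Eventually.of_forall (fun ω => lt_top_iff_ne_top.2 (htop ω)))
    exact this
  have hr := russo Λ F hdep x h0 h1
  simp only [hint] at hr
  refine ⟨_, hr, ?_⟩
  set p : unitInterval := prm x with hp
  have hpx : (p : ℝ) = x := prm_coe h0.le h1.le
  have hp1 : (p : ℝ) ≠ 1 := by rw [hpx]; exact h1.ne
  have hterm : ∀ e ∈ Λ, ∫ ω, (F (Function.update ω e true) - F (Function.update ω e false))
      ∂(prodBern (Sym2 Γ) p) = (∫⁻ ω, (sz G t 1 (on ω e) - sz G t 1 (off ω e)) ∂(perc Γ p)).toReal := by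
    intro e _
    have hm : Measurable (fun ω : Sym2 Γ → Bool => sz G t 1 (on ω e) - sz G t 1 (off ω e)) :=
      ((measurable_sz t 1).comp (measurable_on e)).sub ((measurable_sz t 1).comp (measurable_off e))
    have := integral_toReal (μ := perc Γ p)
      (f := fun ω : Sym2 Γ → Bool => sz G t 1 (on ω e) - sz G t 1 (off ω e)) hm.aemeasurable
      (Filter.Eventually.of_forall (fun ω => lt_top_iff_ne_top.2
        (ne_top_of_le_ne_top (htop (on ω e)) tsub_le_self)))
    rw [← this]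
    apply integral_congr_ae
    filter_upwards with ω
    simp only [hF]
    rw [ENNReal.toReal_sub_of_le _ (htop _)]
    · rfl
    · exact sz_mono (cluster_mono (off_le_on e))
  rw [Finset.sum_congr rfl hterm, ← ENNReal.toReal_sum]
  · have key := sum_infl_sz p hG hp1 t Λ
    have hq : (ENNReal.ofReal (1 - (p : ℝ)))⁻¹ ≠ ⊤ := by
      rw [ENNReal.inv_ne_top, Ne, ENNReal.ofReal_eq_zero, not_le, hpx]
      linarith
    have hfin : 2 * (deg hG * (ENNReal.ofReal (1 - (p : ℝ)))⁻¹ * fT G p t * fT G p t) ≠ ⊤ := by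
      have hf := fT_ne_top (G := G) p t
      exact ENNReal.mul_ne_top (by simp) (ENNReal.mul_ne_top (ENNReal.mul_ne_top
        (ENNReal.mul_ne_top (ENNReal.natCast_ne_top _) hq) hf) hf)
    have h2 := ENNReal.toReal_mono hfin key
    refine le_trans h2 (le_of_eq ?_)
    simp only [ENNReal.toReal_mul, ENNReal.toReal_inv, ENNReal.toReal_natCast, ENNReal.toReal_ofNat]
    rw [ENNReal.toReal_ofReal (by rw [hpx]; linarith), hpx]
    field_simp
  · intro e _
    refine ne_top_of_le_ne_top (ENNReal.natCast_ne_top t) ?_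
    calc ∫⁻ ω, (sz G t 1 (on ω e) - sz G t 1 (off ω e)) ∂(perc Γ p)
        ≤ ∫⁻ _ω : Sym2 Γ → Bool, (t : ℝ≥0∞) ∂(perc Γ p) :=
          lintegral_mono (fun ω => le_trans tsub_le_self (sz_le t 1))
      _ = t := by simp

/-- statement of (b) -/
def ThetaDeriv (G : SimpleGraph Γ) : Prop :=
  ∀ x : ℝ, 0 < x → x < 1 → ∀ n : ℕ, n ≠ 0 →
    ∃ D : ℝ, HasDerivAt (fun y => (thetaN G (prm y) n).toReal) D x ∧
      ((∀ S : Set Γ, S.Finite → (1 : Γ) ∈ S → 1 ≤ phi G (prm x) 1 S) →
        4 * (1 - (thetaN G (prm x) n).toReal) ≤ D)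

lemma exp_bound {x : ℝ} (h0 : 0 ≤ x) (h1 : x ≤ 1) : x / 2 ≤ 1 - Real.exp (-x) := by
  have h := Real.exp_bound_div_one_sub_of_interval' (x := x)
  have h2 : Real.exp (-x) ≤ 1 - x + x ^ 2 / 2 := by
    have := Real.quadratic_le_exp_of_nonneg (x := x) h0
    have h3 : 0 < Real.exp x := Real.exp_pos x
    rw [Real.exp_neg, inv_le_comm₀ h3 (by nlinarith)]
    refine le_trans ?_ this
    rw [inv_le_iff_one_le_mul₀ (by nlinarith)]
    nlinarith [pow_nonneg h0 2, pow_nonneg h0 3, pow_nonneg h0 4]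
  nlinarith

/-- the `√t` bound -/
theorem sqrt_bound (hG : CayleyLike G) (hb : ThetaDeriv G) {p : unitInterval}
    (hcrit : IsCritical G p) (hp0 : (p : ℝ) ≠ 0) (hp1 : (p : ℝ) ≠ 1) :
    ∃ c : ℝ, 0 < c ∧ ∀ t : ℕ, ENNReal.ofReal (c * Real.sqrt t) ≤ fT G p t := by
  have h0 : 0 < (p : ℝ) := lt_of_le_of_ne p.2.1 (Ne.symm hp0)
  have h1 : (p : ℝ) < 1 := lt_of_le_of_ne p.2.2 hp1
  have hprm : prm (p : ℝ) = p := by
    apply Subtype.ext
    exact prm_coe p.2.1 p.2.2
  set d : ℝ := min (1 / 4) ((1 - (p : ℝ)) / 2) with hd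
  have hd0 : 0 < d := by
    rw [hd]; apply lt_min <;> linarith
  have hd1 : d ≤ 1 / 4 := min_le_left _ _
  have hd2 : d ≤ (1 - (p : ℝ)) / 2 := min_le_right _ _
  set K : ℝ := 2 * deg hG / ((1 - (p : ℝ)) / 2) with hK
  have hK0 : 0 ≤ K := by
    rw [hK]; apply div_nonneg
    · positivity
    · linarith
  set A : ℝ := 1 / (2 * d) + K * d with hA
  have hA0 : 0 < A := by
    rw [hA]
    have : 0 < 1 / (2 * d) := by positivity
    have : 0 ≤ K * d := mul_nonneg hK0 hd0.le
    linarith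
  refine ⟨1 / A, by positivity, fun t => ?_⟩
  rcases Nat.eq_zero_or_pos t with rfl | ht
  · simp
  have hs0 : 0 < Real.sqrt t := Real.sqrt_pos.2 (by exact_mod_cast ht)
  have hs1 : 1 ≤ Real.sqrt t := by
    rw [Real.one_le_sqrt]; exact_mod_cast ht
  set δ : ℝ := d / Real.sqrt t with hδ
  have hδ0 : 0 < δ := by positivity
  have hδd : δ ≤ d := by
    rw [hδ]; exact div_le_self hd0.le hs1
  set b : ℝ := (p : ℝ) + δ with hbdef
  have hb1 : b < 1 := by rw [hbdef]; linarith
  have hab : (p : ℝ) ≤ b := by rw [hbdef]; linarith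
  -- the theta part
  have hw := fun (y : ℝ) (hy : y ∈ Set.Icc (p : ℝ) b) =>
    hb y (lt_of_lt_of_le h0 hy.1) (lt_of_le_of_lt hy.2 hb1) t ht.ne'
  choose! w' hw'1 hw'2 using hw
  have hode := ode2 (w := fun y => (thetaN G (prm y) t).toReal) (w' := w') hab hw'1 ?_
  swap
  · intro y hy
    apply hw'2 y (Set.Ioo_subset_Icc_self hy)
    intro S hS h1S
    refine one_le_phi hG (prm y) ?_ hS h1S
    apply hcrit.2
    have hy0 : 0 ≤ y := le_trans h0.le hy.1.le
    have hy1 : y ≤ 1 := le_trans hy.2.le hb1.le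
    rw [← Subtype.coe_lt_coe, prm_coe hy0 hy1]
    exact hy.1
  have hthb : 2 * δ ≤ (thetaN G (prm b) t).toReal := by
    have e1 : (1 - (thetaN G (prm (p : ℝ)) t).toReal) ≤ 1 := by
      have := ENNReal.toReal_nonneg (a := thetaN G (prm (p : ℝ)) t)
      linarith
    have e2 : 1 - (thetaN G (prm b) t).toReal ≤ Real.exp (-(4 * (b - p))) := by
      refine le_trans hode ?_
      have := mul_le_mul_of_nonneg_right e1 (Real.exp_pos (-(4 * (b - (p : ℝ))))).le
      simpa using this
    have e3 := exp_bound (x := 4 * (b - p)) (by linarith) (by rw [hbdef]; linarith)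
    have e4 : 4 * (b - (p : ℝ)) / 2 = 2 * δ := by rw [hbdef]; ring
    linarith
  -- lower bound at b
  have hfb : 2 * δ * t ≤ (fT G (prm b) t).toReal := by
    have hsub : {ω : Sym2 Γ → Bool | Reach G t ω 1} ⊆ {ω | (t : ℝ≥0∞) ≤ sz G t 1 ω} := by
      rintro ω ⟨z, hz, hdz⟩
      have hbig : Big G t ω 1 := big_of_dist hz hdz.ge
      show (t : ℝ≥0∞) ≤ sz G t 1 ω
      unfold sz
      have : (t : ℕ∞) ≤ min (cluster G ω 1).encard (t : ℕ∞) := le_min (le_of_lt hbig) le_rfl
      exact_mod_cast this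
    have h2 : (t : ℝ≥0∞) * thetaN G (prm b) t ≤ fT G (prm b) t := by
      calc (t : ℝ≥0∞) * thetaN G (prm b) t
          ≤ (t : ℝ≥0∞) * perc Γ (prm b) {ω | (t : ℝ≥0∞) ≤ sz G t 1 ω} :=
            mul_le_mul' le_rfl (measure_mono hsub)
        _ ≤ ∫⁻ ω, sz G t 1 ω ∂(perc Γ (prm b)) :=
            mul_meas_ge_le_lintegral (measurable_sz t 1) _
        _ = _ := rfl
    have h3 := ENNReal.toReal_mono (fT_ne_top _ _) h2
    rw [ENNReal.toReal_mul, ENNReal.toReal_natCast] at h3
    refine le_trans ?_ h3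
    rw [mul_comm]
    exact mul_le_mul_of_nonneg_left hthb (by positivity)
  -- the differential inequality
  have hu := fun (y : ℝ) (hy : y ∈ Set.Icc (p : ℝ) b) =>
    fT_deriv hG (lt_of_lt_of_le h0 hy.1) (lt_of_le_of_lt hy.2 hb1) t
  choose! u' hu'1 hu'2 using hu
  have hupos : ∀ y, 0 < (fT G (prm y) t).toReal := by
    intro y
    have := one_le_fT (G := G) (prm y) ht
    have h2 := ENNReal.toReal_mono (fT_ne_top _ _) this
    simp only [ENNReal.toReal_one] at h2
    linarith
  have hode1 := ode1 (u := fun y => (fT G (prm y) t).toReal) (u' := u') (K := K) hab hu'1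
    (fun y _ => hupos y) ?_
  swap
  · intro y hy
    refine le_trans (hu'2 y hy) ?_
    apply mul_le_mul_of_nonneg_right _ (sq_nonneg _)
    rw [hK]
    have hy1 : y ≤ (p : ℝ) + (1 - (p : ℝ)) / 2 := by
      have := hy.2
      rw [hbdef] at this
      linarith
    apply div_le_div_of_nonneg_left (by positivity) (by linarith) (by linarith)
  simp only [hprm] at hode1
  have ht' : (0 : ℝ) < t := by exact_mod_cast ht
  have hfin : ((fT G p t).toReal)⁻¹ ≤ A / Real.sqrt t := by
    refine le_trans hode1 ?_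
    have e1 : ((fT G (prm b) t).toReal)⁻¹ ≤ (2 * δ * t)⁻¹ :=
      inv_anti₀ (by positivity) hfb
    have e2 : (2 * δ * t)⁻¹ = 1 / (2 * d) / Real.sqrt t := by
      have hss : Real.sqrt t * Real.sqrt t = t := Real.mul_self_sqrt ht'.le
      have h7 : 2 * δ * t = 2 * d * Real.sqrt t := by
        rw [hδ]
        field_simp
        nlinarith [hss]
      rw [h7, mul_inv, div_eq_mul_inv, one_div]
    have e3 : K * (b - (p : ℝ)) = K * d / Real.sqrt t := by
      rw [hbdef, hδ]; ring
    rw [e3]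
    calc _ ≤ 1 / (2 * d) / Real.sqrt t + K * d / Real.sqrt t := by
          rw [← e2]; gcongr
      _ = _ := by rw [hA]; ring
  have hup := hupos (p : ℝ)
  rw [hprm] at hup
  apply ENNReal.ofReal_le_of_le_toReal
  have h5 : Real.sqrt t / A ≤ (fT G p t).toReal := by
    rw [div_le_iff₀ hA0]
    have := mul_le_mul_of_nonneg_left hfin hup.le
    rw [mul_inv_cancel₀ hup.ne'] at this
    rw [mul_div_assoc'] at this
    rwa [one_le_div hs0] at this
  calc 1 / A * Real.sqrt t = Real.sqrt t / A := by ring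
    _ ≤ _ := h5

end Pool.Agent.H17.IIC
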