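import Mathlib
import Pool.Agent.H17.IIC.Sharp

/-! Cayley graphs; the critical value; monotonicity of `θ`. -/

open MeasureTheory Set Filter Topology
open scoped ENNReal Classical

set_option linter.unusedSectionVars false

namespace Pool.Agent.H17.IIC

open Pool.Agent.H91.IIC (prm prm_coe russo DepOn)

section cayley
variable {Γ : Type*} [Group Γ]

lemma mulCayley_inv (S : Set Γ) (γ x y : Γ) :
    (SimpleGraph.mulCayley S).Adj (γ * x) (γ * y) ↔ (SimpleGraph.mulCayley S).Adj x y := by
  rw [SimpleGraph.mulCayley_adj', SimpleGraph.mulCayley_adj']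
  simp only [ne_eq, mul_right_inj, mul_assoc]

lemma mulCayley_reach {S : Set Γ} (hgen : Subgroup.closure S = ⊤) (x : Γ) :
    (SimpleGraph.mulCayley S).Reachable 1 x := by
  have htr : ∀ (γ a b : Γ), (SimpleGraph.mulCayley S).Reachable a b →
      (SimpleGraph.mulCayley S).Reachable (γ * a) (γ * b) := by
    intro γ a b h
    let φ : (SimpleGraph.mulCayley S) →g (SimpleGraph.mulCayley S) :=
      ⟨fun v => γ * v, fun {a b} h => (mulCayley_inv S γ a b).2 h⟩
    exact h.map φ
  have hx : x ∈ Subgroup.closure S := by rw [hgen]; trivial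
  induction hx using Subgroup.closure_induction with
  | mem s hs =>
    by_cases h1 : (1 : Γ) = s
    · rw [← h1]
    · apply SimpleGraph.Adj.reachable
      rw [SimpleGraph.mulCayley_adj']
      exact ⟨h1, s, hs, Or.inl (one_mul s)⟩
  | one => exact SimpleGraph.Reachable.refl 1
  | mul a b _ _ ha hb =>
    have := htr a 1 b hb
    rw [mul_one] at this
    exact ha.trans this
  | inv a _ ha =>
    have := htr a⁻¹ 1 a ha
    rw [mul_one, inv_mul_cancel] at this
    exact this.symm

lemma cayleyLike_mulCayley {S : Set Γ} (hS : S.Finite) (hgen : Subgroup.closure S = ⊤) :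
    CayleyLike (SimpleGraph.mulCayley S) := by
  refine ⟨mulCayley_inv S, ?_, ?_⟩
  · have : Nonempty Γ := ⟨1⟩
    refine SimpleGraph.Connected.mk ?_
    intro x y
    exact (mulCayley_reach hgen x).symm.trans (mulCayley_reach hgen y)
  · intro x
    have : (SimpleGraph.mulCayley S).neighborSet x ⊆ (fun g => x * g) '' S ∪ (fun g => x * g⁻¹) '' S := by
      intro y hy
      rw [SimpleGraph.mem_neighborSet, SimpleGraph.mulCayley_adj'] at hy
      obtain ⟨_, g, hg, h | h⟩ := hy
      · exact Or.inl ⟨g, hg, h⟩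
      · right
        refine ⟨g, hg, ?_⟩
        rw [h]
        simp
    exact ((hS.image _).union (hS.image _)).subset this

lemma CayleyLike.countable {G : SimpleGraph Γ} (hG : CayleyLike G) : Countable Γ := by
  have h : (Set.univ : Set Γ) = ⋃ r : ℕ, {y | G.dist 1 y ≤ r} := by
    ext y
    simp only [Set.mem_univ, Set.mem_iUnion, true_iff]
    exact ⟨G.dist 1 y, show G.dist 1 y ≤ G.dist 1 y from le_rfl⟩
  rw [← Set.countable_univ_iff, h]
  exact Set.countable_iUnion (fun r => (ball_finite hG.conn hG.fin 1 r).countable)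

end cayley

section mono
variable {Γ : Type*} [Group Γ] [Countable Γ] {G : SimpleGraph Γ}

lemma tM_mono (hG : CayleyLike G) (M : ℕ) {a b : ℝ} (h0 : 0 < a) (hab : a ≤ b) (h1 : b < 1) :
    tM G (prm a) M ≤ tM G (prm b) M := by
  set Λ : Finset (Sym2 Γ) :=
    (touch_finite G hG.fin (ball_finite hG.conn hG.fin (1 : Γ) M)).toFinset with hΛ
  set F : (Sym2 Γ → Bool) → ℝ := {ω | Big G M ω 1}.indicator (fun _ => (1 : ℝ)) with hF
  have hdep : DepOn Λ F := by
    intro ω ω' h
    have : Big G M ω 1 ↔ Big G M ω' 1 :=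
      big_local (fun e he => h e (by simpa [hΛ] using he))
    simp only [hF, Set.indicator_apply, Set.mem_ofPred_eq, this]
  have hint : ∀ p : unitInterval, ∫ ω, F ω ∂(prodBern (Sym2 Γ) p) = (tM G p M).toReal := by
    intro p
    have := integral_indicator_const (μ := perc Γ p) (1 : ℝ) (measurableSet_big (G := G) M (1 : Γ))
    rw [smul_eq_mul, mul_one] at this
    exact this
  have hr := fun (x : ℝ) (hx : x ∈ Set.Icc a b) =>
    russo Λ F hdep x (lt_of_lt_of_le h0 hx.1) (lt_of_le_of_lt hx.2 h1)
  simp only [hint] at hr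
  have hmono : MonotoneOn (fun y => (tM G (prm y) M).toReal) (Set.Icc a b) := by
    apply monotoneOn_of_deriv_nonneg (convex_Icc a b)
    · intro y hy
      exact (hr y hy).continuousAt.continuousWithinAt
    · intro y hy
      rw [interior_Icc] at hy
      exact (hr y (Set.Ioo_subset_Icc_self hy)).differentiableAt.differentiableWithinAt
    · intro y hy
      rw [interior_Icc] at hy
      rw [(hr y (Set.Ioo_subset_Icc_self hy)).deriv]
      apply Finset.sum_nonneg
      intro e _
      apply integral_nonneg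
      intro ω
      simp only [Pi.zero_apply, sub_nonneg, hF]
      by_cases hb : Big G M (off ω e) 1
      · have hb' : Big G M (on ω e) 1 := hb.mono (cluster_mono (off_le_on e))
        rw [Set.indicator_of_mem (show Function.update ω e false ∈ {ω | Big G M ω 1} from hb),
          Set.indicator_of_mem (show Function.update ω e true ∈ {ω | Big G M ω 1} from hb')]
      · rw [Set.indicator_of_notMem (show Function.update ω e false ∉ {ω | Big G M ω 1} from hb)]
        exact Set.indicator_nonneg (fun _ _ => zero_le_one) _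
  have h2 := hmono (Set.left_mem_Icc.2 hab) (Set.right_mem_Icc.2 hab) hab
  simp only at h2
  exact (ENNReal.toReal_le_toReal (measure_ne_top _ _) (measure_ne_top _ _)).1 h2

lemma thetaZero_mono (hG : CayleyLike G) {a b : ℝ} (h0 : 0 < a) (hab : a ≤ b) (h1 : b < 1)
    (hb : ThetaZero G (prm b)) : ThetaZero G (prm a) := by
  have h2 := tM_tendsto (prm b) hb
  have h3 : Tendsto (tM G (prm a)) atTop (𝓝 0) :=
    tendsto_of_tendsto_of_tendsto_of_le_of_le tendsto_const_nhds h2 (fun _ => bot_le)
      (fun M => tM_mono hG M h0 hab h1)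
  have h4 : ∀ M, perc Γ (prm a) {ω | (cluster G ω 1).Infinite} ≤ tM G (prm a) M := by
    intro M
    apply measure_mono
    intro ω hω
    show Big G M ω 1
    by_contra hc
    exact hω (not_big_iff.1 hc).1
  have h5 : perc Γ (prm a) {ω | (cluster G ω 1).Infinite} ≤ 0 :=
    ge_of_tendsto h3 (Filter.Eventually.of_forall h4)
  exact le_antisymm h5 bot_le

/-- the critical value -/
noncomputable def pc (G : SimpleGraph Γ) : ℝ :=
  sInf {q : ℝ | ∃ h : q ∈ Set.Icc (0 : ℝ) 1, perc Γ ⟨q, h⟩ {ω | (cluster G ω 1).Infinite} ≠ 0}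

omit [Countable Γ] in
lemma not_thetaZero_one' : (1 : unitInterval) = ⟨1, by simp⟩ := rfl

lemma isCritical_of_pc [Infinite Γ] (hG : CayleyLike G) {p : unitInterval} (hp : (p : ℝ) = pc G) :
    IsCritical G p := by
  set A : Set ℝ :=
    {q : ℝ | ∃ h : q ∈ Set.Icc (0 : ℝ) 1, perc Γ ⟨q, h⟩ {ω | (cluster G ω 1).Infinite} ≠ 0} with hA
  have hbdd : BddBelow A := ⟨0, fun q hq => hq.1.1⟩
  have hone : ∀ q : unitInterval, (q : ℝ) = 1 → ¬ ThetaZero G q := by
    intro q hq h
    exact p_ne_one q hG.conn h hq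
  have hzero : ∀ q : unitInterval, (q : ℝ) = 0 → ThetaZero G q := by
    intro q hq
    unfold ThetaZero
    have h1 : ∀ᵐ ω ∂(perc Γ q), ∀ e : Sym2 Γ, ω e = false := by
      rw [ae_all_iff]
      intro e
      rw [ae_iff]
      have h2 : {ω : Sym2 Γ → Bool | ¬ ω e = false} = {ω | ω e = true} := by
        ext ω; simp
      rw [h2]
      have := prob_open q e
      unfold perc
      rw [this, hq]
      simp
    have h2 : ∀ᵐ ω ∂(perc Γ q), ¬ (cluster G ω 1).Infinite := by
      filter_upwards [h1] with ω hω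
      rw [Set.not_infinite]
      apply (Set.finite_singleton (1 : Γ)).subset
      intro z hz
      refine cluster_induction (P := fun z => z ∈ ({1} : Set Γ)) rfl ?_ z hz
      intro a _ _ b _ ho
      rw [hω] at ho
      simp at ho
    rw [ae_iff] at h2
    simpa using h2
  constructor
  · intro q hq
    by_contra hc
    have : (q : ℝ) ∈ A := ⟨q.2, hc⟩
    have h1 := csInf_le hbdd this
    have h2 : (q : ℝ) < p := hq
    rw [hp] at h2
    exact absurd h1 (not_le.2 h2)
  · intro q hq hth
    have h2 : pc G < (q : ℝ) := by rw [← hp]; exact hq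
    have hne : A.Nonempty := ⟨1, by simp, hone _ rfl⟩
    obtain ⟨a, ha, haq⟩ := exists_lt_of_csInf_lt hne h2
    obtain ⟨hI, hane⟩ := ha
    have ha0 : a ≠ 0 := by
      intro h
      exact hane (hzero ⟨a, hI⟩ h)
    have ha0' : 0 < a := lt_of_le_of_ne hI.1 (Ne.symm ha0)
    have hq1 : (q : ℝ) ≠ 1 := fun h => hone q h hth
    have hq1' : (q : ℝ) < 1 := lt_of_le_of_ne q.2.2 hq1
    have hqe : prm (q : ℝ) = q := Subtype.ext (prm_coe q.2.1 q.2.2)
    have hae : prm a = ⟨a, hI⟩ := Subtype.ext (prm_coe hI.1 hI.2)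
    have := thetaZero_mono hG ha0' haq.le hq1' (by rw [hqe]; exact hth)
    rw [hae] at this
    exact hane this

end mono

end Pool.Agent.H17.IIC
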