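import Mathlib
import Pool.Agent.H17.IIC.Cayley
import Pool.Agent.H91.IIC.Theta
import Pool.Agent.H91.IIC.DCb
import Pool.Agent.H97.IIC.Bridge

/-! The zero density theorem. -/

open MeasureTheory Set Filter Topology
open scoped ENNReal Classical

set_option linter.unusedSectionVars false

namespace Pool.Agent.H17.IIC

/-- zero density of the incipient infinite cluster on every infinite Cayley graph -/
theorem zeroDensity {Γ : Type*} [Group Γ] [Infinite Γ] {G : SimpleGraph Γ}
    (hG : CayleyLike G) (p : unitInterval) (hcrit : IsCritical G p) : ZeroDensity G p := by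
  have := hG.countable
  intro Q hQ
  have hth : ThetaZero G p := Pool.Agent.H91.IIC.thetaZero_of_isIIC p hG.conn hG.fin hQ
  have hp1 : (p : ℝ) ≠ 1 := p_ne_one p hG.conn hth
  have hp0 : (p : ℝ) ≠ 0 := by
    obtain ⟨hprob, n, hnmono, hlim⟩ := hQ
    have hev : ∀ᶠ j in atTop, aN G p (n j) ≠ 0 := by
      have h := law_tendsto p hG.inv hG.conn hth hlim isClopen_univ MeasurableSet.univ
      rw [measure_univ] at h
      have h' : ∀ᶠ j in atTop, rerootedLaw G p (n j) Set.univ ≠ 0 :=
        h.eventually_ne one_ne_zero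
      filter_upwards [h'] with j hj h0
      exact hj (law_univ_zero p hG.inv hG.conn hth (n j) h0)
    obtain ⟨j, hj1, hj2⟩ := (hev.and (eventually_ge_atTop 1)).exists
    have hnj : n j ≠ 0 := by
      have := hnmono.id_le j
      simp only [id] at this
      omega
    exact p_ne_zero p hnj hj1
  have hf := sqrt_bound hG
    (fun x h0 h1 n hn => Pool.Agent.H91.IIC.thetaN_deriv hG h0 h1 n hn) hcrit hp0 hp1
  exact fstatement p hG hp0 hp1 hth
    (Pool.Agent.H97.Bridge.pivStatement hG p hp0 hp1 hth hf) Q hQ

end Pool.Agent.H17.IIC
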