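import Mathlib
import Pool.Agent.H17.IIC.Loc

/-! The good event: outside a ball at most one large component touches the ball. -/

open MeasureTheory Set Filter Topology
open scoped ENNReal Classical Pointwise

set_option linter.unusedSectionVars false

namespace Pool.Agent.H17.IIC

section gen
variable {V : Type*} {G : SimpleGraph V} {ω ω' : Sym2 V → Bool} {x y : V} [Countable V]
  (p : unitInterval)

/-- exploration of the cluster of `x` (no edge removed) -/
lemma explore0 (hfin : ∀ x, (G.neighborSet x).Finite) (M : ℕ)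
    {K : Set V} (hKf : K.Finite) (hy : y ∉ K) :
    perc V p {ω | cluster G ω x = K ∧ Big G M ω y}
      ≤ perc V p {ω | cluster G ω x = K} * perc V p {ω | Big G M ω y} := by
  set A : Set (Sym2 V → Bool) := {ω | cluster G ω x = K} with hA
  set B : Set (Sym2 V → Bool) := {ω | Big G M (kill G K ω) y} with hB
  have hAm : MeasurableSet A := measurableSet_cluster_eq x K
  have hBm : MeasurableSet B := (measurable_kill K) (measurableSet_big M y)
  set F : Finset (Sym2 V) := (touch_finite G hfin hKf).toFinset with hF
  have hsub : {ω | cluster G ω x = K ∧ Big G M ω y} ⊆ A ∩ B := by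
    rintro ω ⟨h1, h2⟩
    exact ⟨h1, h2.mono (cluster_kill h1 hy)⟩
  have hcov := cov_bound p F (B.indicator 1) (A.indicator 1)
    (measurable_one.indicator hBm) (measurable_one.indicator hAm) ?_ ?_
  · have h1 : ∫⁻ ω, (B.indicator (1 : (Sym2 V → Bool) → ℝ≥0∞)) ω * (A.indicator 1) ω ∂(prodBern (Sym2 V) p)
        = perc V p (A ∩ B) := by
      rw [← lintegral_indicator_one (hAm.inter hBm)]
      apply lintegral_congr
      intro ω
      simp only [Set.indicator_apply, Set.mem_inter_iff, Pi.one_apply]
      by_cases ha : ω ∈ A <;> by_cases hb : ω ∈ B <;> simp [ha, hb]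
    have h2 : ∑ f ∈ F, ∫⁻ ω, infl f (B.indicator (1 : (Sym2 V → Bool) → ℝ≥0∞)) ω ∂(prodBern (Sym2 V) p) = 0 := by
      apply Finset.sum_eq_zero
      intro f hf
      have hft : f ∈ touch G K := by simpa [hF] using hf
      have : ∀ ω, infl f (B.indicator (1 : (Sym2 V → Bool) → ℝ≥0∞)) ω = 0 := by
        intro ω
        have hk : ∀ b, kill G K (Function.update ω f b) = kill G K ω := by
          intro b
          funext g
          unfold kill
          by_cases hg : g ∈ touch G K
          · simp [hg]
          · simp only [hg, if_false]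
            exact Function.update_of_ne (fun h => hg (by rw [h]; exact hft)) _ _
        have hmem : ∀ b, Function.update ω f b ∈ B ↔ ω ∈ B := by
          intro b
          simp only [hB, Set.mem_ofPred_eq, hk]
        unfold infl
        simp only [Set.indicator_apply, hmem]
        simp
      simp [this]
    rw [h1, h2, add_zero, lintegral_indicator_one hBm, lintegral_indicator_one hAm] at hcov
    calc _ ≤ perc V p (A ∩ B) := measure_mono hsub
      _ ≤ _ := hcov
      _ = perc V p A * perc V p B := mul_comm _ _
      _ ≤ _ := by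
        gcongr
        intro ω hω
        exact Big.mono (show Big G M (kill G K ω) y from hω) (cluster_mono kill_le)
  · intro ω ω' hω
    have hag : ∀ f ∈ touch G K, ω f = ω' f := by
      intro f hf
      exact hω f (by simpa [hF] using hf)
    have : ω ∈ A ↔ ω' ∈ A := by
      constructor
      · intro h
        have h' : cluster G ω x = K := h
        show cluster G ω' x = K
        rw [cluster_congr (ω := ω), h']
        rw [h']; exact hag
      · intro h
        have h' : cluster G ω' x = K := h
        show cluster G ω x = K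
        rw [cluster_congr (ω := ω'), h']
        rw [h']; exact fun f hf => (hag f hf).symm
    simp only [Set.indicator_apply, this, Pi.one_apply]
  · intro ω
    simp only [Set.indicator_apply, Pi.one_apply]
    split_ifs <;> simp

lemma explore0_lintegral (hfin : ∀ x, (G.neighborSet x).Finite) (M : ℕ)
    (g : Finset V → ℝ≥0∞) (hg : g ∅ = 0) (x y : V) :
    ∫⁻ ω in {ω | y ∉ cluster G ω x ∧ Big G M ω y}, g (cl G ω x) ∂(perc V p)
      ≤ (∫⁻ ω, g (cl G ω x) ∂(perc V p)) * perc V p {ω | Big G M ω y} := by
  rw [setLIntegral_cl p _ g (measurable_cl x), lintegral_cl p g (measurable_cl x),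
    ← ENNReal.tsum_mul_right]
  apply ENNReal.tsum_le_tsum
  intro K
  rcases K.eq_empty_or_nonempty with rfl | hK
  · simp [hg]
  have hset : {ω : Sym2 V → Bool | cl G ω x = K} = {ω | cluster G ω x = K} := by
    ext ω
    exact cl_eq_iff hK
  rw [hset, mul_assoc]
  gcongr
  by_cases hy : y ∈ K
  · have : ({ω : Sym2 V → Bool | cluster G ω x = K}
        ∩ {ω | y ∉ cluster G ω x ∧ Big G M ω y}) = ∅ := by
      ext ω
      simp only [Set.mem_inter_iff, Set.mem_ofPred_eq, Set.mem_empty_iff_false, iff_false,
        not_and]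
      intro h1 h2
      rw [h1] at h2
      exact absurd hy h2
    rw [this]; simp
  · refine le_trans (measure_mono ?_) (explore0 p hfin M K.finite_toSet hy)
    rintro ω ⟨h1, h2, h3⟩
    exact ⟨h1, h3⟩

end gen

variable {Γ : Type*} [Group Γ] {G : SimpleGraph Γ}

/-- the ball of radius `r` about the identity -/
def ball (G : SimpleGraph Γ) (r : ℕ) : Set Γ := {y | G.dist 1 y ≤ r}

/-- At most one component larger than `M` of the complement of the ball of radius `r` touches the
ball of radius `r + 1`. -/
def good (G : SimpleGraph Γ) (r M : ℕ) (ω : Sym2 Γ → Bool) : Prop :=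
  ∀ x ∈ ball G (r + 1), ∀ y ∈ ball G (r + 1), Big G M (kill G (ball G r) ω) x →
    Big G M (kill G (ball G r) ω) y → y ∈ cluster G (kill G (ball G r) ω) x

lemma kill_update {V : Type*} {G : SimpleGraph V} {K : Set V} {e : Sym2 V} (he : e ∈ touch G K)
    (ω : Sym2 V → Bool) (b : Bool) : kill G K (Function.update ω e b) = kill G K ω := by
  funext g
  unfold kill
  by_cases hg : g ∈ touch G K
  · simp [hg]
  · simp only [hg, if_false]
    exact Function.update_of_ne (fun h => hg (by rw [h]; exact he)) _ _

lemma good_update {r M : ℕ} {e : Sym2 Γ} (he : e ∈ touch G (ball G r)) (ω : Sym2 Γ → Bool)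
    (b : Bool) : good G r M (Function.update ω e b) ↔ good G r M ω := by
  unfold good
  rw [kill_update he]

lemma kill_off_le {V : Type*} {G : SimpleGraph V} {K : Set V} {e : Sym2 V} (he : e ∈ touch G K)
    {ω : Sym2 V → Bool} : ∀ f, kill G K ω f = true → off ω e f = true := by
  intro f hf
  have hfe : f ≠ e := by
    rintro rfl
    unfold kill at hf
    rw [if_pos he] at hf
    exact absurd hf (by simp)
  rw [off_ne hfe]
  exact kill_le f hf

/-- a vertex connected to a vertex near the ball is in the ball or is connected outside the ball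
to a vertex of the larger ball -/
lemma reach_outside (hconn : G.Connected) {r : ℕ} {ω : Sym2 Γ → Bool} {e : Sym2 Γ} {y : Γ}
    (hy : y ∈ ball G (r + 1)) : ∀ l ∈ cluster G (off ω e) y,
      l ∈ ball G r ∨ ∃ u ∈ ball G (r + 1), u ∈ cluster G (off ω e) y ∧
        l ∈ cluster G (kill G (ball G r) ω) u := by
  apply cluster_induction
  · right
    exact ⟨y, hy, self_mem_cluster, self_mem_cluster⟩
  · intro a ha hPa b hab ho
    by_cases hb : b ∈ ball G r
    · exact Or.inl hb
    · right
      have hbc : b ∈ cluster G (off ω e) y := cluster_step ha hab ho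
      by_cases hA : a ∈ ball G r
      · refine ⟨b, ?_, hbc, self_mem_cluster⟩
        have t1 : G.dist 1 b ≤ G.dist 1 a + G.dist a b := hconn.dist_triangle
        have t2 : G.dist a b = 1 := SimpleGraph.dist_eq_one_iff_adj.2 hab
        have t3 : G.dist 1 a ≤ r := hA
        show G.dist 1 b ≤ r + 1
        omega
      · rcases hPa with h | ⟨u, hu, huc, hau⟩
        · exact absurd h hA
        · refine ⟨u, hu, huc, cluster_step hau hab ?_⟩
          unfold kill
          rw [if_neg]
          · exact off_le _ _ ho
          · intro hmem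
            rcases of_mem_touch hmem with h | h
            · exact hA h
            · exact hb h

lemma dist_ball_le (hconn : G.Connected) {r M : ℕ} {u v : Γ} (hu : u ∈ ball G (r + 1))
    (hv : M + r + 2 ≤ G.dist 1 v) : M ≤ G.dist u v := by
  have t1 : G.dist 1 v ≤ G.dist 1 u + G.dist u v := hconn.dist_triangle
  have t2 : G.dist 1 u ≤ r + 1 := hu
  omega

/-- the number of vertices of a large bound for bushes -/
noncomputable def bushBound (G : SimpleGraph Γ) (r M : ℕ) : ℕ := (M + 1) * (ball G (r + 1)).ncard

/-- on the good event, if `v` is far away and connected to `x` (with the edge `xy` closed) then the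
part attached through `y` is small -/
lemma small_of_good (hconn : G.Connected) (hfin : ∀ x, (G.neighborSet x).Finite) {r M : ℕ}
    {ω : Sym2 Γ → Bool} {x y v : Γ} (hxy : s(x, y) ∈ touch G (ball G r))
    (hx : x ∈ ball G (r + 1)) (hy : y ∈ ball G (r + 1)) (hg : good G r M ω)
    (hL : (cluster G (off ω s(x, y)) y).Finite) (hns : y ∉ cluster G (off ω s(x, y)) x)
    (hv : v ∈ cluster G (off ω s(x, y)) x) (hd : M + r + 2 ≤ G.dist 1 v) :
    (cl G (off ω s(x, y)) y).card ≤ bushBound G r M := by
  set e : Sym2 Γ := s(x, y) with he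
  have hBf : (ball G (r + 1)).Finite := ball_finite hconn hfin 1 (r + 1)
  -- component of `v`
  have hvB : v ∉ ball G r := by
    intro h
    have : G.dist 1 v ≤ r := h
    omega
  obtain ⟨u', hu', hu'c, hvu'⟩ : ∃ u ∈ ball G (r + 1), u ∈ cluster G (off ω e) x ∧
        v ∈ cluster G (kill G (ball G r) ω) u := by
    rcases reach_outside (ω := ω) (e := e) hconn hx v hv with h | h
    · exact absurd h hvB
    · exact h
  have hbig' : Big G M (kill G (ball G r) ω) u' := big_of_dist hvu' (dist_ball_le hconn hu' hd)
  have hsmall : ∀ u ∈ ball G (r + 1), u ∈ cluster G (off ω e) y →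
      (cluster G (kill G (ball G r) ω) u).Finite ∧ (cl G (kill G (ball G r) ω) u).card ≤ M := by
    intro u hu huc
    rw [← not_big_iff]
    intro hb
    apply hns
    have h1 : u ∈ cluster G (kill G (ball G r) ω) u' := hg u' hu' u hu hbig' hb
    have h2 : u ∈ cluster G (off ω e) u' := cluster_mono (kill_off_le hxy) h1
    have h3 : u ∈ cluster G (off ω e) x := SimpleGraph.Reachable.trans hu'c h2
    exact SimpleGraph.Reachable.trans h3 (SimpleGraph.Reachable.symm huc)
  have hsub : cl G (off ω e) y ⊆ hBf.toFinset ∪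
      (hBf.toFinset.filter (fun u => u ∈ cluster G (off ω e) y)).biUnion
        (fun u => cl G (kill G (ball G r) ω) u) := by
    intro l hl
    rw [mem_cl_of_finite hL] at hl
    rw [Finset.mem_union]
    rcases reach_outside (ω := ω) (e := e) hconn hy l hl with h | ⟨u, hu, huc, hlu⟩
    · left
      rw [Set.Finite.mem_toFinset]
      exact le_trans (show G.dist 1 l ≤ r from h) (Nat.le_succ r)
    · right
      rw [Finset.mem_biUnion]
      refine ⟨u, ?_, ?_⟩
      · rw [Finset.mem_filter, Set.Finite.mem_toFinset]
        exact ⟨hu, huc⟩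
      · rw [mem_cl_of_finite (hsmall u hu huc).1]
        exact hlu
  have hcard : hBf.toFinset.card = (ball G (r + 1)).ncard := (Set.ncard_eq_toFinset_card _ hBf).symm
  calc (cl G (off ω e) y).card ≤ _ := Finset.card_le_card hsub
    _ ≤ hBf.toFinset.card + ((hBf.toFinset.filter (fun u => u ∈ cluster G (off ω e) y)).biUnion
        (fun u => cl G (kill G (ball G r) ω) u)).card := Finset.card_union_le _ _
    _ ≤ hBf.toFinset.card + (hBf.toFinset.filter (fun u => u ∈ cluster G (off ω e) y)).card * M := by
        gcongr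
        apply Finset.card_biUnion_le_card_mul
        intro u hu
        rw [Finset.mem_filter, Set.Finite.mem_toFinset] at hu
        exact (hsmall u hu.1 hu.2).2
    _ ≤ hBf.toFinset.card + hBf.toFinset.card * M := by
        gcongr
        exact Finset.filter_subset _ _
    _ = bushBound G r M := by rw [hcard, bushBound]; ring

/-- the small error term for the oriented edge `(x, y)` -/
noncomputable def err2 (G : SimpleGraph Γ) (n M : ℕ) (x y : Γ) (ω : Sym2 Γ → Bool) : ℝ≥0∞ :=
  (∑' z, send2 G n M (on ω s(x, y)) z y) + hfun G n (cl G (off ω s(x, y)) x) * (M / n)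

variable [Countable Γ] (p : unitInterval)

lemma diff_le_err2 {n M' : ℕ} (hn : n ≠ 0) {x y v : Γ} (hxy : G.Adj x y) {ω : Sym2 Γ → Bool}
    (hK : (cluster G (off ω s(x, y)) x).Finite) (hL : (cluster G (off ω s(x, y)) y).Finite)
    (hv : v ∈ cluster G (off ω s(x, y)) x) (hM : (cl G (off ω s(x, y)) y).card ≤ M') :
    (hfun G n (cl G (on ω s(x, y)) v) - hfun G n (cl G (off ω s(x, y)) v))
      + (hfun G n (cl G (off ω s(x, y)) v) - hfun G n (cl G (on ω s(x, y)) v))
      ≤ err2 G n M' x y ω := by
  have hclK : cl G (off ω s(x, y)) v = cl G (off ω s(x, y)) x := cl_congr (cluster_eq_of_mem hv)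
  have hclJ : cl G (on ω s(x, y)) v = cl G (on ω s(x, y)) x :=
    cl_congr (cluster_eq_of_mem (cluster_mono (off_le_on _) hv))
  rw [hclK, hclJ]
  have e1 := attach_small (n := n) hxy hK hL hM
  have e2 := detach_small hn hxy hK hL hM
  unfold err2
  exact add_le_add (tsub_le_iff_left.2 e1) (tsub_le_iff_left.2 e2)

/-- `h_n` of the cluster of `v`, on the good event -/
noncomputable def Hg (G : SimpleGraph Γ) (n r M : ℕ) (v : Γ) (ω : Sym2 Γ → Bool) : ℝ≥0∞ :=
  if good G r M ω then hfun G n (cl G ω v) else 0

lemma infl_Hg_le (hconn : G.Connected) (hfin : ∀ x, (G.neighborSet x).Finite)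
    {n r M : ℕ} (hn : n ≠ 0) {x y v : Γ} (hxy : G.Adj x y) (hxB : x ∈ ball G r)
    {ω : Sym2 Γ → Bool}
    (hK : (cluster G (off ω s(x, y)) x).Finite) (hL : (cluster G (off ω s(x, y)) y).Finite)
    (hd : M + r + 2 ≤ G.dist 1 v) :
    infl s(x, y) (Hg G n r M v) ω
      ≤ err2 G n (bushBound G r M) x y ω + err2 G n (bushBound G r M) y x ω := by
  have htouch : s(x, y) ∈ touch G (ball G r) := mem_touch_left hxB hxy
  have hx : x ∈ ball G (r + 1) := le_trans (show G.dist 1 x ≤ r from hxB) (Nat.le_succ r)
  have hy : y ∈ ball G (r + 1) := by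
    have t1 : G.dist 1 y ≤ G.dist 1 x + G.dist x y := hconn.dist_triangle
    have t2 : G.dist x y = 1 := SimpleGraph.dist_eq_one_iff_adj.2 hxy
    have t3 : G.dist 1 x ≤ r := hxB
    show G.dist 1 y ≤ r + 1
    omega
  by_cases hg : good G r M ω
  · have h1 : infl s(x, y) (Hg G n r M v) ω
        = (hfun G n (cl G (on ω s(x, y)) v) - hfun G n (cl G (off ω s(x, y)) v))
      + (hfun G n (cl G (off ω s(x, y)) v) - hfun G n (cl G (on ω s(x, y)) v)) := by
      unfold infl Hg
      rw [if_pos ((good_update htouch ω true).2 hg), if_pos ((good_update htouch ω false).2 hg)]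
      rfl
    rw [h1]
    by_cases hyx : y ∈ cluster G (off ω s(x, y)) x
    · have : cl G (on ω s(x, y)) v = cl G (off ω s(x, y)) v := cl_congr (cluster_on_of_mem hxy hyx v)
      rw [this]; simp
    · by_cases hvx : v ∈ cluster G (off ω s(x, y)) x
      · refine le_trans (diff_le_err2 hn hxy hK hL hvx ?_) le_self_add
        exact small_of_good hconn hfin htouch hx hy hg hL hyx hvx hd
      · by_cases hvy : v ∈ cluster G (off ω s(x, y)) y
        · have hswap : s(x, y) = s(y, x) := Sym2.eq_swap
          have hx' : x ∉ cluster G (off ω s(y, x)) y := by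
            intro h
            apply hyx
            rw [hswap]
            exact mem_cluster_comm.1 h
          rw [hswap] at hK hL hvy htouch ⊢
          refine le_trans (diff_le_err2 hn hxy.symm hL hK hvy ?_) le_add_self
          exact small_of_good hconn hfin htouch hy hx hg hK hx' hvy hd
        · have : cl G (on ω s(x, y)) v = cl G (off ω s(x, y)) v :=
            cl_congr (cluster_on_of_not_mem hvx hvy)
          rw [this]; simp
  · have h1 : infl s(x, y) (Hg G n r M v) ω = 0 := by
      unfold infl Hg
      rw [if_neg (fun h => hg ((good_update htouch ω true).1 h)),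
        if_neg (fun h => hg ((good_update htouch ω false).1 h))]
      simp
    rw [h1]; exact bot_le

lemma measurable_err2 (n M : ℕ) (x y : Γ) : Measurable (err2 G n M x y) := by
  unfold err2
  have hmoff : Measurable (fun ω : Sym2 Γ → Bool => hfun G n (cl G (off ω s(x, y)) x)) :=
    (measurable_hcl n x).comp (measurable_off s(x, y))
  exact (measurable_err1 n M x y).add (hmoff.mul_const _)

theorem mean_err2 (hinv : ∀ γ x y, G.Adj (γ * x) (γ * y) ↔ G.Adj x y) (hconn : G.Connected)
    (hfin : ∀ x, (G.neighborSet x).Finite) (hp0 : (p : ℝ) ≠ 0) (hp1 : (p : ℝ) ≠ 1)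
    (n M : ℕ) (x y : Γ) :
    ∫⁻ ω, err2 G n M x y ω ∂(perc Γ p)
      ≤ aN G p n * ((ENNReal.ofReal (p : ℝ))⁻¹ * ((((1 + M) * bsize G M : ℕ) : ℝ≥0∞) / n)
        + (ENNReal.ofReal (1 - (p : ℝ)))⁻¹ * (M / n)) := by
  have hmoff : Measurable (fun ω : Sym2 Γ → Bool => hfun G n (cl G (off ω s(x, y)) x)) :=
    (measurable_hcl n x).comp (measurable_off s(x, y))
  have hoff : ∫⁻ ω, hfun G n (cl G (off ω s(x, y)) x) ∂(perc Γ p)
      ≤ (ENNReal.ofReal (1 - (p : ℝ)))⁻¹ * aN G p n := by
    refine le_trans (lintegral_off_le p s(x, y) hp1 (measurable_hcl n x)) ?_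
    rw [mean_h p hinv hconn n x]
    rfl
  unfold err2
  rw [lintegral_add_left (measurable_err1 n M x y), lintegral_mul_const _ hmoff]
  have e1 : ∫⁻ ω, (∑' z, send2 G n M (on ω s(x, y)) z y) ∂(perc Γ p)
      ≤ (ENNReal.ofReal (p : ℝ))⁻¹ * ((((1 + M) * bsize G M : ℕ) : ℝ≥0∞) / n * aN G p n) := by
    refine le_trans (lintegral_on_le p s(x, y) hp0
      (Measurable.tsum (fun z => measurable_send2 n M z y))) ?_
    gcongr
    exact mean_send2 p hinv hconn hfin n M y
  calc _ ≤ (ENNReal.ofReal (p : ℝ))⁻¹ * ((((1 + M) * bsize G M : ℕ) : ℝ≥0∞) / n * aN G p n)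
        + (ENNReal.ofReal (1 - (p : ℝ)))⁻¹ * aN G p n * (M / n) := add_le_add e1 (by gcongr)
    _ = _ := by ring

lemma measurableSet_good (hconn : G.Connected) (hfin : ∀ x, (G.neighborSet x).Finite) (r M : ℕ) :
    MeasurableSet {ω : Sym2 Γ → Bool | good G r M ω} := by
  have : {ω : Sym2 Γ → Bool | good G r M ω} = ⋂ x ∈ ball G (r + 1), ⋂ y ∈ ball G (r + 1),
      ({ω | Big G M (kill G (ball G r) ω) x}ᶜ ∪ ({ω | Big G M (kill G (ball G r) ω) y}ᶜ ∪
        {ω | y ∈ cluster G (kill G (ball G r) ω) x})) := by
    ext ω
    simp only [good, Set.mem_ofPred_eq, Set.mem_iInter, Set.mem_union, Set.mem_compl_iff]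
    constructor
    · intro h x hx y hy
      by_cases h1 : Big G M (kill G (ball G r) ω) x
      · by_cases h2 : Big G M (kill G (ball G r) ω) y
        · exact Or.inr (Or.inr (h x hx y hy h1 h2))
        · exact Or.inr (Or.inl h2)
      · exact Or.inl h1
    · intro h x hx y hy h1 h2
      rcases h x hx y hy with h | h | h
      · exact absurd h1 h
      · exact absurd h2 h
      · exact h
  rw [this]
  refine MeasurableSet.biInter (to_countable _) (fun x _ => MeasurableSet.biInter (to_countable _)
    (fun y _ => ?_))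
  exact ((measurable_kill _) (measurableSet_big M x)).compl.union
    (((measurable_kill _) (measurableSet_big M y)).compl.union
      ((measurable_kill _) (measurableSet_mem_cluster x y)))

lemma measurable_Hg (hconn : G.Connected) (hfin : ∀ x, (G.neighborSet x).Finite)
    (n r M : ℕ) (v : Γ) : Measurable (Hg G n r M v) := by
  unfold Hg
  exact Measurable.ite (measurableSet_good hconn hfin r M) (measurable_hcl n v) measurable_const

end Pool.Agent.H17.IIC
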